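import Pool.Agent.H44.DE.SFF
import Pool.Agent.H51.DG.NG

/-!
# DE-S job 5: the f-lemma on the square `r, s < ρ` (uses `SFF.lean`)

`A = Am (3/2) a`, `B = Am (3/2) b`, both `≥ 0`, continuous, exponentially decaying (`adm_Am`).
Exact: `∬_sq f(r-s)(A r - A s)(B r - B s) = 2 ∫_{r<ρ} φ A B - 2 ∬_sq f(r-s) A r B s`,
`φ r = ∫_{s<ρ} f(r-s) ds` (`f` even).  So
`-2 ∬_sq f A B' = ∬_sq f (A-A')(B-B') - 2 ∫_{r<ρ} φ A B ≥ -(1/2) ∬_sq |f| ((A-A')² + (B-B')²) - 2 ∫_{r<ρ} φ A B`;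
`φ ≤ 0` for `r ≤ ρ - 4`, `φ ≤ 9`, `B r = e^{-3r/2} MMb b r ≤ e^{-3r/2} ms b`, so the last term is
`≥ -18 ms b ∫_{ρ-4<r<ρ} A e^{-3r/2} ≥ -18 ms b TT a (ρ-4)`.
-/

set_option autoImplicit false
open Real Set MeasureTheory Filter Topology

namespace Pool.Agent.H44.DE
open Pool.Agent.H45.FL Pool.Agent.H51.DG Pool.Agent.H45.DY Pool.Agent.H90.DC Pool.Agent.H90.DE

theorem SFL_conv {h : ℝ → ℝ} (hh : Integrable h) :
    Integrable (fun z : ℝ × ℝ => ff (z.1 - z.2) * h z.2) ∧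
    Integrable (fun z : ℝ × ℝ => ff (z.1 - z.2) * h z.1) := by
  have h1 : Integrable (fun z : ℝ × ℝ => h z.2 * ff (z.1 - z.2)) := by
    have h0 := hh.convolution_integrand (ContinuousLinearMap.mul ℝ ℝ) ff_int.1
    rw [Measure.volume_eq_prod]
    simpa using h0
  have h2 : Integrable (fun z : ℝ × ℝ => ff (z.1 - z.2) * h z.2) :=
    h1.congr (Eventually.of_forall fun z => mul_comm _ _)
  refine ⟨h2, ?_⟩
  have h3 : Integrable (fun z : ℝ × ℝ => ff (z.swap.1 - z.swap.2) * h z.swap.2) := by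
    rw [Measure.volume_eq_prod] at h2 ⊢
    exact h2.swap
  refine h3.congr (Eventually.of_forall fun z => ?_)
  show ff (z.2 - z.1) * h z.1 = ff (z.1 - z.2) * h z.1
  rw [← ff_even (z.1 - z.2)]
  congr 2
  ring

theorem SFL_E {a : ℝ → ℝ} (ha : Bd a) {b : ℝ → ℝ} (hb : Bd b) :
    ∃ K κ : ℝ, 0 < κ ∧ NA_E K κ (Am (3 / 2) a) ∧ NA_E K κ (Am (3 / 2) b) := by
  obtain ⟨K, κ, hκ, h1, h2, h3, h4⟩ := NA_common (adm_Am ha (m := 3 / 2) (by norm_num))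
    (adm_Am hb (m := 3 / 2) (by norm_num))
  exact ⟨K, κ, hκ, h1, h3⟩

theorem SFL_cross {K κ : ℝ} {A B : ℝ → ℝ} (hκ : 0 < κ) (hA : NA_E K κ A) (hB : NA_E K κ B) :
    Integrable (fun z : ℝ × ℝ => ff (z.1 - z.2) * (A z.1 * B z.2)) := by
  have h0 : Integrable (fun r : ℝ => K ^ 2 * Real.exp (-(κ * |r|))) :=
    (NA_int_exp hκ).const_mul (K ^ 2)
  have h1 := (SFL_conv h0).2
  refine h1.mono ?_ ?_
  · have h2 := ff_cont
    have h3 := hA.1
    have h4 := hB.1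
    have : Continuous (fun z : ℝ × ℝ => ff (z.1 - z.2) * (A z.1 * B z.2)) := by fun_prop
    exact this.aestronglyMeasurable
  · refine Eventually.of_forall fun z => ?_
    have h5 : ‖A z.1 * B z.2‖ ≤ ‖K ^ 2 * Real.exp (-(κ * |z.1|))‖ := by
      rw [Real.norm_eq_abs, Real.norm_eq_abs]
      exact (NA_mul_le hκ hA hB z.1 z.2).trans (le_abs_self _)
    have h6 := mul_le_mul_of_nonneg_left h5 (norm_nonneg (ff (z.1 - z.2)))
    rw [← norm_mul, ← norm_mul] at h6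
    exact h6

theorem SFL_diag {K κ : ℝ} {A B : ℝ → ℝ} (hκ : 0 < κ) (hA : NA_E K κ A) (hB : NA_E K κ B) :
    Integrable (fun z : ℝ × ℝ => ff (z.1 - z.2) * (A z.1 * B z.1)) ∧
    Integrable (fun z : ℝ × ℝ => ff (z.1 - z.2) * (A z.2 * B z.2)) := by
  have h := SFL_conv (NA_int_prod hκ hA hB)
  exact ⟨h.2, h.1⟩

theorem SFL_prod {K κ : ℝ} {A B : ℝ → ℝ} (hκ : 0 < κ) (hA : NA_E K κ A) (hB : NA_E K κ B) :
    Integrable (fun z : ℝ × ℝ => ff (z.1 - z.2) * ((A z.1 - A z.2) * (B z.1 - B z.2))) := by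
  have h1 := SFL_diag hκ hA hB
  have h2 := SFL_cross hκ hA hB
  have h3 := SFL_cross hκ hB hA
  refine (((h1.1.add h1.2).sub h2).sub h3).congr (Eventually.of_forall fun z => ?_)
  simp only [Pi.add_apply, Pi.sub_apply]
  ring

theorem SFL_gq (ρ : ℝ) (A : ℝ → ℝ) :
    (fun z : ℝ × ℝ => gq ρ z.1 z.2 * (A z.1 - A z.2) ^ 2) =
      (Iio ρ ×ˢ Iio ρ).indicator (fun z : ℝ × ℝ => |ff (z.1 - z.2)| * (A z.1 - A z.2) ^ 2) := by
  funext z
  unfold gq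
  by_cases h : z.1 < ρ ∧ z.2 < ρ
  · rw [indicator_of_mem (show z ∈ Iio ρ ×ˢ Iio ρ from ⟨h.1, h.2⟩), if_pos h]
  · rw [indicator_of_notMem (show z ∉ Iio ρ ×ˢ Iio ρ from fun hz => h ⟨hz.1, hz.2⟩), if_neg h,
      zero_mul]

theorem SFL_sq {K κ : ℝ} {A : ℝ → ℝ} (hκ : 0 < κ) (hA : NA_E K κ A) :
    Integrable (fun z : ℝ × ℝ => |ff (z.1 - z.2)| * (A z.1 - A z.2) ^ 2) := by
  refine (SFL_prod hκ hA hA).abs.congr (Eventually.of_forall fun z => ?_)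
  show |ff (z.1 - z.2) * ((A z.1 - A z.2) * (A z.1 - A z.2))| = _
  rw [abs_mul, abs_mul_self]
  ring

theorem SFL_meas (ρ : ℝ) : MeasurableSet (Iio ρ ×ˢ Iio ρ : Set (ℝ × ℝ)) :=
  measurableSet_Iio.prod measurableSet_Iio

/-- integrability of the difference integral on the square -/
theorem gq_int {a : ℝ → ℝ} (ha : Bd a) (ρ : ℝ) :
    Integrable (fun z : ℝ × ℝ => gq ρ z.1 z.2 * (Am (3 / 2) a z.1 - Am (3 / 2) a z.2) ^ 2) := by
  obtain ⟨K, κ, hκ, hA, -⟩ := SFL_E ha ha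
  rw [SFL_gq]
  exact (SFL_sq hκ hA).indicator (SFL_meas ρ)

theorem SFL_DI {a : ℝ → ℝ} (ρ : ℝ) : DI (gq ρ) a =
    ∫ z in Iio ρ ×ˢ Iio ρ, |ff (z.1 - z.2)| * (Am (3 / 2) a z.1 - Am (3 / 2) a z.2) ^ 2 := by
  unfold DI
  rw [SFL_gq, integral_indicator (SFL_meas ρ)]

theorem SFL_swap (ρ : ℝ) (f : ℝ × ℝ → ℝ) :
    ∫ z in Iio ρ ×ˢ Iio ρ, f z.swap = ∫ z in Iio ρ ×ˢ Iio ρ, f z := by
  rw [← integral_indicator (SFL_meas ρ), ← integral_indicator (SFL_meas ρ)]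
  have h1 : (fun z : ℝ × ℝ => (Iio ρ ×ˢ Iio ρ).indicator (fun z => f z.swap) z) =
      fun z : ℝ × ℝ => (Iio ρ ×ˢ Iio ρ).indicator f z.swap := by
    funext z
    by_cases h : z.1 < ρ ∧ z.2 < ρ
    · rw [indicator_of_mem (show z ∈ Iio ρ ×ˢ Iio ρ from ⟨h.1, h.2⟩),
        indicator_of_mem (show z.swap ∈ Iio ρ ×ˢ Iio ρ from ⟨h.2, h.1⟩)]
    · rw [indicator_of_notMem (show z ∉ Iio ρ ×ˢ Iio ρ from fun hz => h ⟨hz.1, hz.2⟩),
        indicator_of_notMem (show z.swap ∉ Iio ρ ×ˢ Iio ρ from fun hz => h ⟨hz.2, hz.1⟩)]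
  rw [h1]
  exact integral_prod_swap ((Iio ρ ×ˢ Iio ρ).indicator f)

theorem SFL_MMb_le {b : ℝ → ℝ} (hb : Bd b) (r : ℝ) : MMb b r ≤ ms b := by
  unfold MMb ms
  have h1 := th_mem r
  have h2 : (∫ x in (0:ℝ)..(th r), b x) + ∫ x in (th r)..π, b x = ∫ x in (0:ℝ)..π, b x :=
    intervalIntegral.integral_add_adjacent_intervals (hb.c.intervalIntegrable _ _)
      (hb.c.intervalIntegrable _ _)
  have h3 : 0 ≤ ∫ x in (th r)..π, b x :=
    intervalIntegral.integral_nonneg h1.2.le fun x hx => hb.nn x ⟨h1.1.le.trans hx.1, hx.2⟩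
  linarith

theorem SFL_phi {a b : ℝ → ℝ} (ha : Bd a) (hb : Bd b) (ρ : ℝ) {K κ : ℝ} (hκ : 0 < κ)
    (hA : NA_E K κ (Am (3 / 2) a)) (hB : NA_E K κ (Am (3 / 2) b)) :
    ∫ z in Iio ρ ×ˢ Iio ρ, ff (z.1 - z.2) * (Am (3 / 2) a z.1 * Am (3 / 2) b z.1) ≤
      9 * ms b * TT a (ρ - 4) := by
  have hI := (SFL_diag hκ hA hB).1
  have h1 : ∫ z in Iio ρ ×ˢ Iio ρ, ff (z.1 - z.2) * (Am (3 / 2) a z.1 * Am (3 / 2) b z.1) =
      ∫ r in Iio ρ, (∫ s in Iio ρ, ff (r - s)) * (Am (3 / 2) a r * Am (3 / 2) b r) := by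
    rw [Measure.volume_eq_prod, setIntegral_prod _ (by
      rw [← Measure.volume_eq_prod]
      exact hI.integrableOn)]
    refine setIntegral_congr_fun measurableSet_Iio fun r _ => ?_
    simp only
    rw [integral_mul_const]
  rw [h1]
  have hi1 : IntegrableOn (fun r => (∫ s in Iio ρ, ff (r - s)) *
      (Am (3 / 2) a r * Am (3 / 2) b r)) (Iio ρ) := by
    have h2 : Integrable (fun z : ℝ × ℝ => ff (z.1 - z.2) * (Am (3 / 2) a z.1 * Am (3 / 2) b z.1))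
        ((volume.restrict (Iio ρ)).prod (volume.restrict (Iio ρ))) := by
      rw [Measure.prod_restrict, ← Measure.volume_eq_prod]
      exact hI.integrableOn
    refine h2.integral_prod_left.congr (Eventually.of_forall fun r => ?_)
    simp only
    rw [integral_mul_const]
  have hi2 : IntegrableOn (fun r => Am (3 / 2) a r * Real.exp (-(3 / 2 * r))) (Ioi (ρ - 4)) := by
    have h3 : Integrable (fun r => K * Real.exp (-(κ * |r|)) * Real.exp (-(3 / 2 * (ρ - 4)))) :=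
      ((NA_int_exp hκ).const_mul K).mul_const _
    refine h3.integrableOn.mono' ?_ ?_
    · refine ((hA.1.mul ?_).aestronglyMeasurable).restrict
      fun_prop
    · refine (ae_restrict_mem measurableSet_Ioi).mono fun r hr => ?_
      rw [norm_mul, Real.norm_eq_abs, Real.norm_eq_abs, abs_of_pos (Real.exp_pos _)]
      refine mul_le_mul (hA.2 r) ?_ (Real.exp_pos _).le
        (mul_nonneg (NA_E_nonneg hA) (Real.exp_pos _).le)
      apply Real.exp_le_exp.2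
      have hr' : ρ - 4 < r := hr
      linarith
  have hm : 0 ≤ ms b := (NF_MMb_nonneg hb 0).trans (SFL_MMb_le hb 0)
  obtain ⟨h, hh⟩ : ∃ h : ℝ → ℝ, h = (Ioi (ρ - 4)).indicator
      (fun r => 9 * ms b * (Am (3 / 2) a r * Real.exp (-(3 / 2 * r)))) := ⟨_, rfl⟩
  have hhi : Integrable h := by
    rw [hh]
    exact (integrable_indicator_iff measurableSet_Ioi).2 (hi2.const_mul (9 * ms b))
  have hh0 : ∀ r, 0 ≤ h r := by
    intro r
    rw [hh]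
    refine indicator_nonneg (fun r _ => ?_) r
    have := Am_nonneg ha (3 / 2) r
    have := Real.exp_pos (-(3 / 2 * r))
    positivity
  have hv : ∫ r, h r = 9 * ms b * TT a (ρ - 4) := by
    rw [hh, integral_indicator measurableSet_Ioi, integral_const_mul]
    rfl
  rw [← hv]
  refine le_trans ?_ (setIntegral_le_integral hhi (Eventually.of_forall hh0) (s := Iio ρ))
  refine setIntegral_mono_on hi1 hhi.integrableOn measurableSet_Iio fun r hr => ?_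
  have pA := Am_nonneg ha (3 / 2) r
  have pB := Am_nonneg hb (3 / 2) r
  have pAB := mul_nonneg pA pB
  rcases le_or_gt r (ρ - 4) with h4 | h4
  · rw [hh, indicator_of_notMem (show r ∉ Ioi (ρ - 4) from not_lt.2 h4)]
    exact mul_nonpos_of_nonpos_of_nonneg (phi_nonpos h4) pAB
  · rw [hh, indicator_of_mem (show r ∈ Ioi (ρ - 4) from h4)]
    have h5 : (∫ s in Iio ρ, ff (r - s)) ≤ 9 := (le_abs_self _).trans (phi_le r ρ)
    have h6 : Am (3 / 2) b r ≤ Real.exp (-(3 / 2 * r)) * ms b :=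
      mul_le_mul_of_nonneg_left (SFL_MMb_le hb r) (Real.exp_pos _).le
    calc (∫ s in Iio ρ, ff (r - s)) * (Am (3 / 2) a r * Am (3 / 2) b r)
        ≤ 9 * (Am (3 / 2) a r * Am (3 / 2) b r) := mul_le_mul_of_nonneg_right h5 pAB
      _ ≤ 9 * (Am (3 / 2) a r * (Real.exp (-(3 / 2 * r)) * ms b)) := by
          have := mul_le_mul_of_nonneg_left h6 pA
          linarith
      _ = 9 * ms b * (Am (3 / 2) a r * Real.exp (-(3 / 2 * r))) := by ring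

theorem ff_lemma {a b : ℝ → ℝ} (ha : Bd a) (hb : Bd b) (ρ : ℝ) :
    IntegrableOn (fun z : ℝ × ℝ => ff (z.1 - z.2) * (Am (3 / 2) a z.1 * Am (3 / 2) b z.2))
      (Iio ρ ×ˢ Iio ρ) ∧
    -(1 / 2 * (DI (gq ρ) a + DI (gq ρ) b)) - 18 * ms b * TT a (ρ - 4) ≤
      -2 * ∫ z in Iio ρ ×ˢ Iio ρ, ff (z.1 - z.2) * (Am (3 / 2) a z.1 * Am (3 / 2) b z.2) := by
  obtain ⟨K, κ, hκ, hA, hB⟩ := SFL_E ha hb
  have hc := SFL_cross hκ hA hB
  refine ⟨hc.integrableOn, ?_⟩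
  have hphi := SFL_phi ha hb ρ hκ hA hB
  rw [SFL_DI, SFL_DI]
  generalize Am (3 / 2) a = A at hA hc hphi ⊢
  generalize Am (3 / 2) b = B at hB hc hphi ⊢
  have hc' := SFL_cross hκ hB hA
  have hd := SFL_diag hκ hA hB
  have hp := SFL_prod hκ hA hB
  have e1 : ∫ z in Iio ρ ×ˢ Iio ρ, ff (z.1 - z.2) * (A z.2 * B z.2) =
      ∫ z in Iio ρ ×ˢ Iio ρ, ff (z.1 - z.2) * (A z.1 * B z.1) := by
    rw [← SFL_swap ρ (fun z : ℝ × ℝ => ff (z.1 - z.2) * (A z.1 * B z.1))]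
    refine setIntegral_congr_fun (SFL_meas ρ) fun z _ => ?_
    show ff (z.1 - z.2) * (A z.2 * B z.2) = ff (z.2 - z.1) * (A z.2 * B z.2)
    rw [← ff_even (z.1 - z.2)]
    congr 2
    ring
  have e2 : ∫ z in Iio ρ ×ˢ Iio ρ, ff (z.1 - z.2) * (B z.1 * A z.2) =
      ∫ z in Iio ρ ×ˢ Iio ρ, ff (z.1 - z.2) * (A z.1 * B z.2) := by
    rw [← SFL_swap ρ (fun z : ℝ × ℝ => ff (z.1 - z.2) * (A z.1 * B z.2))]
    refine setIntegral_congr_fun (SFL_meas ρ) fun z _ => ?_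
    show ff (z.1 - z.2) * (B z.1 * A z.2) = ff (z.2 - z.1) * (A z.2 * B z.1)
    rw [← ff_even (z.1 - z.2), mul_comm (B z.1)]
    congr 2
    ring
  have e3 : ∫ z in Iio ρ ×ˢ Iio ρ, ff (z.1 - z.2) * ((A z.1 - A z.2) * (B z.1 - B z.2)) =
      2 * (∫ z in Iio ρ ×ˢ Iio ρ, ff (z.1 - z.2) * (A z.1 * B z.1)) -
      2 * ∫ z in Iio ρ ×ˢ Iio ρ, ff (z.1 - z.2) * (A z.1 * B z.2) := by
    have h1 : ∫ z in Iio ρ ×ˢ Iio ρ, ff (z.1 - z.2) * ((A z.1 - A z.2) * (B z.1 - B z.2)) =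
        ∫ z in Iio ρ ×ˢ Iio ρ, (((ff (z.1 - z.2) * (A z.1 * B z.1) +
          ff (z.1 - z.2) * (A z.2 * B z.2)) - ff (z.1 - z.2) * (A z.1 * B z.2)) -
          ff (z.1 - z.2) * (B z.1 * A z.2)) := by
      refine setIntegral_congr_fun (SFL_meas ρ) fun z _ => ?_
      ring
    have i1 : IntegrableOn (fun z : ℝ × ℝ => ff (z.1 - z.2) * (A z.1 * B z.1) +
        ff (z.1 - z.2) * (A z.2 * B z.2)) (Iio ρ ×ˢ Iio ρ) :=
      hd.1.integrableOn.add hd.2.integrableOn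
    have i2 : IntegrableOn (fun z : ℝ × ℝ => (ff (z.1 - z.2) * (A z.1 * B z.1) +
        ff (z.1 - z.2) * (A z.2 * B z.2)) - ff (z.1 - z.2) * (A z.1 * B z.2))
        (Iio ρ ×ˢ Iio ρ) := i1.sub hc.integrableOn
    rw [h1, integral_sub i2 hc'.integrableOn, integral_sub i1 hc.integrableOn,
      integral_add hd.1.integrableOn hd.2.integrableOn, e1, e2]
    ring
  have hsA := SFL_sq hκ hA
  have hsB := SFL_sq hκ hB
  have e4 : -(1 / 2 * ((∫ z in Iio ρ ×ˢ Iio ρ, |ff (z.1 - z.2)| * (A z.1 - A z.2) ^ 2) +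
      ∫ z in Iio ρ ×ˢ Iio ρ, |ff (z.1 - z.2)| * (B z.1 - B z.2) ^ 2)) ≤
      ∫ z in Iio ρ ×ˢ Iio ρ, ff (z.1 - z.2) * ((A z.1 - A z.2) * (B z.1 - B z.2)) := by
    rw [← integral_add hsA.integrableOn hsB.integrableOn, ← integral_const_mul, ← integral_neg]
    refine setIntegral_mono_on ?_ hp.integrableOn (SFL_meas ρ) fun z _ => ?_
    · exact (((hsA.integrableOn.add hsB.integrableOn).const_mul (1 / 2))).neg
    · have h1 := neg_abs_le (ff (z.1 - z.2) * ((A z.1 - A z.2) * (B z.1 - B z.2)))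
      rw [abs_mul, abs_mul] at h1
      have h2 : |A z.1 - A z.2| * |B z.1 - B z.2| ≤
          1 / 2 * ((A z.1 - A z.2) ^ 2 + (B z.1 - B z.2) ^ 2) := by
        have h3 := sq_nonneg (|A z.1 - A z.2| - |B z.1 - B z.2|)
        rw [← sq_abs (A z.1 - A z.2), ← sq_abs (B z.1 - B z.2)]
        nlinarith
      have h3 := mul_le_mul_of_nonneg_left h2 (abs_nonneg (ff (z.1 - z.2)))
      linarith
  linarith

end Pool.Agent.H44.DE
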