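import Pool.Agent.H44.DE.STail
import Pool.Agent.H44.DE.SFL

/-!
# DE-S job 6: the P-N form (uses `STail.lean`, `SFL.lean`)

`R = e^ρ`, `A = Am (3/2) a`, `B = Am (3/2) b`, `c = cc (r-s)`.
(1) `9/(X+Z)³` is a double tail (`tail_eq`): `k = 9 (e^u+e^v)^{-3}`, `k1 = 27 e^u (e^u+e^v)^{-4}`,
  `k12 = 108 e^{u+v} (e^u+e^v)^{-5} = 108 e^{-3(u+v)/2}/c⁵`.
(2) `LS` on the square (`tail_sq`, `k u v = LS (e^u) (e^v)`): with `X = e^u`, `V = e^v`,
  `k1 = 3 L0 X V - 1/(X (X+V)²) + 1/(V (X+V)²)`, `k12 = 1/(X V (X+V)) + 4/(X+V)³`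
  `= e^{-3(u+v)/2} (1/c + 4/c³)`  (`∂_X L0 = -3 L0/X + 1/(X²(X+M)²)`, `∂_M L0 = -1/(X M (X+M)²)`).
  `k1 ≥ 0` as `L0 X V ≥ 1/(2 X (X+V)²)` (`log (1+t) - t/(1+t) ≥ t²/(2 (1+t)²)`); `k ≥ 0`; decreasing in `v`
  by the symmetry of `LS`.
(3) So `tf a b (kpn R) ≥ ∬_sq (31/16)(1/c + 4/c³) A B' - ∬ 108/c⁵ A B'`
  `≥ -2 ∬_sq ff A B' - ∬_{not sq} 108/c⁵ A B'`  (`(31/16)(1/c+4/c³) - 108/c⁵ = -2 ff + (11/80)/c`, `A, B ≥ 0`).
(4) Outside the square: `u > ρ`: `MMb b v ≤ ms b`, `∫_v 108 e^{u+v}(e^u+e^v)^{-5} dv = 27 e^{-3u}`: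
  `≤ 27 ms b TT a ρ`.  `u < ρ < v`: `MMb a u ≤ MMb a ρ`, `MMb b v ≤ ms b`,
  `∫_{u<ρ} ∫_{v>ρ} 108 e^{u+v}(..)^{-5} ≤ 9 e^{-3ρ}`, and `TT a ρ ≥ MMb a ρ e^{-3ρ}/3`: `≤ 27 ms b TT a ρ`.
  Together `≤ 54 ms b TT a ρ ≤ 54 ms b TT a (ρ-4)`; with `ff_lemma`: `54 + 18 ≤ 80`.
-/

set_option autoImplicit false
open Real Set MeasureTheory Filter Topology

namespace Pool.Agent.H44.DE
open Pool.Agent.H45.FL Pool.Agent.H51.DG Pool.Agent.H45.DY Pool.Agent.H90.DC Pool.Agent.H90.DE

noncomputable def SPN_a (u v : ℝ) : ℝ := 9 / (Real.exp u + Real.exp v) ^ 3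

noncomputable def SPN_a1 (u v : ℝ) : ℝ := 27 * Real.exp u / (Real.exp u + Real.exp v) ^ 4

noncomputable def SPN_a2 (u v : ℝ) : ℝ :=
  108 * (Real.exp u * Real.exp v) / (Real.exp u + Real.exp v) ^ 5

noncomputable def SPN_l (u v : ℝ) : ℝ := LS (Real.exp u) (Real.exp v)

noncomputable def SPN_l1 (u v : ℝ) : ℝ :=
  3 * L0 (Real.exp u) (Real.exp v) - 1 / (Real.exp u * (Real.exp u + Real.exp v) ^ 2) +
    1 / (Real.exp v * (Real.exp u + Real.exp v) ^ 2)

noncomputable def SPN_l2 (u v : ℝ) : ℝ :=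
  1 / (Real.exp u * Real.exp v * (Real.exp u + Real.exp v)) + 4 / (Real.exp u + Real.exp v) ^ 3

theorem SPN_a_d1 (u v : ℝ) : HasDerivAt (fun u => SPN_a u v) (-(SPN_a1 u v)) u := by
  have hX := Real.exp_pos u
  have hV := Real.exp_pos v
  have h1 : HasDerivAt (fun u => (Real.exp u + Real.exp v) ^ 3)
      (3 * (Real.exp u + Real.exp v) ^ 2 * Real.exp u) u := by
    refine HasDerivAt.congr_deriv (f := fun u => (Real.exp u + Real.exp v) ^ 3)
      (((Real.hasDerivAt_exp u).add_const (Real.exp v)).pow 3) ?_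
    norm_num
  have h2 : HasDerivAt (fun u => 9 / (Real.exp u + Real.exp v) ^ 3) _ u :=
    (hasDerivAt_const u (9:ℝ)).div h1 (by positivity)
  refine h2.congr_deriv ?_
  unfold SPN_a1
  field_simp
  ring

theorem SPN_a_d2 (u v : ℝ) : HasDerivAt (fun v => SPN_a1 u v) (-(SPN_a2 u v)) v := by
  have hX := Real.exp_pos u
  have hV := Real.exp_pos v
  have h1 : HasDerivAt (fun v => (Real.exp u + Real.exp v) ^ 4)
      (4 * (Real.exp u + Real.exp v) ^ 3 * Real.exp v) v := by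
    refine HasDerivAt.congr_deriv (f := fun v => (Real.exp u + Real.exp v) ^ 4)
      (((Real.hasDerivAt_exp v).const_add (Real.exp u)).pow 4) ?_
    norm_num
  have h2 : HasDerivAt (fun v => 27 * Real.exp u / (Real.exp u + Real.exp v) ^ 4) _ v :=
    (hasDerivAt_const v (27 * Real.exp u)).div h1 (by positivity)
  refine h2.congr_deriv ?_
  unfold SPN_a2
  field_simp
  ring

theorem SPN_a2_nn (u v : ℝ) : 0 ≤ SPN_a2 u v := by
  unfold SPN_a2
  positivity

theorem SPN_a1_nn (u v : ℝ) : 0 ≤ SPN_a1 u v := by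
  unfold SPN_a1
  positivity

theorem SPN_a2_cont : Continuous fun z : ℝ × ℝ => SPN_a2 z.1 z.2 := by
  unfold SPN_a2
  refine Continuous.div (by fun_prop) (by fun_prop) fun z => ?_
  positivity

theorem SPN_a_lim (v : ℝ) : Tendsto (fun u => SPN_a u v) atTop (𝓝 0) := by
  unfold SPN_a
  refine Tendsto.const_div_atTop ?_ 9
  exact (tendsto_pow_atTop (by norm_num)).comp
    (tendsto_atTop_add_const_right _ _ Real.tendsto_exp_atTop)

theorem SPN_a1_lim (u : ℝ) : Tendsto (fun v => SPN_a1 u v) atTop (𝓝 0) := by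
  unfold SPN_a1
  refine Tendsto.const_div_atTop ?_ _
  exact (tendsto_pow_atTop (by norm_num)).comp
    (tendsto_atTop_add_const_left _ _ Real.tendsto_exp_atTop)

theorem SPN_L0_1 {X M : ℝ} (hX : 0 < X) (hM : 0 < M) :
    HasDerivAt (fun X => L0 X M) (-3 * L0 X M / X + 1 / (X ^ 2 * (X + M) ^ 2)) X := by
  have h1 : HasDerivAt (fun X => 1 + X / M) (1 / M) X := by
    simpa using ((hasDerivAt_id X).div_const M).const_add 1
  have h2 := h1.log (by positivity)
  have h3 : HasDerivAt (fun X => X / (X + M)) ((1 * (X + M) - X * 1) / (X + M) ^ 2) X :=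
    (hasDerivAt_id X).div ((hasDerivAt_id X).add_const M) (by positivity)
  have h4 : HasDerivAt (fun X : ℝ => X ^ 3) (3 * X ^ 2) X := by
    simpa using hasDerivAt_pow 3 X
  have h5 : HasDerivAt (fun X => (Real.log (1 + X / M) - X / (X + M)) / X ^ 3) _ X :=
    (h2.sub h3).div h4 (by positivity)
  refine h5.congr_deriv ?_
  unfold L0
  simp only [Pi.sub_apply]
  generalize Real.log (1 + X / M) = q
  field_simp
  ring

theorem SPN_L0_2 {X M : ℝ} (hX : 0 < X) (hM : 0 < M) :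
    HasDerivAt (fun M => L0 X M) (-(1 / (X * M * (X + M) ^ 2))) M := by
  have h1 : HasDerivAt (fun M => 1 + X / M) (-X / M ^ 2) M := by
    have := ((hasDerivAt_const M X).div (hasDerivAt_id M) hM.ne').const_add 1
    refine this.congr_deriv ?_
    simp
  have h2 := h1.log (by positivity)
  have h3 : HasDerivAt (fun M => X / (X + M)) ((0 * (X + M) - X * 1) / (X + M) ^ 2) M :=
    (hasDerivAt_const M X).div ((hasDerivAt_id M).const_add X) (by positivity)
  have h5 : HasDerivAt (fun M => (Real.log (1 + X / M) - X / (X + M)) / X ^ 3) _ M :=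
    (h2.sub h3).div_const (X ^ 3)
  refine h5.congr_deriv ?_
  field_simp
  ring

theorem SPN_L0_lb {X M : ℝ} (hX : 0 < X) (hM : 0 < M) :
    1 / (X * (2 * M + X) * (M + X)) ≤ L0 X M := by
  have h1 := Real.le_log_one_add_of_nonneg (show 0 ≤ X / M by positivity)
  have e : 2 * (X / M) / (X / M + 2) = 2 * X / (X + 2 * M) := by field_simp
  rw [e] at h1
  have key : 1 / (X * (2 * M + X) * (M + X)) = (2 * X / (X + 2 * M) - X / (X + M)) / X ^ 3 := by
    field_simp
    ring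
  rw [key]
  unfold L0
  exact div_le_div_of_nonneg_right (by linarith) (by positivity)

theorem SPN_l_d1 (u v : ℝ) : HasDerivAt (fun u => SPN_l u v) (-(SPN_l1 u v)) u := by
  have hX := Real.exp_pos u
  have hV := Real.exp_pos v
  have h1 : HasDerivAt (fun u => L0 (Real.exp u) (Real.exp v)) _ u :=
    (SPN_L0_1 hX hV).comp u (Real.hasDerivAt_exp u)
  have h2 : HasDerivAt (fun u => L0 (Real.exp v) (Real.exp u)) _ u :=
    (SPN_L0_2 hV hX).comp u (Real.hasDerivAt_exp u)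
  have h3 : HasDerivAt (fun u => L0 (Real.exp u) (Real.exp v) + L0 (Real.exp v) (Real.exp u)) _ u :=
    h1.add h2
  refine h3.congr_deriv ?_
  unfold SPN_l1
  generalize L0 (Real.exp u) (Real.exp v) = q
  field_simp
  ring

theorem SPN_l_d2 (u v : ℝ) : HasDerivAt (fun v => SPN_l1 u v) (-(SPN_l2 u v)) v := by
  have hX := Real.exp_pos u
  have hV := Real.exp_pos v
  have h1 : HasDerivAt (fun v => L0 (Real.exp u) (Real.exp v)) _ v :=
    (SPN_L0_2 hX hV).comp v (Real.hasDerivAt_exp v)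
  have hs : HasDerivAt (fun v => (Real.exp u + Real.exp v) ^ 2)
      (2 * (Real.exp u + Real.exp v) * Real.exp v) v := by
    refine HasDerivAt.congr_deriv (f := fun v => (Real.exp u + Real.exp v) ^ 2)
      (((Real.hasDerivAt_exp v).const_add (Real.exp u)).pow 2) ?_
    norm_num
  have h2 : HasDerivAt (fun v => 1 / (Real.exp u * (Real.exp u + Real.exp v) ^ 2)) _ v :=
    (hasDerivAt_const v (1:ℝ)).div (hs.const_mul (Real.exp u)) (by positivity)
  have h3 : HasDerivAt (fun v => 1 / (Real.exp v * (Real.exp u + Real.exp v) ^ 2)) _ v :=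
    (hasDerivAt_const v (1:ℝ)).div ((Real.hasDerivAt_exp v).mul hs) (by positivity)
  have h4 : HasDerivAt (fun v => 3 * L0 (Real.exp u) (Real.exp v) -
      1 / (Real.exp u * (Real.exp u + Real.exp v) ^ 2) +
      1 / (Real.exp v * (Real.exp u + Real.exp v) ^ 2)) _ v :=
    ((h1.const_mul 3).sub h2).add h3
  refine h4.congr_deriv ?_
  unfold SPN_l2
  field_simp
  ring

theorem SPN_l2_nn (u v : ℝ) : 0 ≤ SPN_l2 u v := by
  unfold SPN_l2
  positivity

theorem SPN_l_nn (u v : ℝ) : 0 ≤ SPN_l u v := by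
  have hX := Real.exp_pos u
  have hV := Real.exp_pos v
  have h1 := SPN_L0_lb hX hV
  have h2 := SPN_L0_lb hV hX
  have h3 : 0 ≤ 1 / (Real.exp u * (2 * Real.exp v + Real.exp u) * (Real.exp v + Real.exp u)) := by
    positivity
  have h4 : 0 ≤ 1 / (Real.exp v * (2 * Real.exp u + Real.exp v) * (Real.exp u + Real.exp v)) := by
    positivity
  unfold SPN_l LS
  linarith

theorem SPN_l1_nn (u v : ℝ) : 0 ≤ SPN_l1 u v := by
  have hX := Real.exp_pos u
  have hV := Real.exp_pos v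
  have h1 := SPN_L0_lb hX hV
  have h3 : 0 ≤ 1 / (Real.exp v * (Real.exp u + Real.exp v) ^ 2) := by positivity
  have h2 : 1 / (Real.exp u * (Real.exp u + Real.exp v) ^ 2) ≤
      3 * (1 / (Real.exp u * (2 * Real.exp v + Real.exp u) * (Real.exp v + Real.exp u))) := by
    generalize Real.exp u = X at hX
    generalize Real.exp v = V at hV
    rw [mul_one_div, div_le_div_iff₀ (by positivity) (by positivity)]
    nlinarith [mul_pos hX hV, mul_pos (mul_pos hX hV) hV, mul_pos (mul_pos hX hX) hV,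
      mul_pos (mul_pos hX hX) hX]
  unfold SPN_l1
  linarith

theorem SPN_l_symm (u v : ℝ) : SPN_l u v = SPN_l v u := by
  unfold SPN_l LS
  ring

theorem SPN_l_anti (u v v' : ℝ) (h : v ≤ v') : SPN_l u v' ≤ SPN_l u v := by
  have h1 : Antitone (fun v => SPN_l v u) :=
    antitone_of_hasDerivAt_nonpos (fun v => SPN_l_d1 v u) fun v => by
      have := SPN_l1_nn v u
      simpa using this
  have h2 := h1 h
  simp only at h2
  rw [SPN_l_symm u v, SPN_l_symm u v']
  exact h2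

theorem SPN_l_cont : Continuous fun z : ℝ × ℝ => SPN_l z.1 z.2 := by
  have h0 : ∀ f g : ℝ × ℝ → ℝ, Continuous f → Continuous g → (∀ z, 0 < f z) → (∀ z, 0 < g z) →
      Continuous fun z => L0 (f z) (g z) := by
    intro f g hf hg pf pg
    unfold L0
    have c1 : Continuous fun z => f z / g z := hf.div hg fun z => (pg z).ne'
    have c2 : Continuous fun z => f z / (f z + g z) :=
      hf.div (hf.add hg) fun z => (add_pos (pf z) (pg z)).ne'
    have c3 : Continuous fun z => Real.log (1 + f z / g z) :=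
      (continuous_const.add c1).log fun z => (add_pos one_pos (div_pos (pf z) (pg z))).ne'
    exact (c3.sub c2).div (hf.pow 3) fun z => (pow_pos (pf z) 3).ne'
  unfold SPN_l LS
  have e1 : Continuous fun z : ℝ × ℝ => Real.exp z.1 := by fun_prop
  have e2 : Continuous fun z : ℝ × ℝ => Real.exp z.2 := by fun_prop
  exact (h0 _ _ e1 e2 (fun z => Real.exp_pos _) fun z => Real.exp_pos _).add
    (h0 _ _ e2 e1 (fun z => Real.exp_pos _) fun z => Real.exp_pos _)

theorem SPN_l2_cont : Continuous fun z : ℝ × ℝ => SPN_l2 z.1 z.2 := by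
  unfold SPN_l2
  refine Continuous.add ?_ ?_
  · refine Continuous.div (by fun_prop) (by fun_prop) fun z => ?_
    positivity
  · refine Continuous.div (by fun_prop) (by fun_prop) fun z => ?_
    positivity

/-- the kernels in the `cc` form -/
theorem SPN_ker (u v : ℝ) : SPN_a2 u v = 108 / cc (u - v) ^ 5 *
      (Real.exp (-(3 / 2 * u)) * Real.exp (-(3 / 2 * v))) ∧
    SPN_l2 u v = (1 / cc (u - v) + 4 / cc (u - v) ^ 3) *
      (Real.exp (-(3 / 2 * u)) * Real.exp (-(3 / 2 * v))) := by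
  have h1 := Real.exp_pos (u / 2)
  have h2 := Real.exp_pos (v / 2)
  have e1 : Real.exp (-(3 / 2 * u)) = 1 / Real.exp (u / 2) ^ 3 := by
    rw [one_div, ← Real.exp_nat_mul, ← Real.exp_neg]
    congr 1
    push_cast
    ring
  have e2 : Real.exp (-(3 / 2 * v)) = 1 / Real.exp (v / 2) ^ 3 := by
    rw [one_div, ← Real.exp_nat_mul, ← Real.exp_neg]
    congr 1
    push_cast
    ring
  unfold SPN_a2 SPN_l2
  rw [SEP_cc, e1, e2, SEP_exp u, SEP_exp v]
  generalize Real.exp (u / 2) = x at h1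
  generalize Real.exp (v / 2) = y at h2
  constructor
  · field_simp
  · field_simp

theorem SPN_MMb_mono {b : ℝ → ℝ} (hb : Bd b) : Monotone (MMb b) :=
  monotone_of_hasDerivAt_nonneg (fun r => NF_hasDerivAt_MMb hb r) fun r => by
    have h1 := th_mem r
    exact mul_nonneg (hb.nn _ ⟨h1.1.le, h1.2.le⟩) (NF_thd_pos r).le

theorem SPN_MMb_le {b : ℝ → ℝ} (hb : Bd b) (r : ℝ) : MMb b r ≤ ms b := by
  have h1 := th_mem r
  unfold MMb ms
  refine intervalIntegral.integral_mono_interval le_rfl h1.1.le h1.2.le ?_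
    (hb.c.intervalIntegrable _ _)
  refine (ae_restrict_iff' measurableSet_Ioc).2 (Eventually.of_forall fun x hx => ?_)
  exact hb.nn x ⟨hx.1.le, hx.2⟩

theorem SPN_ms_nn {b : ℝ → ℝ} (hb : Bd b) : 0 ≤ ms b := (NF_MMb_nonneg hb 0).trans (SPN_MMb_le hb 0)

theorem SPN_Am {a : ℝ → ℝ} (r : ℝ) :
    Am (3 / 2) a r * Real.exp (-(3 / 2 * r)) = MMb a r * Real.exp (-3 * r) := by
  unfold Am
  have : Real.exp (-3 * r) = Real.exp (-(3 / 2 * r)) * Real.exp (-(3 / 2 * r)) := by
    rw [← Real.exp_add]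
    congr 1
    ring
  rw [this]
  ring

theorem SPN_TT_int {a : ℝ → ℝ} (ha : Bd a) (ρ : ℝ) :
    IntegrableOn (fun r => Am (3 / 2) a r * Real.exp (-(3 / 2 * r))) (Ioi ρ) := by
  have h1 : IntegrableOn (fun r => ms a * Real.exp (-3 * r)) (Ioi ρ) :=
    (integrableOn_exp_mul_Ioi (by norm_num) ρ).const_mul _
  refine Integrable.mono' h1 ?_ ?_
  · have hc : Continuous fun r => Am (3 / 2) a r * Real.exp (-(3 / 2 * r)) := by
      have : Continuous (MMb a) := NF_cont_MMb ha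
      unfold Am
      fun_prop
    exact hc.aestronglyMeasurable
  · refine Eventually.of_forall fun r => ?_
    rw [SPN_Am, Real.norm_of_nonneg (mul_nonneg (NF_MMb_nonneg ha r) (Real.exp_pos _).le)]
    exact mul_le_mul_of_nonneg_right (SPN_MMb_le ha r) (Real.exp_pos _).le

theorem SPN_TT_mono {a : ℝ → ℝ} (ha : Bd a) {ρ σ : ℝ} (h : σ ≤ ρ) : TT a ρ ≤ TT a σ := by
  unfold TT
  refine setIntegral_mono_set (SPN_TT_int ha σ) ?_ (Eventually.of_forall fun x hx => ?_)
  · exact Eventually.of_forall fun r => mul_nonneg (Am_nonneg ha _ r) (Real.exp_pos _).le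
  · exact lt_of_le_of_lt h hx

theorem SPN_TT_lb {a : ℝ → ℝ} (ha : Bd a) (ρ : ℝ) :
    MMb a ρ * Real.exp (-3 * ρ) ≤ 3 * TT a ρ := by
  have h1 : ∫ r in Ioi ρ, Real.exp (-3 * r) = Real.exp (-3 * ρ) / 3 := by
    rw [integral_exp_mul_Ioi (by norm_num) ρ]
    ring
  have h2 : ∫ r in Ioi ρ, MMb a ρ * Real.exp (-3 * r) ≤ TT a ρ := by
    unfold TT
    refine setIntegral_mono_on ((integrableOn_exp_mul_Ioi (by norm_num) ρ).const_mul _)
      (SPN_TT_int ha ρ) measurableSet_Ioi fun r hr => ?_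
    rw [SPN_Am]
    exact mul_le_mul_of_nonneg_right (SPN_MMb_mono ha (le_of_lt hr)) (Real.exp_pos _).le
  rw [integral_const_mul, h1] at h2
  linarith

/-- the row integral of the first kernel -/
theorem SPN_row (u : ℝ) : (Integrable fun v => SPN_a2 u v) ∧
    ∫ v, SPN_a2 u v = 27 * Real.exp (-3 * u) := by
  have hX := Real.exp_pos u
  have hd : ∀ v, HasDerivAt (fun v => -SPN_a1 u v) (SPN_a2 u v) v := fun v => by
    have := (SPN_a_d2 u v).neg
    rw [neg_neg] at this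
    exact this
  have ht : Tendsto (fun v => -SPN_a1 u v) atTop (𝓝 0) := by
    simpa using (SPN_a1_lim u).neg
  have hb : Tendsto (fun v => -SPN_a1 u v) atBot (𝓝 (-(27 * Real.exp (-3 * u)))) := by
    have h1 : Tendsto (fun v => Real.exp u + Real.exp v) atBot (𝓝 (Real.exp u + 0)) :=
      tendsto_const_nhds.add Real.tendsto_exp_atBot
    have h2 : Tendsto (fun v => SPN_a1 u v) atBot
        (𝓝 (27 * Real.exp u / (Real.exp u + 0) ^ 4)) := by
      unfold SPN_a1
      exact tendsto_const_nhds.div (h1.pow 4) (by positivity)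
    have h3 : 27 * Real.exp u / (Real.exp u + 0) ^ 4 = 27 * Real.exp (-3 * u) := by
      have e : Real.exp (-3 * u) = 1 / Real.exp u ^ 3 := by
        rw [one_div, ← Real.exp_nat_mul, ← Real.exp_neg]
        congr 1
        push_cast
        ring
      rw [e, add_zero]
      field_simp
    rw [← h3]
    exact h2.neg
  have i1 : IntegrableOn (fun v => SPN_a2 u v) (Ioi 0) :=
    integrableOn_Ioi_deriv_of_nonneg' (fun v _ => hd v) (fun v _ => SPN_a2_nn u v) ht
  have hc : Continuous fun v => SPN_a2 u v := SPN_a2_cont.comp (by fun_prop : Continuous fun v => (u, v))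
  have i2 : IntegrableOn (fun v => SPN_a2 u v) (Iic 0) := by
    have h1 : IntegrableOn (fun v => 108 * Real.exp u / Real.exp u ^ 5 * Real.exp v) (Iic 0) :=
      (integrableOn_exp_Iic 0).const_mul _
    refine Integrable.mono' h1 hc.aestronglyMeasurable (Eventually.of_forall fun v => ?_)
    have hV := Real.exp_pos v
    rw [Real.norm_of_nonneg (SPN_a2_nn u v)]
    unfold SPN_a2
    have h2 : Real.exp u ^ 5 ≤ (Real.exp u + Real.exp v) ^ 5 :=
      pow_le_pow_left₀ hX.le (by linarith) 5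
    calc 108 * (Real.exp u * Real.exp v) / (Real.exp u + Real.exp v) ^ 5 ≤
        108 * (Real.exp u * Real.exp v) / Real.exp u ^ 5 :=
          div_le_div_of_nonneg_left (by positivity) (by positivity) h2
      _ = 108 * Real.exp u / Real.exp u ^ 5 * Real.exp v := by ring
  have i3 : Integrable fun v => SPN_a2 u v := by
    rw [← integrableOn_univ, ← Iic_union_Ioi (a := (0:ℝ))]
    exact i2.union i1
  refine ⟨i3, ?_⟩
  rw [integral_of_hasDerivAt_of_tendsto hd i3 hb ht]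
  ring

/-- the first part outside the square -/
theorem SPN_out1 {a b : ℝ → ℝ} (ha : Bd a) (hb : Bd b) (ρ : ℝ)
    (hI : Integrable fun z : ℝ × ℝ => SPN_a2 z.1 z.2 * (MMb a z.1 * MMb b z.2)) :
    ∫ z in Ici ρ ×ˢ (univ : Set ℝ), SPN_a2 z.1 z.2 * (MMb a z.1 * MMb b z.2) ≤
      27 * ms b * TT a ρ := by
  have h1 : ∫ z in Ici ρ ×ˢ (univ : Set ℝ), SPN_a2 z.1 z.2 * (MMb a z.1 * MMb b z.2) =
      ∫ u in Ici ρ, ∫ v in univ, SPN_a2 u v * (MMb a u * MMb b v) :=
    setIntegral_prod _ hI.integrableOn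
  rw [h1]
  have hTT : IntegrableOn (fun r => 27 * ms b * (Am (3 / 2) a r * Real.exp (-(3 / 2 * r)))) (Ici ρ) := by
    rw [integrableOn_Ici_iff_integrableOn_Ioi]
    exact (SPN_TT_int ha ρ).const_mul _
  have h2 : 27 * ms b * TT a ρ =
      ∫ r in Ici ρ, 27 * ms b * (Am (3 / 2) a r * Real.exp (-(3 / 2 * r))) := by
    rw [integral_const_mul, integral_Ici_eq_integral_Ioi]
    rfl
  rw [h2]
  refine integral_mono_of_nonneg ?_ hTT ?_
  · refine Eventually.of_forall fun u => integral_nonneg fun v => ?_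
    exact mul_nonneg (SPN_a2_nn u v) (mul_nonneg (NF_MMb_nonneg ha u) (NF_MMb_nonneg hb v))
  · refine Eventually.of_forall fun u => ?_
    simp only
    rw [SPN_Am, Measure.restrict_univ]
    obtain ⟨r1, r2⟩ := SPN_row u
    calc ∫ v, SPN_a2 u v * (MMb a u * MMb b v) ≤ ∫ v, SPN_a2 u v * (MMb a u * ms b) := by
          refine integral_mono_of_nonneg ?_ (r1.mul_const _) ?_
          · refine Eventually.of_forall fun v => ?_
            exact mul_nonneg (SPN_a2_nn u v) (mul_nonneg (NF_MMb_nonneg ha u) (NF_MMb_nonneg hb v))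
          · refine Eventually.of_forall fun v => ?_
            exact mul_le_mul_of_nonneg_left (mul_le_mul_of_nonneg_left (SPN_MMb_le hb v)
              (NF_MMb_nonneg ha u)) (SPN_a2_nn u v)
      _ = 27 * ms b * (MMb a u * Real.exp (-3 * u)) := by
          rw [integral_mul_const, r2]
          ring

/-- the second part outside the square -/
theorem SPN_out2 {a b : ℝ → ℝ} (ha : Bd a) (hb : Bd b) (ρ : ℝ)
    (hI : Integrable fun z : ℝ × ℝ => SPN_a2 z.1 z.2 * (MMb a z.1 * MMb b z.2)) :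
    ∫ z in Iio ρ ×ˢ Ici ρ, SPN_a2 z.1 z.2 * (MMb a z.1 * MMb b z.2) ≤
      27 * ms b * TT a ρ := by
  have hR := Real.exp_pos ρ
  have h1 : ∫ z in Iio ρ ×ˢ Ici ρ, SPN_a2 z.1 z.2 * (MMb a z.1 * MMb b z.2) =
      ∫ u in Iio ρ, ∫ v in Ici ρ, SPN_a2 u v * (MMb a u * MMb b v) :=
    setIntegral_prod _ hI.integrableOn
  rw [h1]
  have hA : IntegrableOn (fun u => SPN_a1 u ρ) (Iic ρ) := by
    have h2 : IntegrableOn (fun u => 27 / Real.exp ρ ^ 4 * Real.exp u) (Iic ρ) :=
      (integrableOn_exp_Iic ρ).const_mul _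
    have hc : Continuous fun u => SPN_a1 u ρ := by
      unfold SPN_a1
      refine Continuous.div (by fun_prop) (by fun_prop) fun z => ?_
      positivity
    refine Integrable.mono' h2 hc.aestronglyMeasurable (Eventually.of_forall fun u => ?_)
    have hX := Real.exp_pos u
    rw [Real.norm_of_nonneg (SPN_a1_nn u ρ)]
    unfold SPN_a1
    have h3 : Real.exp ρ ^ 4 ≤ (Real.exp u + Real.exp ρ) ^ 4 :=
      pow_le_pow_left₀ hR.le (by linarith) 4
    calc 27 * Real.exp u / (Real.exp u + Real.exp ρ) ^ 4 ≤ 27 * Real.exp u / Real.exp ρ ^ 4 :=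
          div_le_div_of_nonneg_left (by positivity) (by positivity) h3
      _ = 27 / Real.exp ρ ^ 4 * Real.exp u := by ring
  have hAv : ∫ u in Iic ρ, SPN_a1 u ρ ≤ 9 * Real.exp (-3 * ρ) := by
    have hd : ∀ u ∈ Iic ρ, HasDerivAt (fun u => -SPN_a u ρ) (SPN_a1 u ρ) u := fun u _ => by
      have := (SPN_a_d1 u ρ).neg
      rw [neg_neg] at this
      exact this
    have hb : Tendsto (fun u => -SPN_a u ρ) atBot (𝓝 (-(9 * Real.exp (-3 * ρ)))) := by
      have h1 : Tendsto (fun u => Real.exp u + Real.exp ρ) atBot (𝓝 (0 + Real.exp ρ)) :=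
        Real.tendsto_exp_atBot.add tendsto_const_nhds
      have h2 : Tendsto (fun u => SPN_a u ρ) atBot (𝓝 (9 / (0 + Real.exp ρ) ^ 3)) := by
        unfold SPN_a
        exact tendsto_const_nhds.div (h1.pow 3) (by positivity)
      have h3 : 9 / (0 + Real.exp ρ) ^ 3 = 9 * Real.exp (-3 * ρ) := by
        have e : Real.exp (-3 * ρ) = 1 / Real.exp ρ ^ 3 := by
          rw [one_div, ← Real.exp_nat_mul, ← Real.exp_neg]
          congr 1
          push_cast
          ring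
        rw [e, zero_add]
        ring
      rw [← h3]
      exact h2.neg
    rw [integral_Iic_of_hasDerivAt_of_tendsto' hd hA hb]
    have h4 : 0 ≤ SPN_a ρ ρ := by
      unfold SPN_a
      positivity
    linarith
  have hin : ∀ u ∈ Iio ρ, ∫ v in Ici ρ, SPN_a2 u v * (MMb a u * MMb b v) ≤
      MMb a ρ * ms b * SPN_a1 u ρ := by
    intro u hu
    obtain ⟨r1, -⟩ := SPN_row u
    have hd : ∀ v ∈ Ici ρ, HasDerivAt (fun v => -SPN_a1 u v) (SPN_a2 u v) v := fun v _ => by
      have := (SPN_a_d2 u v).neg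
      rw [neg_neg] at this
      exact this
    have ht : Tendsto (fun v => -SPN_a1 u v) atTop (𝓝 0) := by
      simpa using (SPN_a1_lim u).neg
    have hv : ∫ v in Ici ρ, SPN_a2 u v = SPN_a1 u ρ := by
      rw [integral_Ici_eq_integral_Ioi,
        integral_Ioi_of_hasDerivAt_of_tendsto' hd r1.integrableOn ht]
      ring
    calc ∫ v in Ici ρ, SPN_a2 u v * (MMb a u * MMb b v) ≤
          ∫ v in Ici ρ, SPN_a2 u v * (MMb a ρ * ms b) := by
          refine integral_mono_of_nonneg ?_ (r1.integrableOn.mul_const _) ?_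
          · refine Eventually.of_forall fun v => ?_
            exact mul_nonneg (SPN_a2_nn u v) (mul_nonneg (NF_MMb_nonneg ha u) (NF_MMb_nonneg hb v))
          · refine Eventually.of_forall fun v => ?_
            exact mul_le_mul_of_nonneg_left (mul_le_mul (SPN_MMb_mono ha (le_of_lt hu))
              (SPN_MMb_le hb v) (NF_MMb_nonneg hb v) (NF_MMb_nonneg ha ρ)) (SPN_a2_nn u v)
      _ = MMb a ρ * ms b * SPN_a1 u ρ := by
          rw [integral_mul_const, hv]
          ring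
  have hk : 0 ≤ MMb a ρ * ms b := mul_nonneg (NF_MMb_nonneg ha ρ) (SPN_ms_nn hb)
  calc ∫ u in Iio ρ, ∫ v in Ici ρ, SPN_a2 u v * (MMb a u * MMb b v) ≤
        ∫ u in Iio ρ, MMb a ρ * ms b * SPN_a1 u ρ := by
        refine integral_mono_of_nonneg ?_ ((hA.mono_set Iio_subset_Iic_self).const_mul _) ?_
        · refine Eventually.of_forall fun u => integral_nonneg fun v => ?_
          exact mul_nonneg (SPN_a2_nn u v) (mul_nonneg (NF_MMb_nonneg ha u) (NF_MMb_nonneg hb v))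
        · exact (ae_restrict_iff' measurableSet_Iio).2 (Eventually.of_forall hin)
    _ = MMb a ρ * ms b * ∫ u in Iic ρ, SPN_a1 u ρ := by
        rw [integral_const_mul, integral_Iic_eq_integral_Iio]
    _ ≤ MMb a ρ * ms b * (9 * Real.exp (-3 * ρ)) := mul_le_mul_of_nonneg_left hAv hk
    _ ≤ 27 * ms b * TT a ρ := by
        have h5 := mul_le_mul_of_nonneg_left (SPN_TT_lb ha ρ) (SPN_ms_nn hb)
        nlinarith [h5]

theorem SPN_split {F : ℝ × ℝ → ℝ} (hI : Integrable F) (ρ : ℝ) :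
    ∫ z, F z = (∫ z in Iio ρ ×ˢ Iio ρ, F z) + ((∫ z in Iio ρ ×ˢ Ici ρ, F z) +
      ∫ z in Ici ρ ×ˢ (univ : Set ℝ), F z) := by
  have e : (univ : Set (ℝ × ℝ)) =
      (Iio ρ ×ˢ Iio ρ) ∪ ((Iio ρ ×ˢ Ici ρ) ∪ (Ici ρ ×ˢ (univ : Set ℝ))) := by
    ext ⟨x, y⟩
    simp only [mem_univ, mem_union, mem_prod, mem_Iio, mem_Ici, and_true, true_iff]
    rcases lt_or_ge x ρ with h | h
    · rcases lt_or_ge y ρ with h' | h'
      · exact Or.inl ⟨h, h'⟩
      · exact Or.inr (Or.inl ⟨h, h'⟩)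
    · exact Or.inr (Or.inr h)
  rw [← setIntegral_univ, e, setIntegral_union, setIntegral_union]
  · rw [Set.disjoint_left]
    rintro ⟨x, y⟩ ⟨h1, h2⟩ ⟨h3, h4⟩
    exact absurd (mem_Ici.1 h3) (not_le.2 (mem_Iio.1 h1))
  · exact measurableSet_Ici.prod MeasurableSet.univ
  · exact hI.integrableOn
  · exact hI.integrableOn
  · rw [Set.disjoint_left]
    rintro ⟨x, y⟩ ⟨h1, h2⟩ h
    rcases h with ⟨h3, h4⟩ | ⟨h3, h4⟩
    · exact absurd (mem_Ici.1 h4) (not_le.2 (mem_Iio.1 h2))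
    · exact absurd (mem_Ici.1 h3) (not_le.2 (mem_Iio.1 h1))
  · exact (measurableSet_Iio.prod measurableSet_Ici).union (measurableSet_Ici.prod MeasurableSet.univ)
  · exact hI.integrableOn
  · exact hI.integrableOn

theorem PN_form {a b : ℝ → ℝ} (ha : Bd a) (hb : Bd b) (ρ : ℝ) :
    TI a b (kpn (Real.exp ρ)) ∧
    -(1 / 2 * (DI (gq ρ) a + DI (gq ρ) b)) - 80 * ms b * TT a (ρ - 4) ≤
      tf a b (kpn (Real.exp ρ)) := by
  obtain ⟨I1, I2, E1⟩ := tail_eq ha hb SPN_a_d1 SPN_a_d2 SPN_a2_nn SPN_a2_cont SPN_a_lim SPN_a1_lim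
  obtain ⟨J1, J2, J3⟩ := tail_sq ha hb ρ SPN_l_d1 SPN_l_d2 SPN_l2_nn SPN_l2_cont SPN_l_cont
    SPN_l_nn SPN_l1_nn SPN_l_anti
  have hpt : ∀ z ∈ Sq1, 31 / 16 * (a z.1 * b z.2 *
      (if Real.log (tn z.1) < ρ ∧ Real.log (tn z.2) < ρ then
        SPN_l (Real.log (tn z.1)) (Real.log (tn z.2)) else 0)) -
      a z.1 * b z.2 * SPN_a (Real.log (tn z.1)) (Real.log (tn z.2)) =
      a z.1 * b z.2 * kpn (Real.exp ρ) (tn z.1) (tn z.2) := by
    rintro ⟨x, y⟩ ⟨hx, hy⟩
    have t1 : 0 < tn x := Real.tan_pos_of_pos_of_lt_pi_div_two (by linarith [hx.1])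
      (by linarith [hx.2])
    have t2 : 0 < tn y := Real.tan_pos_of_pos_of_lt_pi_div_two (by linarith [hy.1])
      (by linarith [hy.2])
    have c1 : (tn x < Real.exp ρ) ↔ (Real.log (tn x) < ρ) := (Real.log_lt_iff_lt_exp t1).symm
    have c2 : (tn y < Real.exp ρ) ↔ (Real.log (tn y) < ρ) := (Real.log_lt_iff_lt_exp t2).symm
    simp only
    unfold kpn SPN_l SPN_a
    rw [Real.exp_log t1, Real.exp_log t2]
    simp only [c1, c2]
    split_ifs <;> ring
  have hm : MeasurableSet Sq1 := measurableSet_Ioo.prod measurableSet_Ioo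
  have hTI : TI a b (kpn (Real.exp ρ)) :=
    (integrableOn_congr_fun hpt hm).1 ((J1.const_mul (31 / 16)).sub I1)
  refine ⟨hTI, ?_⟩
  have htf : tf a b (kpn (Real.exp ρ)) = 31 / 16 * (∫ z in Sq1, a z.1 * b z.2 *
      (if Real.log (tn z.1) < ρ ∧ Real.log (tn z.2) < ρ then
        SPN_l (Real.log (tn z.1)) (Real.log (tn z.2)) else 0)) -
      ∫ z in Sq1, a z.1 * b z.2 * SPN_a (Real.log (tn z.1)) (Real.log (tn z.2)) := by
    unfold tf
    rw [← integral_const_mul, ← integral_sub (J1.const_mul (31 / 16)) I1]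
    exact (setIntegral_congr_fun hm hpt).symm
  obtain ⟨K1, K2⟩ := ff_lemma ha hb ρ
  have hsplit := SPN_split I2 ρ
  have o1 := SPN_out1 ha hb ρ I2
  have o2 := SPN_out2 ha hb ρ I2
  have hsq : -2 * (∫ z in Iio ρ ×ˢ Iio ρ, ff (z.1 - z.2) * (Am (3 / 2) a z.1 * Am (3 / 2) b z.2)) ≤
      31 / 16 * (∫ z in Iio ρ ×ˢ Iio ρ, SPN_l2 z.1 z.2 * (MMb a z.1 * MMb b z.2)) -
      ∫ z in Iio ρ ×ˢ Iio ρ, SPN_a2 z.1 z.2 * (MMb a z.1 * MMb b z.2) := by
    rw [← integral_const_mul, ← integral_const_mul,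
      ← integral_sub (J2.const_mul (31 / 16)) I2.integrableOn]
    refine setIntegral_mono_on (K1.const_mul (-2)) ((J2.const_mul (31 / 16)).sub I2.integrableOn)
      (measurableSet_Iio.prod measurableSet_Iio) ?_
    rintro ⟨u, v⟩ -
    simp only
    obtain ⟨e1, e2⟩ := SPN_ker u v
    rw [e1, e2]
    have hA : Am (3 / 2) a u = Real.exp (-(3 / 2 * u)) * MMb a u := rfl
    have hB : Am (3 / 2) b v = Real.exp (-(3 / 2 * v)) * MMb b v := rfl
    have k1 : 31 / 16 * ((1 / cc (u - v) + 4 / cc (u - v) ^ 3) *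
        (Real.exp (-(3 / 2 * u)) * Real.exp (-(3 / 2 * v))) * (MMb a u * MMb b v)) -
        108 / cc (u - v) ^ 5 * (Real.exp (-(3 / 2 * u)) * Real.exp (-(3 / 2 * v))) *
        (MMb a u * MMb b v) =
        -2 * (ff (u - v) * (Am (3 / 2) a u * Am (3 / 2) b v)) +
        11 / 80 / cc (u - v) * (Am (3 / 2) a u * Am (3 / 2) b v) := by
      rw [hA, hB]
      unfold ff
      ring
    have k2 : 0 ≤ 11 / 80 / cc (u - v) * (Am (3 / 2) a u * Am (3 / 2) b v) := by
      have := cc_pos (u - v)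
      exact mul_nonneg (by positivity) (mul_nonneg (Am_nonneg ha _ u) (Am_nonneg hb _ v))
    linarith
  have hT := SPN_TT_mono ha (show ρ - 4 ≤ ρ by linarith)
  have hT0 : 0 ≤ TT a (ρ - 4) := by
    unfold TT
    exact integral_nonneg fun r => mul_nonneg (Am_nonneg ha _ r) (Real.exp_pos _).le
  have hms := SPN_ms_nn hb
  have m1 : ms b * TT a ρ ≤ ms b * TT a (ρ - 4) := mul_le_mul_of_nonneg_left hT hms
  have m2 : 0 ≤ ms b * TT a (ρ - 4) := mul_nonneg hms hT0
  rw [htf, E1, hsplit]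
  linarith

end Pool.Agent.H44.DE
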