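import Pool.Agent.H44.DE.SPP
import Pool.Agent.H44.DE.SPN

/-!
# DE-S job 7: absorption of the difference integrals (uses `SEP.lean`, `SFF.lean`, `SPP.lean`, `SFL.lean`)

`N3 a = 2 ∫_0^∞ Lpp DD(A)`; for `G` even, continuous, `0 ≤ G ≤ 40/c`: `∬ G(r-s)(A r - A s)² = 2 ∫_0^∞ G DD(A)` (shear,
Fubini, `DD` even; convergent as `A ∈ L²`).
`comb_A`: pointwise `EP P r s + gq ρ r s ≤ G (r-s)`, `ρ = log (P/16)`, `G = max (1/c + 1/c³) (|ff| + (1/256)/c)`
(`EP_sq` in the square, `EP_le` outside), and `2 Lpp - G ≥ 0` for `τ ≠ 0`, `≥ 1/50` on `[1,2]`: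
`2Lpp - 1/c - 1/c³ = (3v+4)/(c³(v-4)) ≥ 3/c³`, `2 Lpp - |ff| - (1/256)/c ≥ (9/100 - 1/256)/c` (`abs_ff_le`),
`c ≤ 3.1` on `[1,2]` (`2 cosh 1 < 3.1`).
`comb_B`: `gq ρ r s ≤ |ff (r-s)| ≤ 2 Lpp`.
-/

set_option autoImplicit false
open Real Set MeasureTheory Filter Topology

namespace Pool.Agent.H44.DE
open Pool.Agent.H45.FL Pool.Agent.H51.DG Pool.Agent.H45.DY Pool.Agent.H90.DC Pool.Agent.H90.DE

theorem SComb_fub {A A' : ℝ → ℝ} (hA : Adm A A') {G : ℝ → ℝ} (hG : Continuous G)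
    (he : ∀ τ, G (-τ) = G τ) {C : ℝ} (hb : ∀ τ, |G τ| ≤ C / cc τ) :
    Integrable (fun z : ℝ × ℝ => G (z.1 - z.2) * (A z.1 - A z.2) ^ 2) ∧
    IntegrableOn (fun τ => G τ * DD A τ) (Ioi 0) ∧
    ∫ z : ℝ × ℝ, G (z.1 - z.2) * (A z.1 - A z.2) ^ 2 = 2 * ∫ τ in Ioi (0:ℝ), G τ * DD A τ := by
  have hI : Integrable (fun z : ℝ × ℝ => G (z.1 - z.2) * (A z.1 - A z.2) ^ 2) :=
    Pool.Agent.H45.DE.shr_diff (E := fun z : ℝ × ℝ => G (z.1 - z.2))
      (hG.comp (continuous_fst.sub continuous_snd)).aestronglyMeasurable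
      (fun z => hb (z.1 - z.2)) hA
  have hcA := ND_cont hA
  obtain ⟨F, hF⟩ : ∃ F : ℝ × ℝ → ℝ, F = fun z => G z.1 * (A (z.2 + z.1) - A z.2) ^ 2 := ⟨_, rfl⟩
  have hFc : Continuous F := by
    rw [hF]
    exact (hG.comp continuous_fst).mul (((hcA.comp (continuous_snd.add continuous_fst)).sub
      (hcA.comp continuous_snd)).pow 2)
  have hφ : MeasurePreserving (fun z : ℝ × ℝ => (z.1 - z.2, z.2))
      ((volume : Measure ℝ).prod volume) ((volume : Measure ℝ).prod volume) :=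
    measurePreserving_sub_prod volume volume
  have hcomp : (fun z : ℝ × ℝ => G (z.1 - z.2) * (A z.1 - A z.2) ^ 2) =
      F ∘ fun z : ℝ × ℝ => (z.1 - z.2, z.2) := by
    funext z
    rw [hF]
    simp only [Function.comp]
    congr 4
    ring
  have hFI : Integrable F ((volume : Measure ℝ).prod volume) := by
    rw [← hφ.integrable_comp hFc.aestronglyMeasurable, ← hcomp]
    exact hI
  have hval : ∫ z : ℝ × ℝ, G (z.1 - z.2) * (A z.1 - A z.2) ^ 2 = ∫ z : ℝ × ℝ, F z := by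
    have h1 : ∫ z : ℝ × ℝ, F z = ∫ z, F z ∂(Measure.map (fun z : ℝ × ℝ => (z.1 - z.2, z.2))
        ((volume : Measure ℝ).prod volume)) := by
      rw [hφ.map_eq]
      rfl
    rw [h1, integral_map hφ.measurable.aemeasurable hFc.aestronglyMeasurable]
    rw [hcomp]
    rfl
  have hfub : ∫ z : ℝ × ℝ, F z = ∫ τ, G τ * DD A τ := by
    have h1 : ∫ z : ℝ × ℝ, F z = ∫ τ, ∫ s, F (τ, s) := integral_prod F hFI
    rw [h1]
    refine integral_congr_ae (Eventually.of_forall fun τ => ?_)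
    simp only [hF]
    rw [integral_const_mul]
    rfl
  have hint : Integrable fun τ => G τ * DD A τ := by
    have h1 := hFI.integral_prod_left
    refine h1.congr (Eventually.of_forall fun τ => ?_)
    simp only [hF]
    rw [integral_const_mul]
    rfl
  have hDD : ∀ τ, DD A (-τ) = DD A τ := by
    intro τ
    rw [DD_eq hA, DD_eq hA, corr_swap]
  have habs : ∀ τ : ℝ, G |τ| * DD A |τ| = G τ * DD A τ := by
    intro τ
    rcases le_total 0 τ with h | h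
    · rw [abs_of_nonneg h]
    · rw [abs_of_nonpos h, he, hDD]
  refine ⟨hI, hint.integrableOn, ?_⟩
  rw [hval, hfub, ← integral_comp_abs (f := fun τ => G τ * DD A τ)]
  exact integral_congr_ae (Eventually.of_forall fun τ => (habs τ).symm)

theorem SComb_core {a : ℝ → ℝ} (ha : Bd a) {G : ℝ → ℝ} (hG : Continuous G)
    (he : ∀ τ, G (-τ) = G τ) {C : ℝ} (hb : ∀ τ, |G τ| ≤ C / cc τ) {κ : ℝ × ℝ → ℝ}
    (hκ : Integrable fun z : ℝ × ℝ => κ z * (Am (3 / 2) a z.1 - Am (3 / 2) a z.2) ^ 2)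
    (hle : ∀ z, κ z ≤ G (z.1 - z.2)) :
    (∫ τ in Ioi (0:ℝ), (2 * Lpp τ - G τ) * DD (Am (3 / 2) a) τ) ≤
      N3 a - 1 / 2 * ∫ z : ℝ × ℝ, κ z * (Am (3 / 2) a z.1 - Am (3 / 2) a z.2) ^ 2 := by
  have hA := adm_Am ha (m := 3 / 2) (by norm_num)
  obtain ⟨h1, h2, h3⟩ := SComb_fub hA hG he hb
  have h4 : ∫ z : ℝ × ℝ, κ z * (Am (3 / 2) a z.1 - Am (3 / 2) a z.2) ^ 2 ≤
      ∫ z : ℝ × ℝ, G (z.1 - z.2) * (Am (3 / 2) a z.1 - Am (3 / 2) a z.2) ^ 2 :=
    integral_mono hκ h1 fun z => mul_le_mul_of_nonneg_right (hle z) (sq_nonneg _)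
  have h5 := integrableOn_Lpp_DD hA
  have h6 : ∫ τ in Ioi (0:ℝ), (2 * Lpp τ - G τ) * DD (Am (3 / 2) a) τ =
      2 * (∫ τ in Ioi (0:ℝ), Lpp τ * DD (Am (3 / 2) a) τ) -
        ∫ τ in Ioi (0:ℝ), G τ * DD (Am (3 / 2) a) τ := by
    rw [← integral_const_mul, ← integral_sub (h5.const_mul 2) h2]
    refine integral_congr_ae (Eventually.of_forall fun τ => ?_)
    simp only
    ring
  rw [h6]
  unfold N3
  linarith

theorem SComb_gq_meas (ρ : ℝ) : Measurable fun z : ℝ × ℝ => gq ρ z.1 z.2 := by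
  unfold gq
  refine Measurable.ite ?_ (ff_cont.comp (continuous_fst.sub continuous_snd)).abs.measurable
    measurable_const
  exact (measurableSet_lt measurable_fst measurable_const).inter
    (measurableSet_lt measurable_snd measurable_const)

theorem SComb_gq_le (ρ r s : ℝ) : gq ρ r s ≤ |ff (r - s)| := by
  unfold gq
  split_ifs
  · exact le_rfl
  · exact abs_nonneg _

theorem SComb_gq_bd (ρ : ℝ) (z : ℝ × ℝ) : |gq ρ z.1 z.2| ≤ 20 / cc (z.1 - z.2) := by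
  have h1 : 0 ≤ gq ρ z.1 z.2 := by
    unfold gq
    split_ifs
    · exact abs_nonneg _
    · exact le_rfl
  rw [abs_of_nonneg h1]
  exact (SComb_gq_le ρ z.1 z.2).trans (ff_le _)

theorem SComb_gq_int {a : ℝ → ℝ} (ha : Bd a) (ρ : ℝ) :
    Integrable (fun z : ℝ × ℝ => gq ρ z.1 z.2 * (Am (3 / 2) a z.1 - Am (3 / 2) a z.2) ^ 2) :=
  Pool.Agent.H45.DE.shr_diff (E := fun z : ℝ × ℝ => gq ρ z.1 z.2)
    (SComb_gq_meas ρ).aestronglyMeasurable (SComb_gq_bd ρ) (adm_Am ha (m := 3 / 2) (by norm_num))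

theorem SComb_EP_int {a : ℝ → ℝ} (ha : Bd a) {P : ℝ} (hP : 0 < P) :
    Integrable (fun z : ℝ × ℝ => EP P z.1 z.2 * (Am (3 / 2) a z.1 - Am (3 / 2) a z.2) ^ 2) :=
  Pool.Agent.H45.DE.shr_diff (E := fun z : ℝ × ℝ => EP P z.1 z.2)
    (SPP_cont hP.le).aestronglyMeasurable (SPP_bd hP.le) (adm_Am ha (m := 3 / 2) (by norm_num))

/-- the majorant -/
noncomputable def SComb_G (τ : ℝ) : ℝ :=
  max (1 / cc τ + 1 / cc τ ^ 3) (|ff τ| + 1 / 256 / cc τ)

theorem SComb_G_cont : Continuous SComb_G := by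
  have h1 := cont_inv 1
  have h3 := cont_inv 3
  simp only [pow_one] at h1
  have h : Continuous fun τ => max (1 / cc τ + 1 / cc τ ^ 3) (|ff τ| + 1 / 256 * (1 / cc τ)) :=
    (h1.add h3).max (ff_cont.abs.add (h1.const_mul (1 / 256)))
  refine h.congr fun τ => ?_
  unfold SComb_G
  rw [show (1:ℝ) / 256 * (1 / cc τ) = 1 / 256 / cc τ by ring]

theorem SComb_G_bd (τ : ℝ) : |SComb_G τ| ≤ 40 / cc τ := by
  have hc := cc_pos τ
  obtain ⟨h1, -, h3, h4, -⟩ := SFF_parts τ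
  have h5 := ff_le τ
  have e1 : 40 / cc τ = 40 * (1 / cc τ) := by ring
  have e2 : 20 / cc τ = 20 * (1 / cc τ) := by ring
  have e3 : 1 / 256 / cc τ = 1 / 256 * (1 / cc τ) := by ring
  have h0 : 0 ≤ SComb_G τ := le_max_of_le_left (by positivity)
  rw [abs_of_nonneg h0, e1]
  rw [e2] at h5
  unfold SComb_G
  rw [e3]
  refine max_le ?_ ?_ <;> linarith

theorem SComb_G_le {P : ℝ} (hP : 0 < P) (r s : ℝ) :
    EP P r s + gq (Real.log (P / 16)) r s ≤ SComb_G (r - s) := by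
  unfold gq SComb_G
  split_ifs with h
  · refine le_max_of_le_right ?_
    have := EP_sq hP h.1 h.2
    linarith
  · refine le_max_of_le_left ?_
    have := EP_le hP.le r s
    linarith

theorem SComb_Lpp {τ : ℝ} (h : τ ≠ 0) : 3 / cc τ ^ 3 ≤ 2 * Lpp τ - (1 / cc τ + 1 / cc τ ^ 3) := by
  have h1 := KE_sinh_pos h
  have h2 := cc_sinh_sq τ
  have h4 := cc_pos τ
  have h5 : 2 * Lpp τ = cc τ / (cc τ ^ 2 - 4) := KE_two_Lpp h
  rw [h5]
  generalize cc τ = c at h2 h4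
  have hw : 0 < c ^ 2 - 4 := by rw [← h2]; positivity
  have e1 : c / (c ^ 2 - 4) - (1 / c + 1 / c ^ 3) - 3 / c ^ 3 = 16 / (c ^ 3 * (c ^ 2 - 4)) := by
    have hw' : c ^ 2 - 4 ≠ 0 := hw.ne'
    field_simp
    ring
  have h6 : 0 ≤ 16 / (c ^ 3 * (c ^ 2 - 4)) := by positivity
  linarith

theorem SComb_nn {τ : ℝ} (h : τ ≠ 0) : 0 ≤ 2 * Lpp τ - SComb_G τ := by
  have hc := cc_pos τ
  have h1 := SComb_Lpp h
  have h2 := abs_ff_le h
  have h3 : 0 ≤ 3 / cc τ ^ 3 := by positivity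
  have h4 : 0 ≤ 1 / cc τ := by positivity
  have e3 : 1 / 256 / cc τ = 1 / 256 * (1 / cc τ) := by ring
  have e4 : 9 / 100 / cc τ = 9 / 100 * (1 / cc τ) := by ring
  rw [sub_nonneg]
  unfold SComb_G
  rw [e3]
  rw [e4] at h2
  refine max_le ?_ ?_ <;> linarith

theorem SComb_cc {τ : ℝ} (h1 : 0 < τ) (h2 : τ ≤ 2) : cc τ ≤ 3.1 := by
  unfold cc
  have h3 : Real.cosh (τ / 2) ≤ Real.cosh 1 := by
    rw [Real.cosh_le_cosh, abs_of_pos (by linarith), abs_of_pos (by norm_num)]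
    linarith
  have h4 : Real.cosh 1 = (Real.exp 1 + Real.exp (-1)) / 2 := Real.cosh_eq 1
  have h5 := Real.exp_one_lt_d9
  have h6 := Real.exp_neg_one_lt_d9
  rw [h4] at h3
  linarith

theorem SComb_ge {τ : ℝ} (h1 : 0 < τ) (h2 : τ ≤ 2) : 1 / 50 ≤ 2 * Lpp τ - SComb_G τ := by
  have hc := cc_pos τ
  have hc1 := SComb_cc h1 h2
  have h3 := SComb_Lpp h1.ne'
  have h4 := abs_ff_le h1.ne'
  have e3 : 1 / 256 / cc τ = 1 / 256 * (1 / cc τ) := by ring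
  have e4 : 9 / 100 / cc τ = 9 / 100 * (1 / cc τ) := by ring
  have h5 : 1 / 3.1 ≤ 1 / cc τ := one_div_le_one_div_of_le hc hc1
  have h6 : 3 / 3.1 ^ 3 ≤ 3 / cc τ ^ 3 :=
    div_le_div_of_nonneg_left (by norm_num) (by positivity) (pow_le_pow_left₀ hc.le hc1 3)
  have h7 : (1:ℝ) / 50 ≤ 3 / 3.1 ^ 3 := by norm_num
  have h8 : (1:ℝ) / 50 ≤ (9 / 100 - 1 / 256) * (1 / 3.1) := by norm_num
  have h9 : (9 / 100 - 1 / 256) * (1 / 3.1) ≤ (9 / 100 - 1 / 256) * (1 / cc τ) :=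
    mul_le_mul_of_nonneg_left h5 (by norm_num)
  have h10 : SComb_G τ ≤ 2 * Lpp τ - 1 / 50 := by
    unfold SComb_G
    rw [e3]
    rw [e4] at h4
    refine max_le ?_ ?_ <;> linarith
  linarith

theorem comb_A {a : ℝ → ℝ} (ha : Bd a) {P : ℝ} (hP : 0 < P) :
    1 / 50 * (∫ τ in (1:ℝ)..2, DD (Am (3 / 2) a) τ) ≤
      N3 a - 1 / 2 * DI (EP P) a - 1 / 2 * DI (gq (Real.log (P / 16))) a := by
  have hA := adm_Am ha (m := 3 / 2) (by norm_num)
  have i1 := SComb_EP_int ha hP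
  have i2 := SComb_gq_int ha (Real.log (P / 16))
  have hev : ∀ τ, SComb_G (-τ) = SComb_G τ := by
    intro τ
    unfold SComb_G
    rw [cc_neg, ff_even]
  have hsum : DI (EP P) a + DI (gq (Real.log (P / 16))) a =
      ∫ z : ℝ × ℝ, (EP P z.1 z.2 + gq (Real.log (P / 16)) z.1 z.2) *
        (Am (3 / 2) a z.1 - Am (3 / 2) a z.2) ^ 2 := by
    unfold DI
    rw [← integral_add i1 i2]
    refine integral_congr_ae (Eventually.of_forall fun z => ?_)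
    simp only
    ring
  have i3 : Integrable fun z : ℝ × ℝ => (EP P z.1 z.2 + gq (Real.log (P / 16)) z.1 z.2) *
      (Am (3 / 2) a z.1 - Am (3 / 2) a z.2) ^ 2 := by
    refine (i1.add i2).congr (Eventually.of_forall fun z => ?_)
    simp only [Pi.add_apply]
    ring
  have h1 := SComb_core ha SComb_G_cont hev SComb_G_bd i3 fun z => SComb_G_le hP z.1 z.2
  obtain ⟨-, j2, -⟩ := SComb_fub hA SComb_G_cont hev SComb_G_bd
  have j1 := (integrableOn_Lpp_DD hA).const_mul 2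
  have j3 : IntegrableOn (fun τ => (2 * Lpp τ - SComb_G τ) * DD (Am (3 / 2) a) τ) (Ioi 0) := by
    refine (j1.sub j2).congr (Eventually.of_forall fun τ => ?_)
    simp only [Pi.sub_apply]
    ring
  have hsub : Ioc (1:ℝ) 2 ⊆ Ioi (0:ℝ) := fun τ hτ => lt_trans zero_lt_one hτ.1
  have h2 : ∫ τ in Ioc (1:ℝ) 2, (2 * Lpp τ - SComb_G τ) * DD (Am (3 / 2) a) τ ≤
      ∫ τ in Ioi (0:ℝ), (2 * Lpp τ - SComb_G τ) * DD (Am (3 / 2) a) τ := by
    refine setIntegral_mono_set j3 ?_ (LE.le.eventuallyLE hsub)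
    refine (ae_restrict_iff' measurableSet_Ioi).2 (Eventually.of_forall fun τ hτ => ?_)
    exact mul_nonneg (SComb_nn (ne_of_gt hτ)) (DD_nonneg _ _)
  have jD : IntegrableOn (DD (Am (3 / 2) a)) (Ioc 1 2) :=
    ((continuous_DD hA).continuousOn.integrableOn_Icc).mono_set Ioc_subset_Icc_self
  have h3 : ∫ τ in Ioc (1:ℝ) 2, 1 / 50 * DD (Am (3 / 2) a) τ ≤
      ∫ τ in Ioc (1:ℝ) 2, (2 * Lpp τ - SComb_G τ) * DD (Am (3 / 2) a) τ := by
    refine setIntegral_mono_on (jD.const_mul _) (j3.mono_set hsub) measurableSet_Ioc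
      fun τ hτ => ?_
    exact mul_le_mul_of_nonneg_right (SComb_ge (lt_trans zero_lt_one hτ.1) hτ.2) (DD_nonneg _ _)
  rw [integral_const_mul] at h3
  rw [intervalIntegral.integral_of_le (by norm_num : (1:ℝ) ≤ 2)]
  linarith

theorem comb_B {b : ℝ → ℝ} (hb : Bd b) (ρ : ℝ) : 0 ≤ N3 b - 1 / 2 * DI (gq ρ) b := by
  have hev : ∀ τ, |ff (-τ)| = |ff τ| := by
    intro τ
    rw [ff_even]
  have hbd : ∀ τ, |(|ff τ|)| ≤ 20 / cc τ := by
    intro τ
    rw [abs_abs]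
    exact ff_le τ
  have h1 := SComb_core hb (G := fun τ => |ff τ|) ff_cont.abs hev hbd (SComb_gq_int hb ρ)
    fun z => SComb_gq_le ρ z.1 z.2
  refine le_trans ?_ h1
  refine setIntegral_nonneg measurableSet_Ioi fun τ hτ => ?_
  refine mul_nonneg ?_ (DD_nonneg _ _)
  have h2 := abs_ff_le (ne_of_gt (show 0 < τ from hτ))
  have h3 : 0 ≤ 9 / 100 / cc τ := by
    have := cc_pos τ
    positivity
  linarith

end Pool.Agent.H44.DE
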