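import Pool.Agent.H90.DE.Defs

/-!
# Project DE, static part (MP_64e98b_an, note 1895): definitions

Static inequality: `∃ K ≥ 0, ∀ W l, OddE W l → ContDiff ℝ 2 W →
  9/8 * EFE W l ≤ TF W l + K * (BN W l + BP W l)`.

Variables.  `a = aE W l`, `b = bE W l` are the two arcs seen from the zero `l`:
`a ξ = W (l+ξ)` for `0 ≤ ξ ≤ π - l`, `b ζ = -W (l-ζ)` for `0 ≤ ζ ≤ l`, zero beyond (up to `π`).
`X = tn ξ = tan (ξ/2)`, `X = e^r`.  `A r = Am (3/2) a r = e^{-3r/2} MMb a r`.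

`L0 X M = X^{-3} (log |1+X/M| - X/(X+M)) = X^{-3} ∫_0^X s/(s+M)² ds`.
-/

set_option autoImplicit false
open Real Set MeasureTheory Filter Topology

namespace Pool.Agent.H44.DE
open Pool.Agent.H45.FL Pool.Agent.H51.DG Pool.Agent.H45.DY Pool.Agent.H90.DC Pool.Agent.H90.DE

/-- half-angle tangent -/
noncomputable def tn (x : ℝ) : ℝ := Real.tan (x / 2)

noncomputable def L0 (X M : ℝ) : ℝ := (Real.log (1 + X / M) - X / (X + M)) / X ^ 3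

noncomputable def LS (X Z : ℝ) : ℝ := L0 X Z + L0 Z X

/-- arc `(l,π)` seen from `l` -/
noncomputable def aE (W : ℝ → ℝ) (l ξ : ℝ) : ℝ := if ξ ≤ π - l then bF W (l + ξ) else 0

/-- arc `(0,l)` seen from `l` -/
noncomputable def bE (W : ℝ → ℝ) (l ζ : ℝ) : ℝ := if ζ ≤ l then bR W (l - ζ) else 0

/-- forms on `(0,π)²` in the tangent variables -/
noncomputable def tf (a b : ℝ → ℝ) (K : ℝ → ℝ → ℝ) : ℝ :=
  ∫ z in Sq1, a z.1 * b z.2 * K (tn z.1) (tn z.2)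

def TI (a b : ℝ → ℝ) (K : ℝ → ℝ → ℝ) : Prop :=
  IntegrableOn (fun z : ℝ × ℝ => a z.1 * b z.2 * K (tn z.1) (tn z.2)) Sq1

/-- total mass -/
noncomputable def ms (a : ℝ → ℝ) : ℝ := ∫ x in (0:ℝ)..π, a x

/-- mass at tangent distance `> 1/36` -/
noncomputable def Vm (a : ℝ → ℝ) : ℝ := ∫ x in (2 * Real.arctan (1 / 36))..π, a x

/-- `∫ a/X` -/
noncomputable def J1 (a : ℝ → ℝ) : ℝ := ∫ x in (0:ℝ)..π, a x / tn x

/-- `∫_{r > ρ} A e^{-3r/2} dr = ∫_{X > e^ρ} M X^{-4} dX` -/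
noncomputable def TT (a : ℝ → ℝ) (ρ : ℝ) : ℝ :=
  ∫ r in Ioi ρ, Am (3 / 2) a r * Real.exp (-(3 / 2 * r))

/-- `∬ g(r,s) (A r - A s)²` -/
noncomputable def DI (g : ℝ → ℝ → ℝ) (a : ℝ → ℝ) : ℝ :=
  ∫ z : ℝ × ℝ, g z.1 z.2 * (Am (3 / 2) a z.1 - Am (3 / 2) a z.2) ^ 2

/-- the mirror kernel of the arc P -/
noncomputable def kpp (P X Z : ℝ) : ℝ :=
  1 / 2 * (1 / X + 1 / Z) / (X + Z + P) ^ 2 - 23 / 6 / (X + Z + P) ^ 3

/-- `e^{3(r+s)/2}` times the mixed derivative of `kpp P (e^r) (e^s)` -/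
noncomputable def EP (P r s : ℝ) : ℝ :=
  Real.exp (3 / 2 * (r + s)) *
    ((Real.exp (r - s) + Real.exp (s - r)) / (Real.exp r + Real.exp s + P) ^ 3
      + 3 * (Real.exp r + Real.exp s) / (Real.exp r + Real.exp s + P) ^ 4
      - 46 * Real.exp (r + s) / (Real.exp r + Real.exp s + P) ^ 5)

/-- the P-N kernel -/
noncomputable def kpn (R X Z : ℝ) : ℝ :=
  (if X < R ∧ Z < R then 31 / 16 * LS X Z else 0) - 9 / (X + Z) ^ 3

noncomputable def ff (τ : ℝ) : ℝ := 54 / cc τ ^ 5 - 31 / 8 / cc τ ^ 3 - 9 / 10 / cc τ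

/-- `|ff (r-s)|` on the square `r, s < ρ` -/
noncomputable def gq (ρ r s : ℝ) : ℝ := if r < ρ ∧ s < ρ then |ff (r - s)| else 0

/-- `√(X/(X+P))`, `X = e^r` -/
noncomputable def sP (P r : ℝ) : ℝ := Real.sqrt (Real.exp r / (Real.exp r + P))

end Pool.Agent.H44.DE
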