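import Pool.Agent.H44.DE.SComb
import Pool.Agent.H45.DE.Tail1
import Pool.Agent.H51.DG.CA

/-!
# DE-S job 8: absorption; the two final A-level inequalities (uses `SPP`, `SPN`, `SComb`)

`M r = MMb a r`, `A = Am (3/2) a`, `m = ms a`.
(0) `J1 a = ∫ A e^{r/2} dr` (`1/tn x = ∫_{u > log tn x} e^{-u} du`, Fubini).
(1) `abs1`: `I0 = ∫_{r<0} e^{r/2} A`.  For `τ ∈ [1,2]`: `A r = A(r+τ) - (A(r+τ) - A r)`,
  `∫_{r<0} e^{r/2} A(r+τ) dr = e^{-τ/2} ∫_{r<τ} e^{r/2} A ≤ e^{-1/2} (I0 + m)` (for `r > 0`: `e^{r/2} A = e^{-r} M ≤ e^{-r} m`),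
  `|∫_{r<0} e^{r/2} (A(r+τ)-A r)| ≤ (DD A τ)^{1/2}` (Cauchy-Schwarz).  So
  `(1 - e^{-1/2}) I0 ≤ m + √DD(τ)`, `I0 ≤ 2.55 (m + √DD)`, `J1 ≤ I0 + m`,
  `(1/2) m J1 ≤ 1.775 m² + 1.275 m √DD ≤ (1/50) DD(τ) + 23 m²`; integrate over `τ ∈ [1,2]`.
(2) `abs2` (`0 < P ≤ 1`, `ρ = log (P/16)`): for `r > ρ - 4`: `e^r ≥ P e^{-4}/16`, `sP P r² = X/(X+P) ≥ 1/(1 + 16 e⁴)`, so with
  `ε = (3π/128) (1+16e⁴)^{-1/2}`: `80 ms b A e^{-3r/2} ≤ ε A² + (1600/ε) (ms b)² e^{-3r}`,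
  `∫_{r>ρ-4} e^{-3r} = e^{12} 16³ P^{-3}/3`.
(3) `abs3` (`P ≤ 1`): `m = M0 + Vm a`, `M0 = MMb a (log (1/36))` (`th (log (1/36)) = 2 arctan (1/36)`);
  for `r ≥ log (1/36)`: `A r ≥ M0 e^{-3r/2}`, `sP P r ≥ √(1/37) ≥ .164`, so
  `(3π/128) ∫ sP A² ≥ (3π/128) (.164) M0² 36³/3 ≥ 187 M0²`, and `23 m² ≤ 46 M0² + 46 (Vm a)²`.
(4) `AL1`: `PP_low`, `PN_form` with `ρ = log (P/16)` (`e^ρ = P/16`), `comb_A`, `comb_B`, (1), (2), (3).
(5) `AL2`: `PN_form` with `ρ = log (1/16)`, `comb_B` for `a` and for `b` (`0 ≤ N3 a - (1/2) DI (gq ρ) a`),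
  `TT a (ρ-4) = ∫_{r>ρ-4} M e^{-3r} ≤ m e^{12} 16³/3`, `2 ms a ms b ≤ (ms a)² + (ms b)²`.
-/

set_option autoImplicit false
open Real Set MeasureTheory Filter Topology

namespace Pool.Agent.H44.DE
open Pool.Agent.H45.FL Pool.Agent.H51.DG Pool.Agent.H45.DY Pool.Agent.H90.DC Pool.Agent.H90.DE


theorem SAbs_ms_nonneg {a : ℝ → ℝ} (ha : Bd a) : 0 ≤ ms a :=
  intervalIntegral.integral_nonneg Real.pi_pos.le fun x hx => ha.nn x hx

theorem SAbs_MMb_le {a : ℝ → ℝ} (ha : Bd a) (r : ℝ) : MMb a r ≤ ms a := CA_MMb_le ha r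

theorem SAbs_MMb_nonneg {a : ℝ → ℝ} (ha : Bd a) (r : ℝ) : 0 ≤ MMb a r := NF_MMb_nonneg ha r

/-- `J1` as an integral in `r` -/
theorem SAbs_J1 {a : ℝ → ℝ} (ha : Bd a) :
    IntegrableOn (fun x => a x / tn x) (Ioo (0:ℝ) π) ∧
    Integrable (fun u => Real.exp (-u) * MMb a u) ∧ J1 a = ∫ u, Real.exp (-u) * MMb a u := by
  have hk : ∀ x ∈ Ioo (0:ℝ) π, (fun x => 1 / tn x) x = ∫ u in Ioi (-Real.log (ct x)), Real.exp (-u) := by
    intro x hx
    rw [integral_exp_neg_Ioi, neg_neg, Real.exp_log (ct_pos hx.1 hx.2)]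
    simp only [tn, ct]
    rw [Real.tan_eq_sin_div_cos, one_div, inv_div]
  obtain ⟨h1, h2, h3⟩ := Pool.Agent.H45.DE.tail1 (κ := fun u => Real.exp (-u)) ha
    (fun r0 => integrableOn_exp_neg_Ioi r0) hk
  have e : (fun x => a x * (fun x => 1 / tn x) x) = fun x => a x / tn x := by
    funext x
    ring
  rw [e] at h1
  refine ⟨h1, h2, ?_⟩
  unfold J1
  rw [intervalIntegral.integral_of_le Real.pi_pos.le, integral_Ioc_eq_integral_Ioo, ← h3]
  refine setIntegral_congr_fun measurableSet_Ioo fun x _ => ?_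
  exact (congrFun e x).symm

/-- the error term of `rawP1` -/
theorem J1_form {a : ℝ → ℝ} (ha : Bd a) :
    TI a a (fun X Z => 1 / 4 * (1 / X + 1 / Z)) ∧
    tf a a (fun X Z => 1 / 4 * (1 / X + 1 / Z)) = 1 / 2 * (ms a * J1 a) := by
  obtain ⟨h1, -, -⟩ := SAbs_J1 ha
  have h0 : Integrable a (volume.restrict (Ioo (0:ℝ) π)) := Pool.Agent.H45.DE.tl_int ha
  have h1' : Integrable (fun x => a x / tn x) (volume.restrict (Ioo (0:ℝ) π)) := h1
  have k1 := h1'.mul_prod h0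
  have k2 := h0.mul_prod h1'
  rw [Measure.prod_restrict, ← Measure.volume_eq_prod] at k1 k2
  have e0 : ∫ x in Ioo (0:ℝ) π, a x = ms a := by
    unfold ms
    rw [intervalIntegral.integral_of_le Real.pi_pos.le, integral_Ioc_eq_integral_Ioo]
  have e1 : ∫ x in Ioo (0:ℝ) π, a x / tn x = J1 a := by
    unfold J1
    rw [intervalIntegral.integral_of_le Real.pi_pos.le, integral_Ioc_eq_integral_Ioo]
  have e : ∀ z : ℝ × ℝ, a z.1 * a z.2 * (1 / 4 * (1 / tn z.1 + 1 / tn z.2)) =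
      1 / 4 * (a z.1 / tn z.1 * a z.2) + 1 / 4 * (a z.1 * (a z.2 / tn z.2)) := fun z => by ring
  have k12 := (k1.const_mul (1 / 4)).add (k2.const_mul (1 / 4))
  constructor
  · unfold TI
    simp_rw [e]
    exact k12
  · unfold tf
    simp_rw [e]
    unfold Sq1
    rw [integral_add (k1.const_mul (1 / 4)) (k2.const_mul (1 / 4)), integral_const_mul,
      integral_const_mul]
    have f1 : ∫ z in Ioo (0:ℝ) π ×ˢ Ioo (0:ℝ) π, a z.1 / tn z.1 * a z.2 = J1 a * ms a := by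
      rw [Measure.volume_eq_prod, setIntegral_prod_mul (fun x => a x / tn x) a, e0, e1]
    have f2 : ∫ z in Ioo (0:ℝ) π ×ˢ Ioo (0:ℝ) π, a z.1 * (a z.2 / tn z.2) = ms a * J1 a := by
      rw [Measure.volume_eq_prod, setIntegral_prod_mul a (fun x => a x / tn x), e0, e1]
    rw [f1, f2]
    ring

theorem SAbs_A (a : ℝ → ℝ) (u : ℝ) : Real.exp (-u) * MMb a u = Real.exp (u / 2) * Am (3 / 2) a u := by
  unfold Am
  rw [← mul_assoc, ← Real.exp_add]
  congr 2
  ring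

theorem SAbs_exp_half : Real.exp (-(1 / 2)) ≤ 0.6066 := by
  have h1 := Real.exp_one_gt_d9
  have h2 : Real.exp (-(1 / 2)) ^ 2 * Real.exp 1 = 1 := by
    rw [← Real.exp_nat_mul, ← Real.exp_add, Real.exp_eq_one_iff]
    push_cast
    ring
  have h3 := Real.exp_pos (-(1 / 2))
  by_contra hcon
  push Not at hcon
  have h4 : 0.6066 ^ 2 < Real.exp (-(1 / 2)) ^ 2 := pow_lt_pow_left₀ hcon (by norm_num) two_ne_zero
  nlinarith

/-- the estimate of `J1` for one `τ` -/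
theorem SAbs_one {a : ℝ → ℝ} (ha : Bd a) {τ : ℝ} (hτ : 1 ≤ τ) :
    1 / 2 * (ms a * J1 a) ≤ 1 / 50 * DD (Am (3 / 2) a) τ + 23 * ms a ^ 2 := by
  obtain ⟨-, hφ, hJ⟩ := SAbs_J1 ha
  have hA : Adm (Am (3 / 2) a) (Amd (3 / 2) a) := adm_Am ha (by norm_num)
  have hcA := ND_cont hA
  set m := ms a with hm
  have hm0 : 0 ≤ m := SAbs_ms_nonneg ha
  set φ : ℝ → ℝ := fun u => Real.exp (-u) * MMb a u with hφd
  have hφ0 : ∀ u, 0 ≤ φ u := fun u => mul_nonneg (Real.exp_pos _).le (SAbs_MMb_nonneg ha u)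
  have hφA : ∀ u, φ u = Real.exp (u / 2) * Am (3 / 2) a u := fun u => SAbs_A a u
  -- the right part
  have hR : ∫ u in Ici (0:ℝ), φ u ≤ m := by
    rw [integral_Ici_eq_integral_Ioi]
    have h1 : ∫ u in Ioi (0:ℝ), m * Real.exp (-u) = m := by
      rw [integral_const_mul, integral_exp_neg_Ioi_zero, mul_one]
    rw [← h1]
    refine setIntegral_mono_on hφ.integrableOn ((integrableOn_exp_neg_Ioi 0).const_mul m)
      measurableSet_Ioi ?_
    intro u _
    have h2 := SAbs_MMb_le ha u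
    have h3 := mul_le_mul_of_nonneg_left h2 (Real.exp_pos (-u)).le
    simp only [hφd]
    linarith
  set I0 := ∫ u in Iio (0:ℝ), φ u with hI0
  have hJ2 : J1 a = I0 + ∫ u in Ici (0:ℝ), φ u := by
    rw [hJ, hI0]
    have := integral_add_compl (measurableSet_Iio (a := (0:ℝ))) hφ
    rw [compl_Iio] at this
    exact this.symm
  -- the shifted part
  have hsh : ∫ u in Iio (0:ℝ), φ (u + τ) ≤ I0 + m := by
    have h1 : ∫ u in Iio (0:ℝ), φ (u + τ) = ∫ v in Iio τ, φ v := by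
      have h2 := (measurePreserving_add_right (volume : Measure ℝ) τ).setIntegral_preimage_emb
        (measurableEmbedding_addRight τ) φ (Iio τ)
      have h3 : (fun x : ℝ => x + τ) ⁻¹' (Iio τ) = Iio 0 := by
        ext x
        simp
      rw [h3] at h2
      exact h2
    rw [h1]
    have h4 : Iio τ ⊆ Iio 0 ∪ Ici 0 := by
      intro x _
      exact lt_or_ge x 0
    have h5 : ∫ v in Iio τ, φ v ≤ ∫ v in Iio 0 ∪ Ici 0, φ v :=
      setIntegral_mono_set hφ.integrableOn (Eventually.of_forall hφ0) h4.eventuallyLE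
    have h6 : ∫ v in Iio 0 ∪ Ici 0, φ v = I0 + ∫ v in Ici (0:ℝ), φ v :=
      setIntegral_union (by
        rw [Set.disjoint_left]
        intro x hx hx'
        have h7 : x < 0 := hx
        have h8 : 0 ≤ x := hx'
        linarith) measurableSet_Ici hφ.integrableOn hφ.integrableOn
    linarith
  -- the pointwise inequality
  set D : ℝ → ℝ := fun u => Am (3 / 2) a (u + τ) - Am (3 / 2) a u with hD
  have hDi : Integrable (fun u => D u ^ 2) := by
    have h1 := (NA_diff hA hA τ).1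
    refine h1.congr (Eventually.of_forall fun u => ?_)
    simp only [hD]
    ring
  have hτe : Real.exp (-(τ / 2)) ≤ 0.6066 := by
    refine le_trans (Real.exp_le_exp.mpr ?_) SAbs_exp_half
    linarith
  have hpt : ∀ u, m * φ u ≤ 0.6066 * m * φ (u + τ) + (50 / 3 * m ^ 2 * Real.exp u + 3 / 200 * D u ^ 2) := by
    intro u
    have h1 : φ u = Real.exp (-(τ / 2)) * φ (u + τ) - Real.exp (u / 2) * D u := by
      rw [hφA, hφA]
      have h2 : Real.exp ((u + τ) / 2) = Real.exp (u / 2) * Real.exp (τ / 2) := by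
        rw [← Real.exp_add]
        congr 1
        ring
      have h3 : Real.exp (-(τ / 2)) * Real.exp (τ / 2) = 1 := by
        rw [← Real.exp_add]
        simp
      rw [h2]
      simp only [hD]
      linear_combination (-(Real.exp (u / 2) * Am (3 / 2) a (u + τ))) * h3
    have h4 : Real.exp u = Real.exp (u / 2) ^ 2 := SEP_exp u
    have h5 : 0 ≤ (50 / 3 * 2 * (m * Real.exp (u / 2)) + D u) ^ 2 := sq_nonneg _
    have h6 : Real.exp (-(τ / 2)) * (m * φ (u + τ)) ≤ 0.6066 * (m * φ (u + τ)) :=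
      mul_le_mul_of_nonneg_right hτe (mul_nonneg hm0 (hφ0 _))
    rw [h1, h4]
    nlinarith
  -- integrate
  have hφs : IntegrableOn (fun u => φ (u + τ)) (Iio 0) := (hφ.comp_add_right τ).integrableOn
  have hexp : IntegrableOn (fun u : ℝ => Real.exp u) (Iio 0) :=
    (integrableOn_exp_Iic 0).mono_set Iio_subset_Iic_self
  have hexpv : ∫ u in Iio (0:ℝ), Real.exp u = 1 := by
    rw [← integral_Iic_eq_integral_Iio, integral_exp_Iic, Real.exp_zero]
  have g1 : IntegrableOn (fun u => 0.6066 * m * φ (u + τ)) (Iio 0) := hφs.const_mul _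
  have g2 : IntegrableOn (fun u : ℝ => 50 / 3 * m ^ 2 * Real.exp u) (Iio 0) := hexp.const_mul _
  have g3 : IntegrableOn (fun u => 3 / 200 * D u ^ 2) (Iio 0) := (hDi.const_mul _).integrableOn
  have g23 : IntegrableOn (fun u : ℝ => 50 / 3 * m ^ 2 * Real.exp u + 3 / 200 * D u ^ 2) (Iio 0) :=
    g2.add g3
  have hint : m * I0 ≤ 0.6066 * m * (I0 + m) + (50 / 3 * m ^ 2 * 1 + 3 / 200 * DD (Am (3 / 2) a) τ) := by
    have h1 : ∫ u in Iio (0:ℝ), m * φ u ≤ ∫ u in Iio (0:ℝ), (0.6066 * m * φ (u + τ) +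
        (50 / 3 * m ^ 2 * Real.exp u + 3 / 200 * D u ^ 2)) :=
      setIntegral_mono (hφ.integrableOn.const_mul m) (g1.add g23) hpt
    rw [integral_const_mul, integral_add g1 g23, integral_add g2 g3, integral_const_mul,
      integral_const_mul, integral_const_mul, hexpv] at h1
    have h2 : ∫ u in Iio (0:ℝ), D u ^ 2 ≤ DD (Am (3 / 2) a) τ :=
      setIntegral_le_integral hDi (Eventually.of_forall fun u => sq_nonneg _)
    have h3 : 0.6066 * m * ∫ u in Iio (0:ℝ), φ (u + τ) ≤ 0.6066 * m * (I0 + m) :=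
      mul_le_mul_of_nonneg_left hsh (by positivity)
    linarith
  have hDD := DD_nonneg (Am (3 / 2) a) τ
  rw [hJ2]
  have h7 := mul_le_mul_of_nonneg_left hR hm0
  nlinarith

theorem SAbs_J1_le {a : ℝ → ℝ} (ha : Bd a) :
    1 / 2 * (ms a * J1 a) ≤ 1 / 50 * (∫ τ in (1:ℝ)..2, DD (Am (3 / 2) a) τ) + 23 * ms a ^ 2 := by
  have hA : Adm (Am (3 / 2) a) (Amd (3 / 2) a) := adm_Am ha (by norm_num)
  have hc := continuous_DD hA
  have h1 : ∫ τ in (1:ℝ)..2, (1 / 2 * (ms a * J1 a)) ≤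
      ∫ τ in (1:ℝ)..2, (1 / 50 * DD (Am (3 / 2) a) τ + 23 * ms a ^ 2) := by
    refine intervalIntegral.integral_mono_on (by norm_num) (by simp) ?_ ?_
    · exact ((continuous_const.mul hc).add continuous_const).intervalIntegrable _ _
    · intro τ hτ
      exact SAbs_one ha hτ.1
  have h2 : IntervalIntegrable (fun τ => 1 / 50 * DD (Am (3 / 2) a) τ) volume 1 2 :=
    (continuous_const.mul hc).intervalIntegrable _ _
  rw [intervalIntegral.integral_const, intervalIntegral.integral_add h2 (by simp),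
    intervalIntegral.integral_const_mul,
    intervalIntegral.integral_const, smul_eq_mul, smul_eq_mul] at h1
  linarith

/-- lower bound of `sP` -/
theorem SAbs_sP {P X0 r : ℝ} (hP : 0 < P) (hX0 : 0 < X0) (h : X0 ≤ Real.exp r) :
    Real.sqrt (X0 / (X0 + P)) ≤ sP P r := by
  unfold sP
  refine Real.sqrt_le_sqrt ?_
  rw [div_le_div_iff₀ (by positivity) (by positivity)]
  nlinarith

theorem SAbs_exp3 (ρ : ℝ) : IntegrableOn (fun r : ℝ => Real.exp (-3 * r)) (Ioi ρ) ∧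
    ∫ r in Ioi ρ, Real.exp (-3 * r) = Real.exp (-3 * ρ) / 3 := by
  refine ⟨exp_neg_integrableOn_Ioi ρ (by norm_num), ?_⟩
  rw [integral_exp_mul_Ioi (by norm_num)]
  ring

/-- the tail integral converges and is at most `m e^{-3ρ}/3` -/
theorem SAbs_TT {a : ℝ → ℝ} (ha : Bd a) (ρ : ℝ) :
    IntegrableOn (fun r => Am (3 / 2) a r * Real.exp (-(3 / 2 * r))) (Ioi ρ) ∧
    TT a ρ ≤ ms a * (Real.exp (-3 * ρ) / 3) := by
  have hA : Adm (Am (3 / 2) a) (Amd (3 / 2) a) := adm_Am ha (by norm_num)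
  obtain ⟨h1, h2⟩ := SAbs_exp3 ρ
  have hpt : ∀ r, Am (3 / 2) a r * Real.exp (-(3 / 2 * r)) = MMb a r * Real.exp (-3 * r) := by
    intro r
    unfold Am
    rw [mul_assoc, mul_comm (MMb a r), ← mul_assoc, ← Real.exp_add, mul_comm]
    congr 2
    ring
  have h3 : IntegrableOn (fun r => Am (3 / 2) a r * Real.exp (-(3 / 2 * r))) (Ioi ρ) := by
    refine Integrable.mono' (h1.const_mul (ms a)) ?_ (Eventually.of_forall fun r => ?_)
    · exact ((ND_cont hA).mul (by fun_prop)).aestronglyMeasurable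
    · rw [hpt, Real.norm_eq_abs, abs_of_nonneg (mul_nonneg (SAbs_MMb_nonneg ha r) (Real.exp_pos _).le)]
      exact mul_le_mul_of_nonneg_right (SAbs_MMb_le ha r) (Real.exp_pos _).le
  refine ⟨h3, ?_⟩
  unfold TT
  rw [← h2, ← integral_const_mul]
  refine setIntegral_mono h3 (h1.const_mul _) fun r => ?_
  simp only
  rw [hpt]
  exact mul_le_mul_of_nonneg_right (SAbs_MMb_le ha r) (Real.exp_pos _).le

/-- `abs2` -/
theorem SAbs_two : ∃ C : ℝ, 0 ≤ C ∧ ∀ a : ℝ → ℝ, Bd a → ∀ P : ℝ, 0 < P → P ≤ 1 → ∀ m : ℝ,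
    80 * m * TT a (Real.log (P / 16) - 4) ≤
      3 * π / 128 * (∫ r, sP P r * Am (3 / 2) a r ^ 2) + C * (m ^ 2 / P ^ 3) := by
  set s0 := Real.sqrt (Real.exp (-4) / 16 / (Real.exp (-4) / 16 + 1)) with hs0
  have hs0p : 0 < s0 := Real.sqrt_pos.mpr (by positivity)
  set ε := 3 * π / 128 * s0 with hε
  have hε0 : 0 < ε := by
    have := Real.pi_pos
    positivity
  refine ⟨1600 / ε * (Real.exp 12 * 16 ^ 3 / 3), by positivity, ?_⟩
  intro a ha P hP hP1 m
  have hA : Adm (Am (3 / 2) a) (Amd (3 / 2) a) := adm_Am ha (by norm_num)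
  obtain ⟨j1, -⟩ := PP_int ha hP
  set ρ := Real.log (P / 16) - 4 with hρ
  have heρ : Real.exp ρ = P * (Real.exp (-4) / 16) := by
    rw [hρ, Real.exp_sub, Real.exp_log (by positivity), Real.exp_neg]
    ring
  obtain ⟨h1, h2⟩ := SAbs_exp3 ρ
  have he3 : Real.exp (-3 * ρ) = Real.exp 12 * 16 ^ 3 / P ^ 3 := by
    have e1 : Real.exp (-3 * ρ) = (Real.exp ρ ^ 3)⁻¹ := by
      rw [← Real.exp_nat_mul, ← Real.exp_neg]
      congr 1
      push_cast
      ring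
    have e2 : Real.exp 12 = (Real.exp (-4) ^ 3)⁻¹ := by
      rw [← Real.exp_nat_mul, ← Real.exp_neg]
      congr 1
      push_cast
      ring
    have e3 := Real.exp_pos (-4)
    rw [e1, heρ, e2]
    field_simp
  obtain ⟨h3, -⟩ := SAbs_TT ha ρ
  have hpt : ∀ r ∈ Ioi ρ, 80 * m * (Am (3 / 2) a r * Real.exp (-(3 / 2 * r))) ≤
      3 * π / 128 * (sP P r * Am (3 / 2) a r ^ 2) + 1600 / ε * m ^ 2 * Real.exp (-3 * r) := by
    intro r hr
    have k1 : P * (Real.exp (-4) / 16) ≤ Real.exp r := by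
      rw [← heρ]
      exact Real.exp_le_exp.mpr (le_of_lt hr)
    have k2 := SAbs_sP hP (by positivity) k1
    have k3 : s0 ≤ Real.sqrt (P * (Real.exp (-4) / 16) / (P * (Real.exp (-4) / 16) + P)) := by
      rw [hs0]
      refine Real.sqrt_le_sqrt (le_of_eq ?_)
      have := Real.exp_pos (-4)
      field_simp
    have k4 : s0 ≤ sP P r := k3.trans k2
    have k5 : ε * Am (3 / 2) a r ^ 2 ≤ 3 * π / 128 * (sP P r * Am (3 / 2) a r ^ 2) := by
      rw [hε, mul_assoc]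
      refine mul_le_mul_of_nonneg_left (mul_le_mul_of_nonneg_right k4 (sq_nonneg _)) ?_
      have := Real.pi_pos
      positivity
    have k6 : Real.exp (-3 * r) = Real.exp (-(3 / 2 * r)) ^ 2 := by
      rw [← Real.exp_nat_mul]
      congr 1
      push_cast
      ring
    have k7 : 0 ≤ ε * (Am (3 / 2) a r - 40 / ε * (m * Real.exp (-(3 / 2 * r)))) ^ 2 := by positivity
    have k8 : ε * (Am (3 / 2) a r - 40 / ε * (m * Real.exp (-(3 / 2 * r)))) ^ 2 =
        ε * Am (3 / 2) a r ^ 2 - 80 * m * (Am (3 / 2) a r * Real.exp (-(3 / 2 * r))) +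
          1600 / ε * m ^ 2 * Real.exp (-(3 / 2 * r)) ^ 2 := by
      field_simp
      ring
    rw [k6]
    linarith
  have q1 : IntegrableOn (fun r => 3 * π / 128 * (sP P r * Am (3 / 2) a r ^ 2)) (Ioi ρ) :=
    (j1.const_mul _).integrableOn
  have q2 : IntegrableOn (fun r => 1600 / ε * m ^ 2 * Real.exp (-3 * r)) (Ioi ρ) := h1.const_mul _
  have h4 : 80 * m * TT a ρ ≤ ∫ r in Ioi ρ, (3 * π / 128 * (sP P r * Am (3 / 2) a r ^ 2) +
      1600 / ε * m ^ 2 * Real.exp (-3 * r)) := by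
    unfold TT
    rw [← integral_const_mul]
    exact setIntegral_mono_on (h3.const_mul _) (q1.add q2) measurableSet_Ioi hpt
  rw [integral_add q1 q2, integral_const_mul, integral_const_mul, h2, he3] at h4
  have h5 : ∫ r in Ioi ρ, sP P r * Am (3 / 2) a r ^ 2 ≤ ∫ r, sP P r * Am (3 / 2) a r ^ 2 :=
    setIntegral_le_integral j1 (Eventually.of_forall fun r => by
      have := (SEP_le1 hP r).1
      positivity)
  have h6 := mul_le_mul_of_nonneg_left h5 (show 0 ≤ 3 * π / 128 by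
    have := Real.pi_pos
    positivity)
  have h7 : 1600 / ε * m ^ 2 * (Real.exp 12 * 16 ^ 3 / P ^ 3 / 3) =
      1600 / ε * (Real.exp 12 * 16 ^ 3 / 3) * (m ^ 2 / P ^ 3) := by
    ring
  linarith

/-- `abs3` -/
theorem SAbs_three {a : ℝ → ℝ} (ha : Bd a) {P : ℝ} (hP : 0 < P) (hP1 : P ≤ 1) :
    23 * ms a ^ 2 ≤ 3 * π / 128 * (∫ r, sP P r * Am (3 / 2) a r ^ 2) + 46 * Vm a ^ 2 := by
  have hA : Adm (Am (3 / 2) a) (Amd (3 / 2) a) := adm_Am ha (by norm_num)
  obtain ⟨j1, -⟩ := PP_int ha hP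
  set ρ := Real.log (1 / 36) with hρ
  set M0 := MMb a ρ with hM0
  have hM00 : 0 ≤ M0 := SAbs_MMb_nonneg ha ρ
  have heρ : Real.exp ρ = 1 / 36 := Real.exp_log (by norm_num)
  have hms : ms a = M0 + Vm a := by
    have h1 : th ρ = 2 * Real.arctan (1 / 36) := by
      unfold th
      rw [heρ]
    rw [hM0]
    unfold ms MMb Vm
    rw [← h1, intervalIntegral.integral_add_adjacent_intervals (ha.c.intervalIntegrable _ _)
      (ha.c.intervalIntegrable _ _)]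
  obtain ⟨h1, h2⟩ := SAbs_exp3 ρ
  have he3 : Real.exp (-3 * ρ) = 36 ^ 3 := by
    have e1 : Real.exp (-3 * ρ) = (Real.exp ρ ^ 3)⁻¹ := by
      rw [← Real.exp_nat_mul, ← Real.exp_neg]
      congr 1
      push_cast
      ring
    rw [e1, heρ]
    norm_num
  have hpt : ∀ r ∈ Ioi ρ, 1 / 7 * M0 ^ 2 * Real.exp (-3 * r) ≤ sP P r * Am (3 / 2) a r ^ 2 := by
    intro r hr
    have k1 : (1:ℝ) / 36 ≤ Real.exp r := by
      rw [← heρ]
      exact Real.exp_le_exp.mpr (le_of_lt hr)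
    have k2 := SAbs_sP hP (by norm_num) k1
    have k3 : (1:ℝ) / 7 ≤ Real.sqrt (1 / 36 / (1 / 36 + P)) := by
      refine Real.le_sqrt_of_sq_le ?_
      rw [div_pow, div_le_div_iff₀ (by norm_num) (by positivity)]
      nlinarith
    have k4 : (1:ℝ) / 7 ≤ sP P r := k3.trans k2
    have k5 : M0 ≤ MMb a r := CA_MMb_mono ha (le_of_lt hr)
    have k6 : Am (3 / 2) a r ^ 2 = Real.exp (-3 * r) * MMb a r ^ 2 := by
      unfold Am
      rw [mul_pow, ← Real.exp_nat_mul]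
      congr 2
      push_cast
      ring
    rw [k6]
    have k7 : M0 ^ 2 ≤ MMb a r ^ 2 := pow_le_pow_left₀ hM00 k5 2
    have k8 := Real.exp_pos (-3 * r)
    calc 1 / 7 * M0 ^ 2 * Real.exp (-3 * r) ≤ sP P r * MMb a r ^ 2 * Real.exp (-3 * r) := by
          refine mul_le_mul_of_nonneg_right ?_ k8.le
          exact mul_le_mul k4 k7 (sq_nonneg _) (by linarith)
      _ = sP P r * (Real.exp (-3 * r) * MMb a r ^ 2) := by ring
  have h4 : ∫ r in Ioi ρ, 1 / 7 * M0 ^ 2 * Real.exp (-3 * r) ≤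
      ∫ r in Ioi ρ, sP P r * Am (3 / 2) a r ^ 2 :=
    setIntegral_mono_on (h1.const_mul _) j1.integrableOn measurableSet_Ioi hpt
  have h5 : ∫ r in Ioi ρ, sP P r * Am (3 / 2) a r ^ 2 ≤ ∫ r, sP P r * Am (3 / 2) a r ^ 2 :=
    setIntegral_le_integral j1 (Eventually.of_forall fun r => by
      have := (SEP_le1 hP r).1
      positivity)
  rw [integral_const_mul, h2, he3] at h4
  have h6 := Real.pi_gt_three
  have h7 : 1 / 7 * M0 ^ 2 * (36 ^ 3 / 3) ≤ ∫ r, sP P r * Am (3 / 2) a r ^ 2 := h4.trans h5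
  have h8 : 9 / 128 * (1 / 7 * M0 ^ 2 * (36 ^ 3 / 3)) ≤
      3 * π / 128 * ∫ r, sP P r * Am (3 / 2) a r ^ 2 := by
    refine mul_le_mul (by linarith) h7 (by positivity) (by positivity)
  rw [hms]
  nlinarith [sq_nonneg (M0 - Vm a)]

theorem AL1 : ∃ C : ℝ, 0 ≤ C ∧ ∀ a b : ℝ → ℝ, Bd a → Bd b → ∀ P : ℝ, 0 < P → P ≤ 1 →
    -(C * (ms b ^ 2 / P ^ 3 + Vm a ^ 2)) ≤
      N3 a + N3 b + tf a a (kpp P) + tf a b (kpn (P / 16)) - 1 / 2 * (ms a * J1 a) := by
  obtain ⟨C, hC, h2⟩ := SAbs_two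
  refine ⟨C + 46, by positivity, ?_⟩
  intro a b ha hb P hP hP1
  have g1 := PP_low ha hP
  have g2 := (PN_form ha hb (Real.log (P / 16))).2
  rw [Real.exp_log (by positivity)] at g2
  have g3 := comb_A ha hP
  have g4 := comb_B hb (Real.log (P / 16))
  have g5 := SAbs_J1_le ha
  have g6 := h2 a ha P hP hP1 (ms b)
  have g7 := SAbs_three ha hP hP1
  have g8 : 0 ≤ ms b ^ 2 / P ^ 3 := by positivity
  have g9 : 0 ≤ C * Vm a ^ 2 := by positivity
  nlinarith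

theorem AL2 : ∃ C : ℝ, 0 ≤ C ∧ ∀ a b : ℝ → ℝ, Bd a → Bd b →
    -(C * (ms a ^ 2 + ms b ^ 2)) ≤ N3 a + N3 b + tf a b (kpn (1 / 16)) := by
  refine ⟨40 * (Real.exp (-3 * (Real.log (1 / 16) - 4)) / 3), by positivity, ?_⟩
  intro a b ha hb
  have g2 := (PN_form ha hb (Real.log (1 / 16))).2
  rw [Real.exp_log (by norm_num)] at g2
  have g3 := comb_B ha (Real.log (1 / 16))
  have g4 := comb_B hb (Real.log (1 / 16))
  have g5 := (SAbs_TT ha (Real.log (1 / 16) - 4)).2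
  set E := Real.exp (-3 * (Real.log (1 / 16) - 4)) / 3 with hE
  have hE0 : 0 ≤ E := by positivity
  have g6 := SAbs_ms_nonneg ha
  have g7 := SAbs_ms_nonneg hb
  have g8 : 80 * ms b * TT a (Real.log (1 / 16) - 4) ≤ 80 * ms b * (ms a * E) :=
    mul_le_mul_of_nonneg_left g5 (by positivity)
  have g9 : 0 ≤ 40 * E * (ms a - ms b) ^ 2 := by positivity
  nlinarith

end Pool.Agent.H44.DE
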