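import Pool.Agent.H44.DE.SAbs
import Pool.Agent.H53.DE.Bud
import Pool.Agent.H53.DE.Lim

/-!
# DE-S: static assembly
-/

set_option autoImplicit false
open Real Set MeasureTheory Filter Topology

namespace Pool.Agent.H44.DE
open Pool.Agent.H45.FL Pool.Agent.H51.DG Pool.Agent.H45.DY Pool.Agent.H90.DC Pool.Agent.H90.DE
open Pool.Agent.H53.DE

theorem Asm_cF {W : ℝ → ℝ} {K : ℝ} (h : Lip K W) : Continuous (bF W) := by
  unfold bF
  exact h.continuous.max continuous_const

theorem Asm_cR {W : ℝ → ℝ} {K : ℝ} (h : Lip K W) : Continuous (bR W) := by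
  unfold bR
  exact h.continuous.neg.max continuous_const

theorem ms_bE {W : ℝ → ℝ} {l K : ℝ} (h : OddE W l) (hK : Lip K W) :
    ms (bE W l) = ∫ x in (0:ℝ)..l, bR W x := by
  have hc := Asm_cR hK
  have hcb : Continuous (fun x => bR W (l - x)) := hc.comp (continuous_const.sub continuous_id)
  have e1 : ∫ x in (0:ℝ)..l, bE W l x = ∫ x in (0:ℝ)..l, bR W x := by
    have h1 : ∫ x in (0:ℝ)..l, bE W l x = ∫ x in (0:ℝ)..l, bR W (l - x) := by
      refine intervalIntegral.integral_congr fun x hx => ?_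
      rw [uIcc_of_le h.l0.le] at hx
      show bE W l x = bR W (l - x)
      unfold bE
      rw [if_pos hx.2]
    rw [h1, intervalIntegral.integral_comp_sub_left (fun x => bR W x), sub_self, sub_zero]
  have e2 : ∫ x in l..π, bE W l x = 0 := by
    have h1 : ∫ x in l..π, bE W l x = ∫ x in l..π, (0:ℝ) := by
      refine intervalIntegral.integral_congr_ae (Filter.Eventually.of_forall fun x hx => ?_)
      rw [uIoc_of_le h.l1.le] at hx
      unfold bE
      rw [if_neg (not_le.2 hx.1)]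
    rw [h1, intervalIntegral.integral_zero]
  have i1 : IntervalIntegrable (bE W l) volume 0 l := by
    refine (hcb.intervalIntegrable 0 l).congr_ae ?_
    refine (ae_restrict_iff' measurableSet_uIoc).2 (Filter.Eventually.of_forall fun x hx => ?_)
    rw [uIoc_of_le h.l0.le] at hx
    unfold bE
    rw [if_pos hx.2]
  have i2 : IntervalIntegrable (bE W l) volume l π := by
    refine (intervalIntegrable_const (c := (0:ℝ))).congr_ae ?_
    refine (ae_restrict_iff' measurableSet_uIoc).2 (Filter.Eventually.of_forall fun x hx => ?_)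
    rw [uIoc_of_le h.l1.le] at hx
    unfold bE
    rw [if_neg (not_le.2 hx.1)]
  unfold ms
  rw [← intervalIntegral.integral_add_adjacent_intervals i1 i2, e1, e2, add_zero]

/-- the mass of `aE` from `ξ0` on -/
theorem int_aE {W : ℝ → ℝ} {l K : ℝ} (h : OddE W l) (hK : Lip K W) {ξ0 : ℝ}
    (h1 : ξ0 ≤ π - l) : ∫ x in ξ0..π, aE W l x = ∫ x in (l + ξ0)..π, bF W x := by
  have hc := Asm_cF hK
  have hcb : Continuous (fun x => bF W (l + x)) := hc.comp (continuous_const.add continuous_id)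
  have hl : π - l ≤ π := by linarith [h.l0]
  have e1 : ∫ x in ξ0..(π - l), aE W l x = ∫ x in (l + ξ0)..π, bF W x := by
    have h1 : ∫ x in ξ0..(π - l), aE W l x = ∫ x in ξ0..(π - l), bF W (l + x) := by
      refine intervalIntegral.integral_congr fun x hx => ?_
      rw [uIcc_of_le h1] at hx
      show aE W l x = bF W (l + x)
      unfold aE
      rw [if_pos hx.2]
    rw [h1, intervalIntegral.integral_comp_add_left (fun x => bF W x), add_sub_cancel]
  have e2 : ∫ x in (π - l)..π, aE W l x = 0 := by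
    have h1 : ∫ x in (π - l)..π, aE W l x = ∫ x in (π - l)..π, (0:ℝ) := by
      refine intervalIntegral.integral_congr_ae (Filter.Eventually.of_forall fun x hx => ?_)
      rw [uIoc_of_le hl] at hx
      unfold aE
      rw [if_neg (not_le.2 hx.1)]
    rw [h1, intervalIntegral.integral_zero]
  have i1 : IntervalIntegrable (aE W l) volume ξ0 (π - l) := by
    refine (hcb.intervalIntegrable ξ0 (π - l)).congr_ae ?_
    refine (ae_restrict_iff' measurableSet_uIoc).2 (Filter.Eventually.of_forall fun x hx => ?_)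
    rw [uIoc_of_le h1] at hx
    unfold aE
    rw [if_pos hx.2]
  have i2 : IntervalIntegrable (aE W l) volume (π - l) π := by
    refine (intervalIntegrable_const (c := (0:ℝ))).congr_ae ?_
    refine (ae_restrict_iff' measurableSet_uIoc).2 (Filter.Eventually.of_forall fun x hx => ?_)
    rw [uIoc_of_le hl] at hx
    unfold aE
    rw [if_neg (not_le.2 hx.1)]
  rw [← intervalIntegral.integral_add_adjacent_intervals i1 i2, e1, e2, add_zero]

theorem ms_aE {W : ℝ → ℝ} {l K : ℝ} (h : OddE W l) (hK : Lip K W) :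
    ms (aE W l) = ∫ x in l..π, bF W x := by
  unfold ms
  rw [int_aE h hK (by linarith [h.l1]), add_zero]

theorem Asm_atan : 0 < Real.arctan (1 / 36) ∧ Real.arctan (1 / 36) ≤ 1 / 36 ∧
    Real.tan ((π - 2 * Real.arctan (1 / 36)) / 2) = 36 := by
  have h0 : 0 < Real.arctan (1 / 36) := by
    rw [← Real.arctan_zero]
    exact Real.arctan_strictMono (by norm_num)
  have h1 : Real.arctan (1 / 36) ≤ 1 / 36 := by
    have h2 := Real.le_tan h0.le (Real.arctan_lt_pi_div_two _)
    rwa [Real.tan_arctan] at h2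
  refine ⟨h0, h1, ?_⟩
  rw [show (π - 2 * Real.arctan (1 / 36)) / 2 = π / 2 - Real.arctan (1 / 36) by ring,
    Real.tan_pi_div_two_sub, Real.tan_arctan]
  norm_num

theorem Vm_aE {W : ℝ → ℝ} {l K : ℝ} (h : OddE W l) (hK : Lip K W) (hl : l ≤ π / 4) :
    0 ≤ Vm (aE W l) ∧ Vm (aE W l) ≤ ∫ x in (2 * Real.arctan (1 / 36))..π, bF W x := by
  obtain ⟨t0, t1, -⟩ := Asm_atan
  have hpi := Real.pi_gt_three
  have hc := Asm_cF hK
  have hn : ∀ x, 0 ≤ bF W x := fun x => le_max_right _ _
  have e : Vm (aE W l) = ∫ x in (l + 2 * Real.arctan (1 / 36))..π, bF W x := by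
    unfold Vm
    rw [int_aE h hK (by linarith)]
  have h0 := h.l0
  rw [e]
  constructor
  · exact intervalIntegral.integral_nonneg (by linarith) fun x _ => hn x
  · have h2 := intervalIntegral.integral_add_adjacent_intervals
      (hc.intervalIntegrable (μ := volume) (2 * Real.arctan (1 / 36)) (l + 2 * Real.arctan (1 / 36)))
      (hc.intervalIntegrable (μ := volume) (l + 2 * Real.arctan (1 / 36)) π)
    rw [← h2]
    have h3 : 0 ≤ ∫ x in (2 * Real.arctan (1 / 36))..(l + 2 * Real.arctan (1 / 36)), bF W x :=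
      intervalIntegral.integral_nonneg (by linarith) fun x _ => hn x
    linarith

/-- `2 tan (l/2) ≤ tan l` -/
theorem Asm_tan {l : ℝ} (h0 : 0 < l) (h1 : l < π / 2) :
    0 < Real.tan (l / 2) ∧ 2 * Real.tan (l / 2) ≤ Real.tan l := by
  have ht : 0 < Real.tan (l / 2) := Real.tan_pos_of_pos_of_lt_pi_div_two (by linarith)
    (by linarith)
  refine ⟨ht, ?_⟩
  have ht1 : Real.tan (l / 2) < 1 := by
    rw [← Real.tan_pi_div_four]
    exact Real.tan_lt_tan_of_lt_of_lt_pi_div_two (by linarith [Real.pi_pos])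
      (by linarith [Real.pi_pos]) (by linarith)
  have e : Real.tan l = 2 * Real.tan (l / 2) / (1 - Real.tan (l / 2) ^ 2) := by
    rw [← Real.tan_two_mul, show 2 * (l / 2) = l by ring]
  rw [e, le_div_iff₀ (by nlinarith)]
  nlinarith [mul_pos ht ht, mul_pos (mul_pos ht ht) ht]

theorem asm {C1 C2 : ℝ} (hC1 : 0 ≤ C1) (hC2 : 0 ≤ C2)
    (A1 : ∀ a b : ℝ → ℝ, Bd a → Bd b → ∀ P : ℝ, 0 < P → P ≤ 1 →
      -(C1 * (ms b ^ 2 / P ^ 3 + Vm a ^ 2)) ≤
        N3 a + N3 b + tf a a (kpp P) + tf a b (kpn (P / 16)) - 1 / 2 * (ms a * J1 a))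
    (A2 : ∀ a b : ℝ → ℝ, Bd a → Bd b →
      -(C2 * (ms a ^ 2 + ms b ^ 2)) ≤ N3 a + N3 b + tf a b (kpn (1 / 16)))
    {W : ℝ → ℝ} {l : ℝ} (h : VanA W l) (hl : l < π / 2)
    (ha : Bd (aE W l)) (hb : Bd (bE W l))
    (R1 : l ≤ π / 4 → N3 (aE W l) + N3 (bE W l) + tf (aE W l) (aE W l) (kpp (Real.tan l))
      + tf (aE W l) (bE W l) (kpn (Real.tan l / 16)) - 1 / 2 * (ms (aE W l) * J1 (aE W l)) ≤
      8 * π * (TF W l - 9 / 8 * EFEk W))
    (R2 : π / 4 ≤ l → N3 (aE W l) + N3 (bE W l)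
      + tf (aE W l) (bE W l) (kpn (1 / 16)) - 9 / 2 * ms (aE W l) ^ 2 ≤
      8 * π * (TF W l - 9 / 8 * EFEk W)) :
    9 / 8 * EFEk W ≤ TF W l + ((C1 + C2 + 9 / 2) * 746496) * (BN W l + BP W l) := by
  obtain ⟨K, hK⟩ := h.lip
  obtain ⟨δ, hδ, v0, vl, vp⟩ := h.van
  have hO := h.toOddE
  have hpi := Real.pi_gt_three
  have hpi4 := Real.pi_lt_d2
  have hBN := BN_ge hO hK hδ v0 hO.l0 hO.l1
  rw [← ms_bE hO hK] at hBN
  have hBN0 := BN_nonneg hO hK hδ v0
  have hBP0 := BP_nonneg hO hK hδ vp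
  obtain ⟨t0, t1⟩ := Asm_tan hO.l0 hl
  rcases le_total l (π / 4) with hl4 | hl4
  · have hA := A1 _ _ ha hb (Real.tan l) (by linarith) (by
      rw [← Real.tan_pi_div_four]
      rcases eq_or_lt_of_le hl4 with e | e
      · rw [e]
      · exact (Real.tan_lt_tan_of_lt_of_lt_pi_div_two (by linarith [hO.l0])
          (by linarith) e).le)
    have hR := R1 hl4
    obtain ⟨s0, s1, s2⟩ := Asm_atan
    have hBP := BP_ge hO hK hδ vp (θ := π - 2 * Real.arctan (1 / 36)) (by linarith) (by linarith)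
    rw [s2, show π - (π - 2 * Real.arctan (1 / 36)) = 2 * Real.arctan (1 / 36) by ring] at hBP
    obtain ⟨w0, w1⟩ := Vm_aE hO hK hl4
    have hV : Vm (aE W l) ^ 2 ≤ 746496 * BP W l := by
      have h2 : Vm (aE W l) ^ 2 ≤ (∫ x in (2 * Real.arctan (1 / 36))..π, bF W x) ^ 2 :=
        pow_le_pow_left₀ w0 w1 2
      rw [div_le_iff₀ (by norm_num)] at hBP
      nlinarith
    have hM : ms (bE W l) ^ 2 / Real.tan l ^ 3 ≤ 2 * BN W l := by
      have hP : 0 < Real.tan l := by linarith
      rw [div_le_iff₀ (by positivity)] at hBN ⊢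
      have h3 : 8 * Real.tan (l / 2) ^ 3 ≤ Real.tan l ^ 3 := by
        have := pow_le_pow_left₀ (by positivity) t1 3
        nlinarith
      have h4 := mul_le_mul_of_nonneg_left h3 hBN0
      nlinarith
    have hfin : C1 * (ms (bE W l) ^ 2 / Real.tan l ^ 3 + Vm (aE W l) ^ 2) ≤
        C1 * (746496 * (BN W l + BP W l)) := by
      refine mul_le_mul_of_nonneg_left ?_ hC1
      linarith
    have hS : 0 ≤ 746496 * (BN W l + BP W l) := by positivity
    have h5 : 0 ≤ (C2 + 9 / 2) * (746496 * (BN W l + BP W l)) := by positivity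
    have h6 : 0 ≤ 8 * π * (TF W l - 9 / 8 * EFEk W) + (C1 + C2 + 9 / 2) * (746496 * (BN W l + BP W l)) := by
      linarith
    have h7 : 0 ≤ (C1 + C2 + 9 / 2) * (746496 * (BN W l + BP W l)) := by positivity
    have h8 : 0 ≤ 8 * π * (TF W l - 9 / 8 * EFEk W +
        (C1 + C2 + 9 / 2) * (746496 * (BN W l + BP W l))) := by
      nlinarith
    have h9 := nonneg_of_mul_nonneg_right h8 (by positivity)
    linarith
  · have hA := A2 _ _ ha hb
    have hR := R2 hl4
    have hBP := BP_ge hO hK hδ vp (θ := π - l) (by linarith [hO.l1]) (by linarith [hO.l0])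
    rw [show π - (π - l) = l by ring, ← ms_aE hO hK] at hBP
    have htl : 3 / 8 ≤ Real.tan (l / 2) := by
      have := Real.le_tan (x := l / 2) (by linarith [hO.l0]) (by linarith)
      linarith
    have htl1 : Real.tan (l / 2) ≤ 1 := by
      rw [← Real.tan_pi_div_four]
      exact (Real.tan_lt_tan_of_lt_of_lt_pi_div_two (by linarith [hO.l0])
        (by linarith) (by linarith)).le
    have e : Real.tan ((π - l) / 2) = (Real.tan (l / 2))⁻¹ := by
      rw [show (π - l) / 2 = π / 2 - l / 2 by ring, Real.tan_pi_div_two_sub]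
    rw [e] at hBP
    have hiv : (Real.tan (l / 2))⁻¹ ≤ 8 / 3 := by
      rw [inv_le_comm₀ t0 (by norm_num)]
      linarith
    have hi0 : 0 < (Real.tan (l / 2))⁻¹ := inv_pos.2 t0
    have hm1 : ms (aE W l) ^ 2 ≤ 746496 * BP W l := by
      rw [div_le_iff₀ (by positivity)] at hBP
      have h3 : (Real.tan (l / 2))⁻¹ ^ 3 ≤ (8 / 3) ^ 3 := pow_le_pow_left₀ hi0.le hiv 3
      have h4 := mul_le_mul_of_nonneg_left h3 hBP0
      nlinarith
    have hm2 : ms (bE W l) ^ 2 ≤ 746496 * BN W l := by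
      rw [div_le_iff₀ (by positivity)] at hBN
      have h3 : Real.tan (l / 2) ^ 3 ≤ 1 ^ 3 := pow_le_pow_left₀ t0.le htl1 3
      have h4 := mul_le_mul_of_nonneg_left h3 hBN0
      nlinarith
    have hfin : C2 * (ms (aE W l) ^ 2 + ms (bE W l) ^ 2) + 9 / 2 * ms (aE W l) ^ 2 ≤
        (C2 + 9 / 2) * (746496 * (BN W l + BP W l)) := by
      have h1 : C2 * (ms (aE W l) ^ 2 + ms (bE W l) ^ 2) ≤ C2 * (746496 * (BN W l + BP W l)) :=
        mul_le_mul_of_nonneg_left (by linarith) hC2
      linarith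
    have h7 : 0 ≤ (C1 + C2 + 9 / 2) * (746496 * (BN W l + BP W l)) := by positivity
    have h6 : 0 ≤ C1 * (746496 * (BN W l + BP W l)) := by positivity
    have h8 : 0 ≤ 8 * π * (TF W l - 9 / 8 * EFEk W +
        (C1 + C2 + 9 / 2) * (746496 * (BN W l + BP W l))) := by
      nlinarith
    have h9 := nonneg_of_mul_nonneg_right h8 (by positivity)
    linarith

end Pool.Agent.H44.DE
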