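import Pool.Agent.H44.DE.Defs
import Pool.Agent.H90.DC.KBase
import Pool.Agent.H45.DE.KInt

/-!
# DE-S job 1: the kernel `EP`

`X = e^r`, `V = e^s`, `S = X + V + P`, `S0 = X + V`, `ρ = S0/S ∈ (0,1]`, `c = cc (r-s) = S0/√(XV)`.
* `EP_eq`: `EP P r s = ρ³ (1/c - 2/c³) + 3 ρ⁴/c³ - 46 ρ⁵/c⁵` (use `e^{(r+s)/2} c = X + V`,
  `X/V + V/X = c² - 2`, `cc_eq`).
* `EP_le`: `1/c - 2/c³ ≥ 0` (`c ≥ 2`), drop the last term, `ρ ≤ 1`.
* `EP_sq`: in the square `ρ ≤ 1/9` (`S0 ≤ P/8`), so `EP ≤ (1/729)(1/c - 2/c³) + (3/6561)/c³ ≤ (1/256)/c`.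
* `EP_abs`: `|EP| ≤ 1/c + 3/c³ + 46/c⁵ ≤ 5/c`.
* `EP_row`: with `q = X/(X+P)` and `s = σ + log (X+P)`: `V = (X+P) e^σ`, `S = (X+P)(1+e^σ)`,
  `EP = q^{5/2} e^{5σ/2} [(q^{-2} + e^{-2σ})(1+e^σ)^{-3} + 3(q^{-1} + e^{-σ})(1+e^σ)^{-4} - 46 (1+e^σ)^{-5}]`
  `= q^{1/2} e^σ/c³ + q^{5/2} e^{-σ}/c³ + 3 q^{3/2} e^{σ/2}/c⁴ + 3 q^{5/2} e^{-σ/2}/c⁴ - 46 q^{5/2}/c⁵`, `c = cc σ`;
  the integral over `σ`: `∫ e^{±σ}/c³ = ∫ cosh σ/c³ = ∫ (c²/2 - 1)/c³`, `∫ e^{±σ/2}/c⁴ = ∫ cosh(σ/2)/c⁴ = (1/2) ∫ 1/c³`;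
  `∫ 1/c = π`, `∫ 1/c³ = π/8`, `∫ 1/c⁵ = 3π/128`
  (antiderivatives: `2 arctan (e^{σ/2})`..., see `H51/DG/KF.lean`, `H90/DC/KBase.lean`).  Sum:
  `π (3/8 q^{1/2} + 3/16 q^{3/2} - 33/64 q^{5/2}) ≥ (3π/64) q^{1/2}` as `(21 + 12 q - 33 q²)/64 ≥ 0` on `[0,1]`.
-/

set_option autoImplicit false
open Real Set MeasureTheory Filter Topology

namespace Pool.Agent.H44.DE
open Pool.Agent.H45.FL Pool.Agent.H51.DG Pool.Agent.H45.DY Pool.Agent.H90.DC Pool.Agent.H90.DE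

theorem SEP_exp (r : ℝ) : Real.exp r = Real.exp (r / 2) ^ 2 := by
  rw [← Real.exp_nat_mul]
  congr 1
  push_cast
  ring

theorem SEP_cc (r s : ℝ) : cc (r - s) =
    (Real.exp (r / 2) ^ 2 + Real.exp (s / 2) ^ 2) / (Real.exp (r / 2) * Real.exp (s / 2)) := by
  have h1 := Real.exp_pos (r / 2)
  have h2 := Real.exp_pos (s / 2)
  have h3 : Real.exp ((r - s) / 2) = Real.exp (r / 2) / Real.exp (s / 2) := by
    rw [← Real.exp_sub]
    congr 1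
    ring
  rw [cc_eq, Real.exp_neg, h3]
  field_simp

theorem SEP_eq (P r s : ℝ) : EP P r s =
    Real.exp (r / 2) * Real.exp (s / 2) * (Real.exp (r / 2) ^ 4 + Real.exp (s / 2) ^ 4) /
        (Real.exp (r / 2) ^ 2 + Real.exp (s / 2) ^ 2 + P) ^ 3 +
      3 * Real.exp (r / 2) ^ 3 * Real.exp (s / 2) ^ 3 *
        (Real.exp (r / 2) ^ 2 + Real.exp (s / 2) ^ 2) /
        (Real.exp (r / 2) ^ 2 + Real.exp (s / 2) ^ 2 + P) ^ 4 -
      46 * Real.exp (r / 2) ^ 5 * Real.exp (s / 2) ^ 5 /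
        (Real.exp (r / 2) ^ 2 + Real.exp (s / 2) ^ 2 + P) ^ 5 := by
  have h1 := Real.exp_pos (r / 2)
  have h2 := Real.exp_pos (s / 2)
  have e1 : Real.exp (3 / 2 * (r + s)) = Real.exp (r / 2) ^ 3 * Real.exp (s / 2) ^ 3 := by
    rw [← Real.exp_nat_mul, ← Real.exp_nat_mul, ← Real.exp_add]
    congr 1
    push_cast
    ring
  have e2 : Real.exp (r - s) = Real.exp (r / 2) ^ 2 / Real.exp (s / 2) ^ 2 := by
    rw [← SEP_exp, ← SEP_exp, Real.exp_sub]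
  have e3 : Real.exp (s - r) = Real.exp (s / 2) ^ 2 / Real.exp (r / 2) ^ 2 := by
    rw [← SEP_exp, ← SEP_exp, Real.exp_sub]
  have e4 : Real.exp (r + s) = Real.exp (r / 2) ^ 2 * Real.exp (s / 2) ^ 2 := by
    rw [← SEP_exp, ← SEP_exp, Real.exp_add]
  unfold EP
  rw [e1, e2, e3, e4, SEP_exp r, SEP_exp s]
  generalize Real.exp (r / 2) = x at h1
  generalize Real.exp (s / 2) = y at h2
  rw [mul_sub, mul_add]
  congr 1
  · congr 1
    · rw [← mul_div_assoc]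
      congr 1
      field_simp
    · ring
  · ring

theorem SEP_p {x y u S : ℝ} (hx : 0 < x) (hy : 0 < y) (hu : u = x ^ 2 + y ^ 2) (hS : u ≤ S) :
    x * y * (x ^ 4 + y ^ 4) / S ^ 3 ≤ x * y * (x ^ 4 + y ^ 4) / u ^ 3 ∧
    3 * x ^ 3 * y ^ 3 * u / S ^ 4 ≤ 3 * x ^ 3 * y ^ 3 / u ^ 3 ∧
    46 * x ^ 5 * y ^ 5 / S ^ 5 ≤ 46 * x ^ 5 * y ^ 5 / u ^ 5 := by
  have hu0 : 0 < u := by rw [hu]; positivity
  refine ⟨?_, ?_, ?_⟩
  · exact div_le_div_of_nonneg_left (by positivity) (by positivity) (pow_le_pow_left₀ hu0.le hS 3)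
  · have h1 : 3 * x ^ 3 * y ^ 3 / u ^ 3 = 3 * x ^ 3 * y ^ 3 * u / u ^ 4 := by
      field_simp
    rw [h1]
    exact div_le_div_of_nonneg_left (by positivity) (by positivity) (pow_le_pow_left₀ hu0.le hS 4)
  · exact div_le_div_of_nonneg_left (by positivity) (by positivity) (pow_le_pow_left₀ hu0.le hS 5)

theorem EP_le {P : ℝ} (hP : 0 ≤ P) (r s : ℝ) :
    EP P r s ≤ 1 / cc (r - s) + 1 / cc (r - s) ^ 3 := by
  rw [SEP_eq, SEP_cc]
  have hx := Real.exp_pos (r / 2)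
  have hy := Real.exp_pos (s / 2)
  generalize Real.exp (r / 2) = x at hx
  generalize Real.exp (s / 2) = y at hy
  obtain ⟨u, hu⟩ : ∃ u, u = x ^ 2 + y ^ 2 := ⟨_, rfl⟩
  have hu0 : 0 < u := by rw [hu]; positivity
  obtain ⟨h1, h2, -⟩ := SEP_p hx hy hu (show u ≤ u + P by linarith)
  rw [← hu]
  have h3 : 0 ≤ 46 * x ^ 5 * y ^ 5 / (u + P) ^ 5 := by positivity
  have h4 : x * y * (x ^ 4 + y ^ 4) / u ^ 3 + 3 * x ^ 3 * y ^ 3 / u ^ 3 =
      1 / (u / (x * y)) + 1 / (u / (x * y)) ^ 3 := by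
    have h5 : x ^ 4 + y ^ 4 = u ^ 2 - 2 * x ^ 2 * y ^ 2 := by rw [hu]; ring
    rw [h5]
    field_simp
    ring
  linarith

theorem SEP_xy {x y u : ℝ} (hx : 0 < x) (hy : 0 < y) (hu : u = x ^ 2 + y ^ 2) :
    x * y * (x ^ 4 + y ^ 4) / u ^ 3 ≤ x * y / u ∧
    3 * x ^ 3 * y ^ 3 / u ^ 3 ≤ 3 / 4 * (x * y / u) ∧
    46 * x ^ 5 * y ^ 5 / u ^ 5 ≤ 46 / 16 * (x * y / u) := by
  have hu0 : 0 < u := by rw [hu]; positivity
  have hxy : 0 < x * y := by positivity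
  have h1 : 2 * (x * y) ≤ u := by rw [hu]; nlinarith [sq_nonneg (x - y)]
  have h2 : 4 * (x * y) ^ 2 ≤ u ^ 2 := by nlinarith
  have h3 : 16 * (x * y) ^ 4 ≤ u ^ 4 := by
    have h4 : (4 * (x * y) ^ 2) ^ 2 ≤ (u ^ 2) ^ 2 := pow_le_pow_left₀ (by positivity) h2 2
    nlinarith
  refine ⟨?_, ?_, ?_⟩
  · rw [div_le_div_iff₀ (by positivity) hu0]
    have h5 : x ^ 4 + y ^ 4 ≤ u ^ 2 := by
      rw [hu]
      nlinarith [mul_pos (pow_pos hx 2) (pow_pos hy 2)]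
    calc x * y * (x ^ 4 + y ^ 4) * u ≤ x * y * u ^ 2 * u :=
          mul_le_mul_of_nonneg_right (mul_le_mul_of_nonneg_left h5 hxy.le) hu0.le
      _ = x * y * u ^ 3 := by ring
  · rw [div_mul_div_comm, div_le_div_iff₀ (by positivity) (by positivity)]
    have h5 := mul_le_mul_of_nonneg_left h2 (show 0 ≤ 3 * (x * y) * u by positivity)
    nlinarith
  · rw [div_mul_div_comm, div_le_div_iff₀ (by positivity) (by positivity)]
    have h5 := mul_le_mul_of_nonneg_left h3 (show 0 ≤ 46 * (x * y) * u by positivity)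
    nlinarith

theorem EP_sq {P : ℝ} (hP : 0 < P) {r s : ℝ} (hr : r < Real.log (P / 16))
    (hs : s < Real.log (P / 16)) : EP P r s ≤ 1 / 256 / cc (r - s) := by
  have hP16 : 0 < P / 16 := by positivity
  have kr : Real.exp (r / 2) ^ 2 < P / 16 := by
    rw [← SEP_exp]
    exact (Real.lt_log_iff_exp_lt hP16).mp hr
  have ks : Real.exp (s / 2) ^ 2 < P / 16 := by
    rw [← SEP_exp]
    exact (Real.lt_log_iff_exp_lt hP16).mp hs
  rw [SEP_eq, SEP_cc]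
  have hx := Real.exp_pos (r / 2)
  have hy := Real.exp_pos (s / 2)
  generalize Real.exp (r / 2) = x at hx kr
  generalize Real.exp (s / 2) = y at hy ks
  obtain ⟨u, hu⟩ : ∃ u, u = x ^ 2 + y ^ 2 := ⟨_, rfl⟩
  have hu0 : 0 < u := by rw [hu]; positivity
  rw [← hu]
  have hS : 9 * u ≤ u + P := by linarith
  obtain ⟨g1, g2, -⟩ := SEP_xy hx hy hu
  have h1 : x * y * (x ^ 4 + y ^ 4) / (u + P) ^ 3 ≤ 1 / 729 * (x * y * (x ^ 4 + y ^ 4) / u ^ 3) := by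
    have h5 : 1 / 729 * (x * y * (x ^ 4 + y ^ 4) / u ^ 3) =
        x * y * (x ^ 4 + y ^ 4) / (9 * u) ^ 3 := by
      field_simp
      norm_num
    rw [h5]
    exact div_le_div_of_nonneg_left (by positivity) (by positivity)
      (pow_le_pow_left₀ (by positivity) hS 3)
  have h2 : 3 * x ^ 3 * y ^ 3 * u / (u + P) ^ 4 ≤ 1 / 6561 * (3 * x ^ 3 * y ^ 3 / u ^ 3) := by
    have h5 : 1 / 6561 * (3 * x ^ 3 * y ^ 3 / u ^ 3) = 3 * x ^ 3 * y ^ 3 * u / (9 * u) ^ 4 := by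
      field_simp
      norm_num
    rw [h5]
    exact div_le_div_of_nonneg_left (by positivity) (by positivity)
      (pow_le_pow_left₀ (by positivity) hS 4)
  have h3 : 0 ≤ 46 * x ^ 5 * y ^ 5 / (u + P) ^ 5 := by positivity
  have h4 : 1 / 256 / (u / (x * y)) = 1 / 256 * (x * y / u) := by
    field_simp
  have h5 : 0 ≤ x * y / u := by positivity
  rw [h4]
  linarith

theorem EP_abs {P : ℝ} (hP : 0 ≤ P) (r s : ℝ) : |EP P r s| ≤ 5 / cc (r - s) := by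
  rw [SEP_eq, SEP_cc]
  have hx := Real.exp_pos (r / 2)
  have hy := Real.exp_pos (s / 2)
  generalize Real.exp (r / 2) = x at hx
  generalize Real.exp (s / 2) = y at hy
  obtain ⟨u, hu⟩ : ∃ u, u = x ^ 2 + y ^ 2 := ⟨_, rfl⟩
  have hu0 : 0 < u := by rw [hu]; positivity
  obtain ⟨h1, h2, h3⟩ := SEP_p hx hy hu (show u ≤ u + P by linarith)
  obtain ⟨g1, g2, g3⟩ := SEP_xy hx hy hu
  rw [← hu]
  have k1 : 0 ≤ x * y * (x ^ 4 + y ^ 4) / (u + P) ^ 3 := by positivity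
  have k2 : 0 ≤ 3 * x ^ 3 * y ^ 3 * u / (u + P) ^ 4 := by positivity
  have k3 : 0 ≤ 46 * x ^ 5 * y ^ 5 / (u + P) ^ 5 := by positivity
  have h4 : 5 / (u / (x * y)) = 5 * (x * y / u) := by field_simp
  have h5 : 0 ≤ x * y / u := by positivity
  rw [h4, abs_le]
  constructor <;> linarith

/-- three integrals -/
theorem int_cc1 : (Integrable fun τ => 1 / cc τ) ∧ ∫ τ, 1 / cc τ = π := by
  have h1 := int_inv (n := 1) le_rfl
  have h2 := Pool.Agent.H45.DE.ki1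
  simp only [pow_one] at h1 h2
  exact ⟨h1, h2⟩

theorem int_cc3 : (Integrable fun τ => 1 / cc τ ^ 3) ∧ ∫ τ, 1 / cc τ ^ 3 = π / 8 :=
  ⟨int_inv (by norm_num), Pool.Agent.H45.DE.ki3⟩

theorem int_cc5 : (Integrable fun τ => 1 / cc τ ^ 5) ∧ ∫ τ, 1 / cc τ ^ 5 = 3 * π / 128 :=
  ⟨int_inv (by norm_num), Pool.Agent.H45.DE.ki5⟩

/-- the kernel after the translation by `log (X + P)` -/
theorem SEP_shift {P : ℝ} (hP : 0 < P) (r σ : ℝ) :
    EP P r (σ + Real.log (Real.exp r + P)) =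
      sP P r * (Real.exp σ / cc σ ^ 3) + sP P r ^ 5 * (Real.exp (-σ) / cc σ ^ 3) +
      3 * sP P r ^ 3 * (Real.exp (σ / 2) / cc σ ^ 4) +
      3 * sP P r ^ 5 * (Real.exp (-(σ / 2)) / cc σ ^ 4) - 46 * sP P r ^ 5 * (1 / cc σ ^ 5) := by
  have hX := Real.exp_pos r
  have hD : 0 < Real.exp r + P := by positivity
  set w := Real.sqrt (Real.exp r + P) with hw
  have hw0 : 0 < w := Real.sqrt_pos.mpr hD
  have hw2 : w ^ 2 = Real.exp r + P := Real.sq_sqrt hD.le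
  set k := sP P r with hk
  have hk0 : 0 < k := by
    rw [hk]
    unfold sP
    exact Real.sqrt_pos.mpr (by positivity)
  have hk2 : k ^ 2 = Real.exp r / (Real.exp r + P) := by
    rw [hk]
    unfold sP
    exact Real.sq_sqrt (by positivity)
  have hz := Real.exp_pos (σ / 2)
  have hxk : Real.exp (r / 2) = k * w := by
    have h1 : Real.exp (r / 2) ^ 2 = (k * w) ^ 2 := by
      rw [mul_pow, hk2, hw2, ← SEP_exp]
      field_simp
    exact (pow_left_inj₀ (Real.exp_pos _).le (by positivity) two_ne_zero).mp h1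
  have hy : Real.exp ((σ + Real.log (Real.exp r + P)) / 2) = w * Real.exp (σ / 2) := by
    have h1 : Real.exp ((σ + Real.log (Real.exp r + P)) / 2) ^ 2 = (w * Real.exp (σ / 2)) ^ 2 := by
      rw [mul_pow, hw2, ← SEP_exp, ← SEP_exp, Real.exp_add, Real.exp_log hD]
      ring
    exact (pow_left_inj₀ (Real.exp_pos _).le (by positivity) two_ne_zero).mp h1
  rw [SEP_eq, hxk, hy]
  have hP' : P = w ^ 2 - (k * w) ^ 2 := by
    rw [hw2, mul_pow, hk2, hw2]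
    field_simp
    ring
  have e1 : Real.exp σ = Real.exp (σ / 2) ^ 2 := SEP_exp σ
  have e2 : Real.exp (-σ) = (Real.exp (σ / 2) ^ 2)⁻¹ := by rw [Real.exp_neg, e1]
  have e3 : Real.exp (-(σ / 2)) = (Real.exp (σ / 2))⁻¹ := Real.exp_neg _
  have e4 : cc σ = (Real.exp (σ / 2) ^ 2 + 1) / Real.exp (σ / 2) := by
    rw [cc_eq, e3]
    field_simp
  rw [e1, e2, e3, e4]
  generalize Real.exp (σ / 2) = z at hz
  have hS : (k * w) ^ 2 + (w * z) ^ 2 + P = w ^ 2 * (z ^ 2 + 1) := by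
    rw [hP']
    ring
  rw [hS]
  clear_value k w
  field_simp
  ring

theorem SEP_le1 {P : ℝ} (hP : 0 < P) (r : ℝ) : 0 < sP P r ∧ sP P r ≤ 1 := by
  have hX := Real.exp_pos r
  unfold sP
  constructor
  · exact Real.sqrt_pos.mpr (by positivity)
  · rw [Real.sqrt_le_iff]
    refine ⟨zero_le_one, ?_⟩
    rw [one_pow, div_le_one (by positivity)]
    linarith

/-- the row integral, exactly -/
theorem EP_row_eq {P : ℝ} (hP : 0 < P) (r : ℝ) :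
    Integrable (fun s => EP P r s) ∧
    ∫ s, EP P r s = π * (3 / 8 * sP P r + 3 / 16 * sP P r ^ 3 - 33 / 64 * sP P r ^ 5) := by
  set k := sP P r with hk
  set d := Real.log (Real.exp r + P) with hd
  have i1 := (Pool.Agent.H45.DE.ki_a_int).const_mul k
  have i2 := (Pool.Agent.H45.DE.ki_b_int).const_mul (k ^ 5)
  have i3 := (Pool.Agent.H45.DE.ki_c_int).const_mul (3 * k ^ 3)
  have i4 := (Pool.Agent.H45.DE.ki_d_int).const_mul (3 * k ^ 5)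
  have i5 := (int_cc5.1).const_mul (46 * k ^ 5)
  have hI : Integrable (fun σ => EP P r (σ + d)) :=
    (((((i1.add i2).add i3).add i4).sub i5)).congr
      (Eventually.of_forall fun σ => (SEP_shift hP r σ).symm)
  have hI2 : Integrable (fun s => EP P r s) := by
    have := hI.comp_add_right (-d)
    refine this.congr (Eventually.of_forall fun s => ?_)
    simp only [neg_add_cancel_right]
  refine ⟨hI2, ?_⟩
  rw [← integral_add_right_eq_self (fun s => EP P r s) d]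
  have e : ∀ σ, EP P r (σ + d) = (((k * (Real.exp σ / cc σ ^ 3) + k ^ 5 * (Real.exp (-σ) / cc σ ^ 3)) +
      3 * k ^ 3 * (Real.exp (σ / 2) / cc σ ^ 4)) +
      3 * k ^ 5 * (Real.exp (-(σ / 2)) / cc σ ^ 4)) - 46 * k ^ 5 * (1 / cc σ ^ 5) :=
    fun σ => SEP_shift hP r σ
  simp_rw [e]
  have j2 : Integrable fun σ : ℝ => k * (Real.exp σ / cc σ ^ 3) +
      k ^ 5 * (Real.exp (-σ) / cc σ ^ 3) := i1.add i2
  have j3 : Integrable fun σ : ℝ => k * (Real.exp σ / cc σ ^ 3) +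
      k ^ 5 * (Real.exp (-σ) / cc σ ^ 3) + 3 * k ^ 3 * (Real.exp (σ / 2) / cc σ ^ 4) := j2.add i3
  have j4 : Integrable fun σ : ℝ => k * (Real.exp σ / cc σ ^ 3) +
      k ^ 5 * (Real.exp (-σ) / cc σ ^ 3) + 3 * k ^ 3 * (Real.exp (σ / 2) / cc σ ^ 4) +
      3 * k ^ 5 * (Real.exp (-(σ / 2)) / cc σ ^ 4) := j3.add i4
  rw [integral_sub j4 i5, integral_add j3 i4, integral_add j2 i3, integral_add i1 i2]
  simp only [integral_const_mul]
  rw [Pool.Agent.H45.DE.ki_a, Pool.Agent.H45.DE.ki_b, Pool.Agent.H45.DE.ki_c,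
    Pool.Agent.H45.DE.ki_d, int_cc5.2]
  ring

theorem EP_row {P : ℝ} (hP : 0 < P) (r : ℝ) :
    3 * π / 64 * sP P r ≤ ∫ s, EP P r s := by
  rw [(EP_row_eq hP r).2]
  obtain ⟨h0, h1⟩ := SEP_le1 hP r
  generalize sP P r = k at h0 h1
  have h2 : k ^ 2 ≤ 1 := by nlinarith
  have h3 : 0 ≤ (1 - k ^ 2) * (21 + 33 * k ^ 2) * k := by
    have : 0 ≤ 1 - k ^ 2 := by linarith
    positivity
  have h4 : 3 / 64 * k ≤ 3 / 8 * k + 3 / 16 * k ^ 3 - 33 / 64 * k ^ 5 := by nlinarith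
  have h5 := mul_le_mul_of_nonneg_left h4 Real.pi_pos.le
  linarith

end Pool.Agent.H44.DE
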