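import Pool.Agent.H44.DE.SEP

/-!
# DE-S job 2: the function `ff` (uses `int_cc1`, `int_cc3`, `int_cc5`)

`v = c² ≥ 4` (`> 4` for `τ ≠ 0`), `2 Lpp = c/(v-4)` (`KE_two_Lpp` of H51/DG/KE.lean).
* `abs_ff_le`: `c (2Lpp - 9/100/c - ff) · v²(v-4) = 1.81 v³ + .635 v² - 69.5 v + 216 > 0` and
  `c (2Lpp - 9/100/c + ff) · v²(v-4) = .01 v³ + .085 v² + 69.5 v - 216 > 0` for `v > 4`.
* `ff_le`: `|ff| ≤ 20/c`.
* `ff_int`: `∫ ff = (162/128 - 31/64 - 9/10) π = -(19/160) π` (`= -.11875 π`).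
* `phi_nonpos`: `∫_{s<ρ} ff(r-s) ds = ∫ ff - ∫_{s>ρ} ff(r-s) ds`; for `s > ρ ≥ r + 4`: `c² ≥ 38.75`, so
  `ff (r-s) ≥ -1/c ≥ -e^{-|r-s|/2}` (`cc_exp`), the integral over `s > ρ` is `≥ -2 e^{-2} ≥ -.2707...`,
  `-(19/160) π + 2 e^{-2} < 0` (`e > 2.7182`, `π > 3.14`).
* `phi_le`: `|∫ ...| ≤ ∫ |ff| ≤ (162/128 + 31/64 + 9/10) π = 2.65 π ≤ 9`.
-/

set_option autoImplicit false
open Real Set MeasureTheory Filter Topology

namespace Pool.Agent.H44.DE
open Pool.Agent.H45.FL Pool.Agent.H51.DG Pool.Agent.H45.DY Pool.Agent.H90.DC Pool.Agent.H90.DE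

theorem abs_ff_le {τ : ℝ} (h : τ ≠ 0) : |ff τ| ≤ 2 * Lpp τ - 9 / 100 / cc τ := by
  have h1 := KE_sinh_pos h
  have h2 := cc_sinh_sq τ
  have h4 := cc_pos τ
  have h5 : 2 * Lpp τ = cc τ / (cc τ ^ 2 - 4) := KE_two_Lpp h
  rw [h5]
  unfold ff
  generalize cc τ = c at h2 h4
  have hw : 0 < c ^ 2 - 4 := by rw [← h2]; positivity
  obtain ⟨v, hv⟩ : ∃ v, v = c ^ 2 - 4 := ⟨_, rfl⟩
  have hv0 : 0 < v := by rw [hv]; exact hw
  have e1 : 54 / c ^ 5 - 31 / 8 / c ^ 3 - 9 / 10 / c =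
      (54 - 31 / 8 * (v + 4) - 9 / 10 * (v + 4) ^ 2) / c ^ 5 := by
    have : v + 4 = c ^ 2 := by rw [hv]; ring
    rw [this]
    field_simp
  have e2 : c / (c ^ 2 - 4) - 9 / 100 / c = ((v + 4) ^ 3 - 9 / 100 * (v + 4) ^ 2 * v) / (c ^ 5 * v) := by
    have h6 : v + 4 = c ^ 2 := by rw [hv]; ring
    rw [h6, ← hv]
    field_simp
  rw [e1, e2, abs_le]
  have hc5 : 0 < c ^ 5 := by positivity
  constructor
  · rw [neg_le, ← neg_div, div_le_div_iff₀ hc5 (by positivity)]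
    have h7 : -(54 - 31 / 8 * (v + 4) - 9 / 10 * (v + 4) ^ 2) * v ≤
        (v + 4) ^ 3 - 9 / 100 * (v + 4) ^ 2 * v := by
      nlinarith [mul_pos hv0 hv0, mul_pos (mul_pos hv0 hv0) hv0]
    calc -(54 - 31 / 8 * (v + 4) - 9 / 10 * (v + 4) ^ 2) * (c ^ 5 * v)
        = (-(54 - 31 / 8 * (v + 4) - 9 / 10 * (v + 4) ^ 2) * v) * c ^ 5 := by ring
      _ ≤ ((v + 4) ^ 3 - 9 / 100 * (v + 4) ^ 2 * v) * c ^ 5 :=
        mul_le_mul_of_nonneg_right h7 hc5.le
  · rw [div_le_div_iff₀ hc5 (by positivity)]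
    have h7 : (54 - 31 / 8 * (v + 4) - 9 / 10 * (v + 4) ^ 2) * v ≤
        (v + 4) ^ 3 - 9 / 100 * (v + 4) ^ 2 * v := by
      nlinarith [mul_pos hv0 hv0, mul_pos (mul_pos hv0 hv0) hv0]
    calc (54 - 31 / 8 * (v + 4) - 9 / 10 * (v + 4) ^ 2) * (c ^ 5 * v)
        = ((54 - 31 / 8 * (v + 4) - 9 / 10 * (v + 4) ^ 2) * v) * c ^ 5 := by ring
      _ ≤ ((v + 4) ^ 3 - 9 / 100 * (v + 4) ^ 2 * v) * c ^ 5 :=
        mul_le_mul_of_nonneg_right h7 hc5.le

theorem SFF_parts (τ : ℝ) : 1 / cc τ ^ 3 ≤ 1 / 4 * (1 / cc τ) ∧ 1 / cc τ ^ 5 ≤ 1 / 16 * (1 / cc τ) ∧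
    0 < 1 / cc τ ∧ 0 < 1 / cc τ ^ 3 ∧ 0 < 1 / cc τ ^ 5 := by
  have h1 := cc_ge τ
  have h2 := cc_pos τ
  generalize cc τ = c at h1 h2
  have h3 : 4 ≤ c ^ 2 := by nlinarith
  have h4 : 16 ≤ c ^ 4 := by nlinarith
  refine ⟨?_, ?_, by positivity, by positivity, by positivity⟩
  · rw [div_mul_div_comm, div_le_div_iff₀ (by positivity) (by positivity)]
    nlinarith
  · rw [div_mul_div_comm, div_le_div_iff₀ (by positivity) (by positivity)]
    nlinarith

theorem SFF_eq (τ : ℝ) : ff τ = 54 * (1 / cc τ ^ 5) - 31 / 8 * (1 / cc τ ^ 3) - 9 / 10 * (1 / cc τ) := by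
  unfold ff
  ring

theorem ff_le (τ : ℝ) : |ff τ| ≤ 20 / cc τ := by
  obtain ⟨h1, h2, h3, h4, h5⟩ := SFF_parts τ
  rw [SFF_eq, show 20 / cc τ = 20 * (1 / cc τ) by ring, abs_le]
  constructor <;> linarith

theorem ff_cont : Continuous ff := by
  have h1 := cont_inv 1
  have h3 := cont_inv 3
  have h5 := cont_inv 5
  simp only [pow_one] at h1
  have h : Continuous fun τ => 54 * (1 / cc τ ^ 5) - 31 / 8 * (1 / cc τ ^ 3) - 9 / 10 * (1 / cc τ) :=
    ((h5.const_mul 54).sub (h3.const_mul (31 / 8))).sub (h1.const_mul (9 / 10))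
  exact h.congr fun τ => (SFF_eq τ).symm

theorem ff_even (τ : ℝ) : ff (-τ) = ff τ := by
  unfold ff
  rw [cc_neg]

theorem ff_int : Integrable ff ∧ ∫ τ, ff τ = -(19 / 160) * π := by
  obtain ⟨i1, v1⟩ := int_cc1
  obtain ⟨i3, v3⟩ := int_cc3
  obtain ⟨i5, v5⟩ := int_cc5
  have j1 := i5.const_mul 54
  have j2 := i3.const_mul (31 / 8)
  have j3 := i1.const_mul (9 / 10)
  have j12 : Integrable fun τ => 54 * (1 / cc τ ^ 5) - 31 / 8 * (1 / cc τ ^ 3) := j1.sub j2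
  constructor
  · exact (j12.sub j3).congr (Eventually.of_forall fun τ => (SFF_eq τ).symm)
  · simp_rw [SFF_eq]
    rw [integral_sub j12 j3, integral_sub j1 j2, integral_const_mul, integral_const_mul,
      integral_const_mul, v1, v3, v5]
    ring

theorem SFF_int_sub (r : ℝ) : Integrable fun s => ff (r - s) := ff_int.1.comp_sub_left r

theorem phi_nonpos {r ρ : ℝ} (h : r ≤ ρ - 4) : ∫ s in Iio ρ, ff (r - s) ≤ 0 := by
  have hI := SFF_int_sub r
  have h1 : (∫ s in Iio ρ, ff (r - s)) + ∫ s in Ici ρ, ff (r - s) = -(19 / 160) * π := by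
    rw [← ff_int.2, ← integral_sub_left_eq_self ff volume r]
    have := integral_add_compl (measurableSet_Iio (a := ρ)) hI
    rwa [compl_Iio] at this
  have he : ∀ s : ℝ, HasDerivAt (fun s => -2 * Real.exp ((r - s) / 2)) (Real.exp ((r - s) / 2)) s := by
    intro s
    have h2 : HasDerivAt (fun s : ℝ => (r - s) / 2) (-1 / 2) s := by
      simpa using ((hasDerivAt_id s).const_sub r).div_const 2
    refine ((h2.exp).const_mul (-2)).congr_deriv ?_
    ring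
  have ht : Tendsto (fun s : ℝ => -2 * Real.exp ((r - s) / 2)) atTop (𝓝 (-2 * 0)) := by
    refine Tendsto.const_mul _ (Real.tendsto_exp_atBot.comp ?_)
    refine Tendsto.atBot_div_const (by norm_num) ?_
    exact tendsto_atBot_add_const_left _ r tendsto_neg_atTop_atBot
  have hi : IntegrableOn (fun s => Real.exp ((r - s) / 2)) (Ioi ρ) :=
    integrableOn_Ioi_deriv_of_nonneg' (fun s _ => he s) (fun s _ => (Real.exp_pos _).le) ht
  have hv : ∫ s in Ioi ρ, Real.exp ((r - s) / 2) = 2 * Real.exp ((r - ρ) / 2) := by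
    rw [integral_Ioi_of_hasDerivAt_of_tendsto' (fun s _ => he s) hi ht]
    ring
  have h3 : -(2 * Real.exp ((r - ρ) / 2)) ≤ ∫ s in Ici ρ, ff (r - s) := by
    rw [integral_Ici_eq_integral_Ioi, ← hv, ← integral_neg]
    refine setIntegral_mono_on hi.neg hI.integrableOn measurableSet_Ioi ?_
    intro s hs
    have hs' : ρ < s := hs
    have habs : |r - s| = s - r := by
      rw [abs_of_neg (by linarith)]
      ring
    have k1 := cc_exp (r - s)
    rw [habs] at k1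
    have k2 : (7:ℝ) ≤ Real.exp ((s - r) / 2) := by
      have e1 : Real.exp 2 ≤ Real.exp ((s - r) / 2) := Real.exp_le_exp.mpr (by linarith)
      have e2 : Real.exp 2 = Real.exp 1 * Real.exp 1 := by rw [← Real.exp_add]; norm_num
      have e3 := Real.exp_one_gt_d9
      nlinarith
    have k3 : 1 / cc (r - s) ≤ Real.exp ((r - s) / 2) := by
      have e1 : Real.exp ((r - s) / 2) = 1 / Real.exp ((s - r) / 2) := by
        rw [one_div, ← Real.exp_neg]
        congr 1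
        ring
      rw [e1]
      exact one_div_le_one_div_of_le (Real.exp_pos _) k1
    have k4 : 1 / cc (r - s) ^ 3 ≤ 1 / 49 * (1 / cc (r - s)) := by
      have h5 : 7 ≤ cc (r - s) := k2.trans k1
      generalize cc (r - s) = c at h5
      have h6 : 49 ≤ c ^ 2 := by nlinarith
      have h7 : 0 < c := by linarith
      rw [div_mul_div_comm, div_le_div_iff₀ (by positivity) (by positivity)]
      nlinarith
    obtain ⟨-, -, p3, p4, p5⟩ := SFF_parts (r - s)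
    rw [SFF_eq]
    linarith
  have h4 : Real.exp ((r - ρ) / 2) ≤ 1 / 7 := by
    have e1 : Real.exp ((r - ρ) / 2) ≤ Real.exp (-2) := Real.exp_le_exp.mpr (by linarith)
    have e2 : Real.exp (-2) = 1 / (Real.exp 1 * Real.exp 1) := by
      rw [← Real.exp_add, one_div, ← Real.exp_neg]
      norm_num
    have e3 := Real.exp_one_gt_d9
    have e4 : 1 / (Real.exp 1 * Real.exp 1) ≤ 1 / 7 := one_div_le_one_div_of_le (by norm_num) (by nlinarith)
    linarith
  have h5 := Real.pi_gt_d2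
  linarith

theorem phi_le (r ρ : ℝ) : |∫ s in Iio ρ, ff (r - s)| ≤ 9 := by
  obtain ⟨i1, v1⟩ := int_cc1
  obtain ⟨i3, v3⟩ := int_cc3
  obtain ⟨i5, v5⟩ := int_cc5
  have j1 := i5.const_mul 54
  have j2 := i3.const_mul (31 / 8)
  have j3 := i1.const_mul (9 / 10)
  have j12 : Integrable fun τ => 54 * (1 / cc τ ^ 5) + 31 / 8 * (1 / cc τ ^ 3) := j1.add j2
  have j : Integrable fun τ => 54 * (1 / cc τ ^ 5) + 31 / 8 * (1 / cc τ ^ 3) + 9 / 10 * (1 / cc τ) :=
    j12.add j3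
  have hI := SFF_int_sub r
  have hA : Integrable fun s => |ff (r - s)| := hI.abs
  calc |∫ s in Iio ρ, ff (r - s)| ≤ ∫ s in Iio ρ, |ff (r - s)| := abs_integral_le_integral_abs
    _ ≤ ∫ s, |ff (r - s)| := setIntegral_le_integral hA (Eventually.of_forall fun s => abs_nonneg _)
    _ = ∫ τ, |ff τ| := integral_sub_left_eq_self (fun τ => |ff τ|) volume r
    _ ≤ ∫ τ, (54 * (1 / cc τ ^ 5) + 31 / 8 * (1 / cc τ ^ 3) + 9 / 10 * (1 / cc τ)) := by
        refine integral_mono ff_int.1.abs j ?_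
        intro τ
        obtain ⟨-, -, p3, p4, p5⟩ := SFF_parts τ
        simp only
        rw [SFF_eq, abs_le]
        constructor <;> linarith
    _ = 53 / 20 * π := by
        rw [integral_add j12 j3, integral_add j1 j2, integral_const_mul, integral_const_mul,
          integral_const_mul, v1, v3, v5]
        ring
    _ ≤ 9 := by
        have := Real.pi_lt_d2
        linarith

end Pool.Agent.H44.DE
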