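import Pool.Agent.H44.DE.SEP
import Pool.Agent.H45.DE.Tail
import Pool.Agent.H45.DE.Dt
import Pool.Agent.H45.DE.Shr

/-!
# DE-S job 4: the mirror form of the arc P (uses `STail.lean`, `SEP.lean`)

`A = Am (3/2) a`, `MMb a u MMb a v = e^{3(u+v)/2} A u A v`.
* `PP_form`: `kpp = k⁺ - k⁻`; both are double tails (`tail_eq`), `S = e^u + e^v + P`:
  `k⁺ = 1/2 (e^{-u} + e^{-v}) S^{-2}`, `k1 = 1/2 e^{-u} S^{-2} + (1 + e^{u-v}) S^{-3}`,
  `k12 = (e^{v-u} + e^{u-v}) S^{-3} + 3 (e^u + e^v) S^{-4}`;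
  `k⁻ = 23/6 S^{-3}`, `k1 = 23/2 e^u S^{-4}`, `k12 = 46 e^{u+v} S^{-5}`.
  For `x ∈ (0,π)`: `e^{log tn x} = tn x` (`tn x > 0`).
* `PP_low`: `EP A A' = (1/2) EP (A² + A'²) - (1/2) EP (A - A')²`, `EP` symmetric, `EP A²` integrable
  (`|EP| ≤ 5/c`, `A²` integrable: `adm_Am`), Fubini, `EP_row`.
-/

set_option autoImplicit false
open Real Set MeasureTheory Filter Topology

namespace Pool.Agent.H44.DE
open Pool.Agent.H45.FL Pool.Agent.H51.DG Pool.Agent.H45.DY Pool.Agent.H90.DC Pool.Agent.H90.DE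

theorem SPP_EP_kP (P r s : ℝ) : EP P r s =
    Real.exp (3 / 2 * (r + s)) * Pool.Agent.H45.DE.kP P (Real.exp r) (Real.exp s) := by
  have h1 := Real.exp_pos r
  have h2 := Real.exp_pos s
  unfold EP Pool.Agent.H45.DE.kP
  rw [Real.exp_sub, Real.exp_sub, Real.exp_add r s]
  congr 1
  congr 1
  · congr 1
    have hne : Real.exp r * Real.exp s ≠ 0 := by positivity
    have e : Real.exp r / Real.exp s + Real.exp s / Real.exp r =
        (Real.exp r ^ 2 + Real.exp s ^ 2) / (Real.exp r * Real.exp s) := by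
      field_simp
    rw [e, div_div]

theorem SPP_cont {P : ℝ} (hP : 0 ≤ P) : Continuous fun z : ℝ × ℝ => EP P z.1 z.2 := by
  unfold EP
  have hS : Continuous fun z : ℝ × ℝ => Real.exp z.1 + Real.exp z.2 + P := by fun_prop
  have hS0 : ∀ z : ℝ × ℝ, Real.exp z.1 + Real.exp z.2 + P ≠ 0 := fun z => by
    have h1 := Real.exp_pos z.1
    have h2 := Real.exp_pos z.2
    positivity
  have e1 : Continuous fun z : ℝ × ℝ => Real.exp (3 / 2 * (z.1 + z.2)) := by fun_prop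
  have e2 : Continuous fun z : ℝ × ℝ => Real.exp (z.1 - z.2) + Real.exp (z.2 - z.1) := by fun_prop
  have e3 : Continuous fun z : ℝ × ℝ => 3 * (Real.exp z.1 + Real.exp z.2) := by fun_prop
  have e4 : Continuous fun z : ℝ × ℝ => 46 * Real.exp (z.1 + z.2) := by fun_prop
  exact e1.mul (((e2.div (hS.pow 3) fun z => pow_ne_zero 3 (hS0 z)).add
    (e3.div (hS.pow 4) fun z => pow_ne_zero 4 (hS0 z))).sub
    (e4.div (hS.pow 5) fun z => pow_ne_zero 5 (hS0 z)))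

theorem SPP_bd {P : ℝ} (hP : 0 ≤ P) (z : ℝ × ℝ) :
    |(fun z : ℝ × ℝ => EP P z.1 z.2) z| ≤ 5 / cc (z.1 - z.2) := EP_abs hP z.1 z.2

theorem SPP_symm (P r s : ℝ) : EP P r s = EP P s r := by
  unfold EP
  rw [add_comm r s, add_comm (Real.exp (r - s)), add_comm (Real.exp r) (Real.exp s)]

theorem SPP_Am (a : ℝ → ℝ) (r s : ℝ) : MMb a r * MMb a s =
    Real.exp (3 / 2 * (r + s)) * (Am (3 / 2) a r * Am (3 / 2) a s) := by
  unfold Am
  have h : Real.exp (3 / 2 * (r + s)) * (Real.exp (-(3 / 2 * r)) * Real.exp (-(3 / 2 * s))) = 1 := by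
    rw [← Real.exp_add, ← Real.exp_add, Real.exp_eq_one_iff]
    ring
  linear_combination (-(MMb a r * MMb a s)) * h

theorem SPP_kint {P : ℝ} (hP : 0 ≤ P) (r0 s0 : ℝ) :
    IntegrableOn (fun z : ℝ × ℝ => Pool.Agent.H45.DE.kP P (Real.exp z.1) (Real.exp z.2))
      (Ioi r0 ×ˢ Ioi s0) := by
  have e : (fun z : ℝ × ℝ => Pool.Agent.H45.DE.kP P (Real.exp z.1) (Real.exp z.2)) =
      fun z : ℝ × ℝ => Real.exp (-(3 / 2 * (z.1 + z.2))) * EP P z.1 z.2 := by
    funext z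
    rw [SPP_EP_kP, ← mul_assoc, ← Real.exp_add]
    simp
  have hE : ∀ c : ℝ, IntegrableOn (fun r : ℝ => Real.exp (-(3 / 2) * r)) (Ioi c) := fun c =>
    exp_neg_integrableOn_Ioi c (by norm_num)
  have h1 : Integrable (fun z : ℝ × ℝ => Real.exp (-(3 / 2) * z.1) * Real.exp (-(3 / 2) * z.2))
      (volume.restrict (Ioi r0 ×ˢ Ioi s0)) := by
    have h2 := (show Integrable _ (volume.restrict (Ioi r0)) from hE r0).mul_prod
      (show Integrable _ (volume.restrict (Ioi s0)) from hE s0)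
    rwa [Measure.prod_restrict] at h2
  rw [e]
  refine Integrable.mono' (h1.const_mul (5 / 2)) ?_ (Eventually.of_forall fun z => ?_)
  · exact ((show Continuous fun z : ℝ × ℝ => Real.exp (-(3 / 2 * (z.1 + z.2))) by fun_prop).mul
      (SPP_cont hP)).aestronglyMeasurable
  · have h3 := EP_abs hP z.1 z.2
    have h4 := cc_ge (z.1 - z.2)
    have h5 : 5 / cc (z.1 - z.2) ≤ 5 / 2 := div_le_div_of_nonneg_left (by norm_num) (by norm_num) h4
    rw [Real.norm_eq_abs, abs_mul, abs_of_pos (Real.exp_pos _), ← Real.exp_add]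
    have h6 : -(3 / 2 * (z.1 + z.2)) = -(3 / 2) * z.1 + -(3 / 2) * z.2 := by ring
    rw [h6, mul_comm]
    exact mul_le_mul_of_nonneg_right (h3.trans h5) (Real.exp_pos _).le

theorem SPP_tn {x : ℝ} (h0 : 0 < x) (h1 : x < π) :
    Real.exp (-Real.log (ct x)) = tn x ∧ 0 < tn x := by
  have hc := ct_pos h0 h1
  have h2 : tn x = (ct x)⁻¹ := by
    unfold tn ct
    rw [Real.tan_eq_sin_div_cos, inv_div]
  refine ⟨?_, ?_⟩
  · rw [Real.exp_neg, Real.exp_log hc, h2]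
  · rw [h2]
    positivity

theorem PP_form {a : ℝ → ℝ} (ha : Bd a) {P : ℝ} (hP : 0 < P) :
    TI a a (kpp P) ∧
    Integrable (fun z : ℝ × ℝ => EP P z.1 z.2 * (Am (3 / 2) a z.1 * Am (3 / 2) a z.2)) ∧
    tf a a (kpp P) = ∫ z : ℝ × ℝ, EP P z.1 z.2 * (Am (3 / 2) a z.1 * Am (3 / 2) a z.2) := by
  have hS : MeasurableSet Sq1 := measurableSet_Ioo.prod measurableSet_Ioo
  have hK : ∀ x ∈ Ioo (0:ℝ) π, ∀ y ∈ Ioo (0:ℝ) π,
      (fun Y Z : ℝ => kpp P (1 / Y) (1 / Z)) (ct x) (ct y) =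
      ∫ z in Ioi (-Real.log (ct x)) ×ˢ Ioi (-Real.log (ct y)),
        Pool.Agent.H45.DE.kP P (Real.exp z.1) (Real.exp z.2) := by
    intro x hx y hy
    rw [Pool.Agent.H45.DE.tail_kP hP.le (SPP_kint hP.le _ _), (SPP_tn hx.1 hx.2).1,
      (SPP_tn hy.1 hy.2).1]
    have e1 : 1 / ct x = tn x := by
      unfold tn ct
      rw [Real.tan_eq_sin_div_cos, one_div, inv_div]
    have e2 : 1 / ct y = tn y := by
      unfold tn ct
      rw [Real.tan_eq_sin_div_cos, one_div, inv_div]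
    simp only [e1, e2]
    rfl
  obtain ⟨h1, h2, h3⟩ := Pool.Agent.H45.DE.form_tail (K := fun Y Z : ℝ => kpp P (1 / Y) (1 / Z))
    ha ha (SPP_kint hP.le) hK
  have hc : ∀ z ∈ Sq1, a z.1 * a z.2 * (fun Y Z : ℝ => kpp P (1 / Y) (1 / Z)) (ct z.1) (ct z.2) =
      a z.1 * a z.2 * kpp P (tn z.1) (tn z.2) := by
    intro z _
    have e1 : ∀ x, 1 / ct x = tn x := fun x => by
      unfold tn ct
      rw [Real.tan_eq_sin_div_cos, one_div, inv_div]
    simp only [e1]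
  have he : ∀ z : ℝ × ℝ, Pool.Agent.H45.DE.kP P (Real.exp z.1) (Real.exp z.2) *
      (MMb a z.1 * MMb a z.2) = EP P z.1 z.2 * (Am (3 / 2) a z.1 * Am (3 / 2) a z.2) := by
    intro z
    rw [SPP_Am, SPP_EP_kP]
    ring
  refine ⟨?_, ?_, ?_⟩
  · have h1' : IntegrableOn (fun z : ℝ × ℝ => a z.1 * a z.2 *
        (fun Y Z : ℝ => kpp P (1 / Y) (1 / Z)) (ct z.1) (ct z.2)) Sq1 := h1
    exact h1'.congr_fun hc hS
  · exact h2.congr (Eventually.of_forall he)
  · have h4 : tf a a (kpp P) = form a a (fun Y Z : ℝ => kpp P (1 / Y) (1 / Z)) :=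
      (setIntegral_congr_fun hS hc).symm
    rw [h4, h3]
    exact integral_congr_ae (Eventually.of_forall he)

/-- the integrals of `PP_low` converge -/
theorem PP_int {a : ℝ → ℝ} (ha : Bd a) {P : ℝ} (hP : 0 < P) :
    Integrable (fun r => sP P r * Am (3 / 2) a r ^ 2) ∧
    Integrable (fun z : ℝ × ℝ => EP P z.1 z.2 * (Am (3 / 2) a z.1 - Am (3 / 2) a z.2) ^ 2) := by
  have hA : Adm (Am (3 / 2) a) (Amd (3 / 2) a) := adm_Am ha (by norm_num)
  obtain ⟨i1, i2⟩ := Pool.Agent.H45.DE.shr_A hA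
  refine ⟨?_, Pool.Agent.H45.DE.shr_diff (SPP_cont hP.le).aestronglyMeasurable (SPP_bd hP.le) hA⟩
  have hc : Continuous (sP P) := by
    unfold sP
    refine Real.continuous_sqrt.comp ?_
    exact Real.continuous_exp.div (Real.continuous_exp.add continuous_const) fun r => by
      have := Real.exp_pos r
      positivity
  refine i2.mono' (hc.mul ((ND_cont hA).pow 2)).aestronglyMeasurable (Eventually.of_forall fun r => ?_)
  obtain ⟨g0, g1⟩ := SEP_le1 hP r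
  rw [Real.norm_eq_abs, abs_of_nonneg (by positivity)]
  have := mul_le_mul_of_nonneg_right g1 (sq_nonneg (Am (3 / 2) a r))
  linarith

theorem PP_low {a : ℝ → ℝ} (ha : Bd a) {P : ℝ} (hP : 0 < P) :
    (3 * π / 64 * ∫ r, sP P r * Am (3 / 2) a r ^ 2) - 1 / 2 * DI (EP P) a ≤ tf a a (kpp P) := by
  have hA : Adm (Am (3 / 2) a) (Amd (3 / 2) a) := adm_Am ha (by norm_num)
  obtain ⟨j1, j2⟩ := PP_int ha hP
  obtain ⟨-, h2, h3⟩ := PP_form ha hP
  obtain ⟨i1, i2⟩ := Pool.Agent.H45.DE.shr_A hA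
  have hm := (SPP_cont hP.le).aestronglyMeasurable (μ := (volume : Measure (ℝ × ℝ)))
  have k1 := Pool.Agent.H45.DE.shr_k1 hm (SPP_bd hP.le) i2
  have k2 := Pool.Agent.H45.DE.shr_k2 hm (SPP_bd hP.le) i2
  rw [h3]
  unfold DI
  set A := Am (3 / 2) a with hAdef
  have e : ∀ z : ℝ × ℝ, EP P z.1 z.2 * (A z.1 * A z.2) =
      1 / 2 * (EP P z.1 z.2 * A z.1 ^ 2) + 1 / 2 * (EP P z.1 z.2 * A z.2 ^ 2) -
        1 / 2 * (EP P z.1 z.2 * (A z.1 - A z.2) ^ 2) := by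
    intro z
    ring
  have q1 := k1.const_mul (1 / 2)
  have q2 := k2.const_mul (1 / 2)
  have q3 := j2.const_mul (1 / 2)
  have q12 : Integrable fun z : ℝ × ℝ => 1 / 2 * (EP P z.1 z.2 * A z.1 ^ 2) +
      1 / 2 * (EP P z.1 z.2 * A z.2 ^ 2) := q1.add q2
  have s1 : ∫ z : ℝ × ℝ, EP P z.1 z.2 * (A z.1 * A z.2) =
      1 / 2 * (∫ z : ℝ × ℝ, EP P z.1 z.2 * A z.1 ^ 2) +
      1 / 2 * (∫ z : ℝ × ℝ, EP P z.1 z.2 * A z.2 ^ 2) -
        1 / 2 * ∫ z : ℝ × ℝ, EP P z.1 z.2 * (A z.1 - A z.2) ^ 2 := by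
    simp_rw [e]
    rw [integral_sub q12 q3, integral_add q1 q2]
    simp only [integral_const_mul]
  have s2 : ∫ z : ℝ × ℝ, EP P z.1 z.2 * A z.2 ^ 2 = ∫ z : ℝ × ℝ, EP P z.1 z.2 * A z.1 ^ 2 := by
    have h4 := integral_prod_swap (μ := (volume : Measure ℝ)) (ν := (volume : Measure ℝ))
      (fun z : ℝ × ℝ => EP P z.1 z.2 * A z.1 ^ 2)
    rw [← Measure.volume_eq_prod] at h4
    rw [← h4]
    refine integral_congr_ae (Eventually.of_forall fun z => ?_)
    simp only [Prod.fst_swap, Prod.snd_swap]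
    rw [SPP_symm]
  have k1' : Integrable (fun z : ℝ × ℝ => EP P z.1 z.2 * A z.1 ^ 2)
      ((volume : Measure ℝ).prod volume) := k1
  have s3 : ∫ z : ℝ × ℝ, EP P z.1 z.2 * A z.1 ^ 2 = ∫ r, A r ^ 2 * ∫ s, EP P r s := by
    rw [Measure.volume_eq_prod, integral_prod _ k1']
    refine integral_congr_ae (Eventually.of_forall fun r => ?_)
    simp only
    rw [integral_mul_const, mul_comm]
  have s4 : 3 * π / 64 * (∫ r, sP P r * A r ^ 2) ≤ ∫ r, A r ^ 2 * ∫ s, EP P r s := by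
    rw [← integral_const_mul]
    refine integral_mono (j1.const_mul _) ?_ ?_
    · have h5 := k1'.integral_prod_left
      refine h5.congr (Eventually.of_forall fun r => ?_)
      simp only
      rw [integral_mul_const, mul_comm]
    · intro r
      simp only
      have h6 := mul_le_mul_of_nonneg_left (EP_row hP r) (sq_nonneg (A r))
      linarith
  rw [s1, s2, s3]
  linarith

end Pool.Agent.H44.DE
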