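import Pool.Agent.H44.DE.SAsm
import Pool.Agent.H12.DE.RawS

/-!
# DE: the static inequality
-/

set_option autoImplicit false
open Real Set MeasureTheory Filter Topology

namespace Pool.Agent.H44.DE
open Pool.Agent.H45.FL Pool.Agent.H51.DG Pool.Agent.H45.DY Pool.Agent.H90.DC Pool.Agent.H90.DE
open Pool.Agent.H53.DE Pool.Agent.H12.DE

theorem static_inequality : ∃ K : ℝ, 0 ≤ K ∧ ∀ (W : ℝ → ℝ) (l : ℝ), OddE W l →
    ContDiff ℝ 2 W → 9 / 8 * EFE W l ≤ TF W l + K * (BN W l + BP W l) := by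
  obtain ⟨C1, hC1, A1⟩ := AL1
  obtain ⟨C2, hC2, A2⟩ := AL2
  refine ⟨(C1 + C2 + 9 / 2) * 746496, by positivity, fun W l h hs => ?_⟩
  refine reduceE (fun V l hV hl => ?_) h hs
  have hE := hV.toVanE
  exact asm hC1 hC2 A1 A2 hV hl (aE_bd hE) (bE_bd hE) (fun h1 => raw_sum1 hE h1)
    (fun h1 => raw_sum2 hE h1 hl.le)

end Pool.Agent.H44.DE
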