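import Pool.Agent.H44.DE.Defs
import Pool.Agent.H51.DG.NG

/-!
# DE-S job 3: the double tail lemma

`k12 ≥ 0` is the mixed derivative of `k`, in logarithmic variables.
`tail_eq`: `k r s = ∬_{u>r, v>s} k12` (FTC on `Ioi` twice: `∫_{v>s} k12 u v dv = k1 u s`,
`∫_{u>r} k1 u s du = k r s`; `k1 ≥ 0` and `k ≥ 0` follow; `integral_Ioi_of_hasDerivAt_of_nonneg` type lemmas).
For `x ∈ (0,π)`, `u ∈ ℝ`: `log (tn x) < u ↔ x < th u` and `∫_{(0,π)} a(x) 1{x < th u} dx = MMb a u`.
Tonelli on `Sq1 × ℝ²` (everything `≥ 0`):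
`∫_{Sq1} a(x) b(y) k(log tn x, log tn y) = ∬ k12 u v MMb a u MMb b v`.  Integrability of the left side:
`a`, `b` are bounded on `[0,π]`, zero for `x ≤ δ`, and `0 ≤ k ≤ k(log tn δ, log tn δ)` for `x, y ≥ δ`.
`tail_sq`: the same with `k12` cut to the square `u, v < ρ`: for `r, s < ρ`
`∬_{r<u<ρ, s<v<ρ} k12 = k r s - k r ρ - k ρ s + k ρ ρ ≤ k r s` (`k ρ s ≥ 0`, `k ρ ρ ≤ k r ρ` as `k1 ≥ 0`).
(Strict or non-strict inequalities do not matter: null sets.)
-/

set_option autoImplicit false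
open Real Set MeasureTheory Filter Topology

namespace Pool.Agent.H44.DE
open Pool.Agent.H45.FL Pool.Agent.H51.DG Pool.Agent.H45.DY Pool.Agent.H90.DC Pool.Agent.H90.DE

/-! ### the change between the angle and the logarithmic variable -/

theorem STail_tn_pos {x : ℝ} (h0 : 0 < x) (h1 : x < π) : 0 < tn x :=
  Real.tan_pos_of_pos_of_lt_pi_div_two (by linarith) (by linarith)

theorem STail_log_lt {x u : ℝ} (h0 : 0 < x) (h1 : x < π) : Real.log (tn x) < u ↔ x < th u := by
  have h2 := STail_tn_pos h0 h1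
  rw [Real.log_lt_iff_lt_exp h2]
  have h3 : Real.arctan (tn x) = x / 2 := Real.arctan_tan (by linarith) (by linarith)
  unfold th
  constructor
  · intro h4
    have h5 := Real.arctan_strictMono h4
    rw [h3] at h5
    linarith
  · intro h4
    by_contra h5
    have h6 := Real.arctan_strictMono.monotone (not_lt.1 h5)
    rw [h3] at h6
    linarith

theorem STail_log_mono {x y : ℝ} (h0 : 0 < x) (hxy : x ≤ y) (h1 : y < π) :
    Real.log (tn x) ≤ Real.log (tn y) := by
  by_contra h2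
  have h3 : Real.log (tn y) < Real.log (tn x) := not_le.1 h2
  have h4 := (STail_log_lt (lt_of_lt_of_le h0 hxy) h1).1 h3
  have h5 : ¬ Real.log (tn x) < Real.log (tn x) := lt_irrefl _
  exact h5 ((STail_log_lt h0 (lt_of_le_of_lt hxy h1)).2 (lt_of_le_of_lt hxy h4))

theorem STail_meas_log : Measurable fun x : ℝ => Real.log (tn x) := by
  have h1 : Measurable fun x : ℝ => tn x := by
    have e : (fun x : ℝ => tn x) = fun x : ℝ => Real.sin (x / 2) / Real.cos (x / 2) := by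
      funext x
      exact Real.tan_eq_sin_div_cos _
    rw [e]
    exact (Real.measurable_sin.comp (measurable_id.div_const 2)).div
      (Real.measurable_cos.comp (measurable_id.div_const 2))
  exact Real.measurable_log.comp h1

theorem STail_MMb (a : ℝ → ℝ) (u : ℝ) :
    ∫ x in Ioo (0:ℝ) π, (Iio (th u)).indicator a x = MMb a u := by
  have h1 := th_mem u
  rw [setIntegral_indicator measurableSet_Iio]
  have e : Ioo (0:ℝ) π ∩ Iio (th u) = Ioo 0 (th u) := by
    ext x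
    constructor
    · rintro ⟨h2, h3⟩
      exact ⟨h2.1, h3⟩
    · rintro ⟨h2, h3⟩
      exact ⟨⟨h2, h3.trans h1.2⟩, h3⟩
  rw [e, ← integral_Ioc_eq_integral_Ioo, ← intervalIntegral.integral_of_le h1.1.le]
  rfl

theorem STail_msq : MeasurableSet Sq1 := measurableSet_Ioo.prod measurableSet_Ioo

/-- bounded integrable functions on the square -/
theorem STail_int {a b : ℝ → ℝ} (ha : Bd a) (hb : Bd b) {H : ℝ → ℝ → ℝ}
    (hm : AEStronglyMeasurable (fun z : ℝ × ℝ =>
      a z.1 * b z.2 * H (Real.log (tn z.1)) (Real.log (tn z.2))) (volume.restrict Sq1))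
    (hH : ∀ ρ : ℝ, ∃ C : ℝ, ∀ r s, ρ ≤ r → ρ ≤ s → |H r s| ≤ C) :
    IntegrableOn (fun z : ℝ × ℝ =>
      a z.1 * b z.2 * H (Real.log (tn z.1)) (Real.log (tn z.2))) Sq1 := by
  have hp := Real.pi_pos
  obtain ⟨δ1, hδ1, hz1⟩ := ha.z
  obtain ⟨δ2, hδ2, hz2⟩ := hb.z
  obtain ⟨δ, hδ⟩ : ∃ δ : ℝ, δ = min (min δ1 δ2) (π / 2) := ⟨_, rfl⟩
  have hδ0 : 0 < δ := by
    rw [hδ]
    exact lt_min (lt_min hδ1 hδ2) (by linarith)
  have hδa : δ ≤ δ1 := by
    rw [hδ]
    exact (min_le_left _ _).trans (min_le_left _ _)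
  have hδb : δ ≤ δ2 := by
    rw [hδ]
    exact (min_le_left _ _).trans (min_le_right _ _)
  obtain ⟨C, hC⟩ := hH (Real.log (tn δ))
  obtain ⟨A, hA⟩ : ∃ A : ℝ, ∀ x ∈ Icc (0:ℝ) π, ‖a x‖ ≤ A :=
    isCompact_Icc.exists_bound_of_continuousOn ha.c.continuousOn
  obtain ⟨B, hB⟩ : ∃ B : ℝ, ∀ x ∈ Icc (0:ℝ) π, ‖b x‖ ≤ B :=
    isCompact_Icc.exists_bound_of_continuousOn hb.c.continuousOn
  have hA0 : 0 ≤ A := (norm_nonneg _).trans (hA 0 ⟨le_rfl, hp.le⟩)
  have hB0 : 0 ≤ B := (norm_nonneg _).trans (hB 0 ⟨le_rfl, hp.le⟩)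
  have hfin : volume Sq1 ≠ ⊤ := by
    unfold Sq1
    rw [Measure.volume_eq_prod, Measure.prod_prod, Real.volume_Ioo]
    exact ENNReal.mul_ne_top ENNReal.ofReal_ne_top ENNReal.ofReal_ne_top
  refine Integrable.mono' (integrableOn_const (C := A * B * |C|) hfin) hm ?_
  refine (ae_restrict_iff' STail_msq).2 (Filter.Eventually.of_forall fun z hz => ?_)
  obtain ⟨hz1', hz2'⟩ := hz
  rw [norm_mul, norm_mul]
  have hnn : 0 ≤ A * B * |C| := by positivity
  by_cases h1 : z.1 ≤ δ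
  · rw [hz1 z.1 hz1'.1.le (h1.trans hδa), norm_zero, zero_mul, zero_mul]
    exact hnn
  by_cases h2 : z.2 ≤ δ
  · rw [hz2 z.2 hz2'.1.le (h2.trans hδb), norm_zero, mul_zero, zero_mul]
    exact hnn
  have h3 := hC (Real.log (tn z.1)) (Real.log (tn z.2))
    (STail_log_mono hδ0 (not_le.1 h1).le hz1'.2) (STail_log_mono hδ0 (not_le.1 h2).le hz2'.2)
  have h4 := hA z.1 ⟨hz1'.1.le, hz1'.2.le⟩
  have h5 := hB z.2 ⟨hz2'.1.le, hz2'.2.le⟩
  have h6 : ‖H (Real.log (tn z.1)) (Real.log (tn z.2))‖ ≤ |C| := h3.trans (le_abs_self C)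
  exact mul_le_mul (mul_le_mul h4 h5 (norm_nonneg _) hA0) h6 (norm_nonneg _) (by positivity)

/-- Tonelli for a nonnegative kernel -/
theorem STail_gen {a b : ℝ → ℝ} (ha : Bd a) (hb : Bd b) {h : ℝ × ℝ → ℝ} {H : ℝ → ℝ → ℝ}
    (hm : Measurable h) (hp : ∀ z, 0 ≤ h z)
    (hi : ∀ r s, IntegrableOn h (Ioi r ×ˢ Ioi s))
    (hH : ∀ r s, ∫ z in Ioi r ×ˢ Ioi s, h z = H r s) :
    IntegrableOn (fun z : ℝ × ℝ =>
      a z.1 * b z.2 * H (Real.log (tn z.1)) (Real.log (tn z.2))) Sq1 ∧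
    Integrable (fun z : ℝ × ℝ => h z * (MMb a z.1 * MMb b z.2)) ∧
    ∫ z in Sq1, a z.1 * b z.2 * H (Real.log (tn z.1)) (Real.log (tn z.2)) =
      ∫ z : ℝ × ℝ, h z * (MMb a z.1 * MMb b z.2) := by
  obtain ⟨S, hS⟩ : ∃ S : Set ((ℝ × ℝ) × (ℝ × ℝ)), S =
      {q | Real.log (tn q.1.1) < q.2.1 ∧ Real.log (tn q.1.2) < q.2.2} := ⟨_, rfl⟩
  have hSm : MeasurableSet S := by
    rw [hS]
    have h1 : MeasurableSet {q : (ℝ × ℝ) × (ℝ × ℝ) | Real.log (tn q.1.1) < q.2.1} :=
      measurableSet_lt (STail_meas_log.comp (measurable_fst.comp measurable_fst))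
        (measurable_fst.comp measurable_snd)
    have h2 : MeasurableSet {q : (ℝ × ℝ) × (ℝ × ℝ) | Real.log (tn q.1.2) < q.2.2} :=
      measurableSet_lt (STail_meas_log.comp (measurable_snd.comp measurable_fst))
        (measurable_snd.comp measurable_snd)
    exact h1.inter h2
  obtain ⟨F, hF⟩ : ∃ F : (ℝ × ℝ) × (ℝ × ℝ) → ℝ, F = fun q =>
      a q.1.1 * b q.1.2 * S.indicator (fun q => h q.2) q := ⟨_, rfl⟩
  have hFm : Measurable F := by
    rw [hF]
    exact ((ha.c.measurable.comp (measurable_fst.comp measurable_fst)).mul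
      (hb.c.measurable.comp (measurable_snd.comp measurable_fst))).mul
      ((hm.comp measurable_snd).indicator hSm)
  -- sections in the second variable
  have hsec : ∀ z : ℝ × ℝ, (fun w => F (z, w)) = fun w => a z.1 * b z.2 *
      (Ioi (Real.log (tn z.1)) ×ˢ Ioi (Real.log (tn z.2))).indicator h w := by
    intro z
    funext w
    rw [hF]
    show a z.1 * b z.2 * S.indicator (fun q => h q.2) (z, w) = _
    congr 1
    by_cases hw : w ∈ Ioi (Real.log (tn z.1)) ×ˢ Ioi (Real.log (tn z.2))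
    · rw [Set.indicator_of_mem hw, Set.indicator_of_mem]
      rw [hS]
      exact ⟨hw.1, hw.2⟩
    · rw [Set.indicator_of_notMem hw, Set.indicator_of_notMem]
      rw [hS]
      intro h1
      exact hw ⟨h1.1, h1.2⟩
  have hms : ∀ r s : ℝ, MeasurableSet (Ioi r ×ˢ Ioi s) := fun r s =>
    measurableSet_Ioi.prod measurableSet_Ioi
  have hint1 : ∀ z : ℝ × ℝ, Integrable (fun w => F (z, w)) := by
    intro z
    rw [hsec z]
    exact ((hi _ _).integrable_indicator (hms _ _)).const_mul _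
  have hval1 : ∀ z : ℝ × ℝ, ∫ w, F (z, w) =
      a z.1 * b z.2 * H (Real.log (tn z.1)) (Real.log (tn z.2)) := by
    intro z
    rw [hsec z, integral_const_mul, integral_indicator (hms _ _), hH]
  have hnn : ∀ z ∈ Sq1, ∀ w, 0 ≤ F (z, w) := by
    intro z hz w
    rw [hF]
    refine mul_nonneg (mul_nonneg (ha.nn z.1 ⟨hz.1.1.le, hz.1.2.le⟩)
      (hb.nn z.2 ⟨hz.2.1.le, hz.2.2.le⟩)) ?_
    exact Set.indicator_nonneg (fun q _ => hp q.2) _
  have hFs : AEStronglyMeasurable F ((volume.restrict Sq1).prod volume) :=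
    hFm.aestronglyMeasurable
  have hHm : AEStronglyMeasurable (fun z : ℝ × ℝ =>
      a z.1 * b z.2 * H (Real.log (tn z.1)) (Real.log (tn z.2))) (volume.restrict Sq1) := by
    have h1 := hFs.integral_prod_right'
    have e : (fun z : ℝ × ℝ => ∫ w, F (z, w)) = fun z : ℝ × ℝ =>
      a z.1 * b z.2 * H (Real.log (tn z.1)) (Real.log (tn z.2)) := funext hval1
    rwa [e] at h1
  have hHnn : ∀ r s, 0 ≤ H r s := by
    intro r s
    rw [← hH]
    exact integral_nonneg fun z => hp z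
  have hHmono : ∀ ρ r s, ρ ≤ r → ρ ≤ s → H r s ≤ H ρ ρ := by
    intro ρ r s h1 h2
    rw [← hH r s, ← hH ρ ρ]
    refine setIntegral_mono_set (hi ρ ρ) (Filter.Eventually.of_forall fun z => hp z) ?_
    refine Filter.Eventually.of_forall fun z hz => ?_
    exact ⟨lt_of_le_of_lt h1 hz.1, lt_of_le_of_lt h2 hz.2⟩
  have hI1 := STail_int ha hb hHm (fun ρ => ⟨H ρ ρ, fun r s h1 h2 => by
    rw [abs_of_nonneg (hHnn r s)]
    exact hHmono ρ r s h1 h2⟩)
  have hFi : Integrable F ((volume.restrict Sq1).prod volume) := by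
    rw [integrable_prod_iff hFs]
    refine ⟨Filter.Eventually.of_forall fun z => hint1 z, ?_⟩
    refine Integrable.congr hI1 ?_
    refine (ae_restrict_iff' STail_msq).2 (Filter.Eventually.of_forall fun z hz => ?_)
    show a z.1 * b z.2 * H (Real.log (tn z.1)) (Real.log (tn z.2)) = ∫ w, ‖F (z, w)‖
    rw [← hval1 z]
    refine integral_congr_ae (Filter.Eventually.of_forall fun w => ?_)
    show F (z, w) = ‖F (z, w)‖
    rw [Real.norm_eq_abs, abs_of_nonneg (hnn z hz w)]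
  have hval2 : ∀ w : ℝ × ℝ, ∫ z in Sq1, F (z, w) = h w * (MMb a w.1 * MMb b w.2) := by
    intro w
    have h1 : ∫ z in Sq1, F (z, w) = ∫ z in Sq1, h w *
        ((Iio (th w.1)).indicator a z.1 * (Iio (th w.2)).indicator b z.2) := by
      refine setIntegral_congr_fun STail_msq fun z hz => ?_
      show F (z, w) = h w *
        ((Iio (th w.1)).indicator a z.1 * (Iio (th w.2)).indicator b z.2)
      rw [hF]
      show a z.1 * b z.2 * S.indicator (fun q => h q.2) (z, w) = _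
      by_cases h2 : z.1 < th w.1
      · by_cases h3 : z.2 < th w.2
        · rw [Set.indicator_of_mem (show z.1 ∈ Iio (th w.1) from h2),
            Set.indicator_of_mem (show z.2 ∈ Iio (th w.2) from h3), Set.indicator_of_mem]
          · ring
          · rw [hS]
            exact ⟨(STail_log_lt hz.1.1 hz.1.2).2 h2, (STail_log_lt hz.2.1 hz.2.2).2 h3⟩
        · rw [Set.indicator_of_notMem (show z.2 ∉ Iio (th w.2) from h3),
            Set.indicator_of_notMem]
          · ring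
          · rw [hS]
            intro h4
            exact h3 ((STail_log_lt hz.2.1 hz.2.2).1 h4.2)
      · rw [Set.indicator_of_notMem (show z.1 ∉ Iio (th w.1) from h2),
          Set.indicator_of_notMem]
        · ring
        · rw [hS]
          intro h4
          exact h2 ((STail_log_lt hz.1.1 hz.1.2).1 h4.1)
    rw [h1, integral_const_mul]
    congr 1
    have h2 := setIntegral_prod_mul (μ := (volume : Measure ℝ)) (ν := (volume : Measure ℝ))
      ((Iio (th w.1)).indicator a) ((Iio (th w.2)).indicator b) (Ioo (0:ℝ) π) (Ioo (0:ℝ) π)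
    rw [STail_MMb, STail_MMb] at h2
    exact h2
  refine ⟨hI1, ?_, ?_⟩
  · have h1 := hFi.integral_prod_right
    have e : (fun w : ℝ × ℝ => ∫ z in Sq1, F (z, w)) = fun w : ℝ × ℝ =>
      h w * (MMb a w.1 * MMb b w.2) := funext hval2
    rwa [e] at h1
  · have h1 := integral_prod F hFi
    have h2 := integral_prod_symm F hFi
    rw [h1] at h2
    have e1 : ∫ z in Sq1, ∫ w, F (z, w) =
        ∫ z in Sq1, a z.1 * b z.2 * H (Real.log (tn z.1)) (Real.log (tn z.2)) :=
      integral_congr_ae (Filter.Eventually.of_forall hval1)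
    have e2 : ∫ w, ∫ z in Sq1, F (z, w) = ∫ w, h w * (MMb a w.1 * MMb b w.2) :=
      integral_congr_ae (Filter.Eventually.of_forall hval2)
    rw [← e1, h2, e2]

theorem tail_eq {a b : ℝ → ℝ} (ha : Bd a) (hb : Bd b) {k k1 k12 : ℝ → ℝ → ℝ}
    (d1 : ∀ u v, HasDerivAt (fun u => k u v) (-(k1 u v)) u)
    (d2 : ∀ u v, HasDerivAt (fun v => k1 u v) (-(k12 u v)) v)
    (pos : ∀ u v, 0 ≤ k12 u v) (cont : Continuous fun z : ℝ × ℝ => k12 z.1 z.2)
    (l1 : ∀ v, Tendsto (fun u => k u v) atTop (𝓝 0))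
    (l2 : ∀ u, Tendsto (fun v => k1 u v) atTop (𝓝 0)) :
    IntegrableOn (fun z : ℝ × ℝ =>
      a z.1 * b z.2 * k (Real.log (tn z.1)) (Real.log (tn z.2))) Sq1 ∧
    Integrable (fun z : ℝ × ℝ => k12 z.1 z.2 * (MMb a z.1 * MMb b z.2)) ∧
    ∫ z in Sq1, a z.1 * b z.2 * k (Real.log (tn z.1)) (Real.log (tn z.2)) =
      ∫ z : ℝ × ℝ, k12 z.1 z.2 * (MMb a z.1 * MMb b z.2) := by
  have hk2 : ∀ u s, IntegrableOn (fun v => k12 u v) (Ioi s) ∧ ∫ v in Ioi s, k12 u v = k1 u s := by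
    intro u s
    have hd : ∀ v ∈ Ici s, HasDerivAt (fun v => -k1 u v) (k12 u v) v := fun v _ => by
      have h1 := (d2 u v).neg
      rwa [neg_neg] at h1
    have ht : Tendsto (fun v => -k1 u v) atTop (𝓝 0) := by
      have h1 := (l2 u).neg
      rwa [neg_zero] at h1
    refine ⟨integrableOn_Ioi_deriv_of_nonneg' hd (fun v _ => pos u v) ht, ?_⟩
    rw [integral_Ioi_of_hasDerivAt_of_nonneg' hd (fun v _ => pos u v) ht]
    ring
  have hk1n : ∀ u s, 0 ≤ k1 u s := by
    intro u s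
    rw [← (hk2 u s).2]
    exact integral_nonneg fun v => pos u v
  have hk1 : ∀ r s, IntegrableOn (fun u => k1 u s) (Ioi r) ∧ ∫ u in Ioi r, k1 u s = k r s := by
    intro r s
    have hd : ∀ u ∈ Ici r, HasDerivAt (fun u => -k u s) (k1 u s) u := fun u _ => by
      have h1 := (d1 u s).neg
      rwa [neg_neg] at h1
    have ht : Tendsto (fun u => -k u s) atTop (𝓝 0) := by
      have h1 := (l1 s).neg
      rwa [neg_zero] at h1
    refine ⟨integrableOn_Ioi_deriv_of_nonneg' hd (fun u _ => hk1n u s) ht, ?_⟩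
    rw [integral_Ioi_of_hasDerivAt_of_nonneg' hd (fun u _ => hk1n u s) ht]
    ring
  have hi : ∀ r s, IntegrableOn (fun z : ℝ × ℝ => k12 z.1 z.2) (Ioi r ×ˢ Ioi s) := by
    intro r s
    unfold IntegrableOn
    rw [Measure.volume_eq_prod, ← Measure.prod_restrict,
      integrable_prod_iff cont.measurable.aestronglyMeasurable]
    refine ⟨Filter.Eventually.of_forall fun u => (hk2 u s).1, ?_⟩
    refine Integrable.congr (hk1 r s).1 (Filter.Eventually.of_forall fun u => ?_)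
    show k1 u s = ∫ v in Ioi s, ‖k12 u v‖
    rw [← (hk2 u s).2]
    refine integral_congr_ae (Filter.Eventually.of_forall fun v => ?_)
    show k12 u v = ‖k12 u v‖
    rw [Real.norm_eq_abs, abs_of_nonneg (pos u v)]
  have hH : ∀ r s, ∫ z in Ioi r ×ˢ Ioi s, k12 z.1 z.2 = k r s := by
    intro r s
    have h1 := hi r s
    rw [Measure.volume_eq_prod] at h1 ⊢
    rw [setIntegral_prod _ h1, ← (hk1 r s).2]
    refine integral_congr_ae (Filter.Eventually.of_forall fun u => ?_)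
    exact (hk2 u s).2
  exact STail_gen ha hb (h := fun z : ℝ × ℝ => k12 z.1 z.2) (H := k) cont.measurable
    (fun z => pos z.1 z.2) hi hH

theorem tail_sq {a b : ℝ → ℝ} (ha : Bd a) (hb : Bd b) {k k1 k12 : ℝ → ℝ → ℝ} (ρ : ℝ)
    (d1 : ∀ u v, HasDerivAt (fun u => k u v) (-(k1 u v)) u)
    (d2 : ∀ u v, HasDerivAt (fun v => k1 u v) (-(k12 u v)) v)
    (pos : ∀ u v, 0 ≤ k12 u v) (cont : Continuous fun z : ℝ × ℝ => k12 z.1 z.2)
    (ck : Continuous fun z : ℝ × ℝ => k z.1 z.2)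
    (kp : ∀ u v, 0 ≤ k u v) (k1p : ∀ u v, 0 ≤ k1 u v)
    (kv : ∀ u v v', v ≤ v' → k u v' ≤ k u v) :
    IntegrableOn (fun z : ℝ × ℝ => a z.1 * b z.2 *
      (if Real.log (tn z.1) < ρ ∧ Real.log (tn z.2) < ρ then
        k (Real.log (tn z.1)) (Real.log (tn z.2)) else 0)) Sq1 ∧
    IntegrableOn (fun z : ℝ × ℝ => k12 z.1 z.2 * (MMb a z.1 * MMb b z.2)) (Iio ρ ×ˢ Iio ρ) ∧
    ∫ z in Iio ρ ×ˢ Iio ρ, k12 z.1 z.2 * (MMb a z.1 * MMb b z.2) ≤
      ∫ z in Sq1, a z.1 * b z.2 *
        (if Real.log (tn z.1) < ρ ∧ Real.log (tn z.2) < ρ then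
          k (Real.log (tn z.1)) (Real.log (tn z.2)) else 0) := by
  obtain ⟨h, hh⟩ : ∃ h : ℝ × ℝ → ℝ, h =
      (Iio ρ ×ˢ Iio ρ).indicator (fun z : ℝ × ℝ => k12 z.1 z.2) := ⟨_, rfl⟩
  have hmI : MeasurableSet (Iio ρ ×ˢ Iio ρ) := measurableSet_Iio.prod measurableSet_Iio
  have hm : Measurable h := by
    rw [hh]
    exact cont.measurable.indicator hmI
  have hp : ∀ z, 0 ≤ h z := by
    intro z
    rw [hh]
    exact Set.indicator_nonneg (fun q _ => pos q.1 q.2) _
  have hset : ∀ r s : ℝ, (Ioi r ×ˢ Ioi s) ∩ (Iio ρ ×ˢ Iio ρ) = Ioo r ρ ×ˢ Ioo s ρ := by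
    intro r s
    rw [Set.prod_inter_prod, Ioi_inter_Iio, Ioi_inter_Iio]
  have hic : ∀ r s, IntegrableOn (fun z : ℝ × ℝ => k12 z.1 z.2) (Ioo r ρ ×ˢ Ioo s ρ) := by
    intro r s
    exact (cont.continuousOn.integrableOn_compact
      ((isCompact_Icc (a := r) (b := ρ)).prod (isCompact_Icc (a := s) (b := ρ)))).mono_set
      (Set.prod_mono Ioo_subset_Icc_self Ioo_subset_Icc_self)
  have hi : ∀ r s, IntegrableOn h (Ioi r ×ˢ Ioi s) := by
    intro r s
    rw [hh, integrableOn_indicator_iff hmI]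
    have h1 := hic r s
    rw [← hset r s, inter_comm] at h1
    exact h1
  have hcu : ∀ v, Continuous fun u => k12 u v := fun v =>
    cont.comp (continuous_id.prodMk continuous_const)
  have hcv : ∀ u, Continuous fun v => k12 u v := fun u =>
    cont.comp (continuous_const.prodMk continuous_id)
  have hFv : ∀ u s, ∫ v in s..ρ, k12 u v = k1 u s - k1 u ρ := by
    intro u s
    have hd : ∀ v ∈ uIcc s ρ, HasDerivAt (fun v => -k1 u v) (k12 u v) v := fun v _ => by
      have h1 := (d2 u v).neg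
      rwa [neg_neg] at h1
    rw [intervalIntegral.integral_eq_sub_of_hasDerivAt hd ((hcv u).intervalIntegrable _ _)]
    ring
  have hck : ∀ s, Continuous fun u => k1 u s - k1 u ρ := by
    intro s
    have e : (fun u => k1 u s - k1 u ρ) = fun u => ∫ v in s..ρ, k12 u v :=
      funext fun u => (hFv u s).symm
    rw [e]
    exact intervalIntegral.continuous_parametric_intervalIntegral_of_continuous' cont s ρ
  have hFu : ∀ r s, ∫ u in r..ρ, (k1 u s - k1 u ρ) = k r s - k ρ s - (k r ρ - k ρ ρ) := by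
    intro r s
    have hd : ∀ u ∈ uIcc r ρ, HasDerivAt (fun u => -k u s + k u ρ) (k1 u s - k1 u ρ) u :=
      fun u _ => by
        have h1 := (d1 u s).neg.add (d1 u ρ)
        have e : - -k1 u s + -k1 u ρ = k1 u s - k1 u ρ := by ring
        rwa [e] at h1
    rw [intervalIntegral.integral_eq_sub_of_hasDerivAt hd ((hck s).intervalIntegrable _ _)]
    ring
  have hle : ∀ r s, ∫ z in Ioi r ×ˢ Ioi s, h z ≤ if r < ρ ∧ s < ρ then k r s else 0 := by
    intro r s
    have h1 : ∫ z in Ioi r ×ˢ Ioi s, h z = ∫ z in Ioo r ρ ×ˢ Ioo s ρ, k12 z.1 z.2 := by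
      rw [hh, setIntegral_indicator hmI, hset]
    rw [h1]
    by_cases h2 : r < ρ ∧ s < ρ
    · rw [if_pos h2]
      have h3 := hic r s
      rw [Measure.volume_eq_prod] at h3 ⊢
      rw [setIntegral_prod _ h3]
      have h4 : ∫ u in Ioo r ρ, ∫ v in Ioo s ρ, k12 u v = ∫ u in Ioo r ρ, (k1 u s - k1 u ρ) := by
        refine integral_congr_ae (Filter.Eventually.of_forall fun u => ?_)
        show ∫ v in Ioo s ρ, k12 u v = k1 u s - k1 u ρ
        rw [← hFv, intervalIntegral.integral_of_le h2.2.le, integral_Ioc_eq_integral_Ioo]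
      have h5 : ∫ u in Ioo r ρ, (k1 u s - k1 u ρ) = k r s - k ρ s - (k r ρ - k ρ ρ) := by
        rw [← hFu, intervalIntegral.integral_of_le h2.1.le, integral_Ioc_eq_integral_Ioo]
      have h6 : ∫ u in Ioo r ρ, ∫ v in Ioo s ρ, k12 u v = k r s - k ρ s - (k r ρ - k ρ ρ) :=
        h4.trans h5
      have h7 := kv ρ s ρ h2.2.le
      have h8 := kp r ρ
      refine h6.le.trans ?_
      linarith
    · rw [if_neg h2]
      have h3 : Ioo r ρ ×ˢ Ioo s ρ = (∅ : Set (ℝ × ℝ)) := by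
        rw [Set.prod_eq_empty_iff]
        by_contra h4
        rw [not_or] at h4
        apply h2
        constructor
        · by_contra h5
          exact h4.1 (Ioo_eq_empty h5)
        · by_contra h5
          exact h4.2 (Ioo_eq_empty h5)
      rw [h3, setIntegral_empty]
  obtain ⟨g1, g2, g3⟩ := STail_gen ha hb (h := h)
    (H := fun r s => ∫ z in Ioi r ×ˢ Ioi s, h z) hm hp hi (fun r s => rfl)
  have hprod : (fun z : ℝ × ℝ => h z * (MMb a z.1 * MMb b z.2)) =
      (Iio ρ ×ˢ Iio ρ).indicator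
        (fun z : ℝ × ℝ => k12 z.1 z.2 * (MMb a z.1 * MMb b z.2)) := by
    funext z
    rw [hh]
    by_cases hz : z ∈ Iio ρ ×ˢ Iio ρ
    · rw [Set.indicator_of_mem hz, Set.indicator_of_mem hz]
    · rw [Set.indicator_of_notMem hz, Set.indicator_of_notMem hz, zero_mul]
  have hR : IntegrableOn (fun z : ℝ × ℝ => a z.1 * b z.2 *
      (if Real.log (tn z.1) < ρ ∧ Real.log (tn z.2) < ρ then
        k (Real.log (tn z.1)) (Real.log (tn z.2)) else 0)) Sq1 := by
    refine STail_int ha hb (H := fun r s => if r < ρ ∧ s < ρ then k r s else 0) ?_ ?_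
    · have hm1 : Measurable fun z : ℝ × ℝ => Real.log (tn z.1) := STail_meas_log.comp measurable_fst
      have hm2 : Measurable fun z : ℝ × ℝ => Real.log (tn z.2) := STail_meas_log.comp measurable_snd
      have hm3 : Measurable fun z : ℝ × ℝ => k (Real.log (tn z.1)) (Real.log (tn z.2)) :=
        ck.measurable.comp (hm1.prodMk hm2)
      have hm4 : MeasurableSet {z : ℝ × ℝ | Real.log (tn z.1) < ρ ∧ Real.log (tn z.2) < ρ} :=
        (measurableSet_lt hm1 measurable_const).inter (measurableSet_lt hm2 measurable_const)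
      exact (((ha.c.measurable.comp measurable_fst).mul (hb.c.measurable.comp measurable_snd)).mul
        (Measurable.ite hm4 hm3 measurable_const)).aestronglyMeasurable
    · intro σ
      obtain ⟨C, hC⟩ := ((isCompact_Icc (a := σ) (b := ρ)).prod
        (isCompact_Icc (a := σ) (b := ρ))).exists_bound_of_continuousOn ck.continuousOn
      refine ⟨|C|, fun r s h1 h2 => ?_⟩
      show |if r < ρ ∧ s < ρ then k r s else 0| ≤ |C|
      by_cases h3 : r < ρ ∧ s < ρ
      · rw [if_pos h3]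
        exact (hC (r, s) ⟨⟨h1, h3.1.le⟩, ⟨h2, h3.2.le⟩⟩).trans (le_abs_self C)
      · rw [if_neg h3, abs_zero]
        exact abs_nonneg _
  refine ⟨hR, ?_, ?_⟩
  · rw [hprod, integrable_indicator_iff hmI] at g2
    exact g2
  · rw [hprod, integral_indicator hmI] at g3
    rw [← g3]
    refine setIntegral_mono_on g1 hR STail_msq fun z hz => ?_
    refine mul_le_mul_of_nonneg_left (hle _ _) (mul_nonneg (ha.nn z.1 ⟨hz.1.1.le, hz.1.2.le⟩)
      (hb.nn z.2 ⟨hz.2.1.le, hz.2.2.le⟩))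

end Pool.Agent.H44.DE
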